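import Pool.Agent.Lib.MP_02f36d_nt.T17.St
import Pool.Agent.Lib.MP_02f36d_nt.C17.Root

/-! The root number of the twists over fields of odd degree. -/

set_option autoImplicit false

open NumberField IsDedekindDomain WeierstrassCurve WithZero
open scoped Classical
open Pool.Agent.C17.Rt (vv int_le one_of splits_quad)

noncomputable section

namespace Pool.Agent.T17

namespace Rt

section Dvr

variable (R : Type) [CommRing R] [IsDomain R] [IsDiscreteValuationRing R]
variable (K : Type) [Field K] [Algebra R K] [IsFractionRing R K]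

theorem model [CharZero K] {d : ℤ} (h4 : d % 4 = 1)
    (hmin : ∀ u : K, 1 < vv R K u → 1 < vv R K (u ^ 12 * (289 * d ^ 6)) ∨
      1 < vv R K (u ^ 4 * (273 * d ^ 2))) :
    ∃ u : K, vv R K u = 1 ∧ ((Ed d K).minimal R).Δ = u ^ 12 * (289 * d ^ 6) ∧
      ((Ed d K).minimal R).c₄ = u ^ 4 * (273 * d ^ 2) ∧
      ((Ed d K).minimal R).c₆ = u ^ 6 * (4455 * d ^ 3) := by
  obtain ⟨k, hk⟩ : ∃ k : ℤ, d = 4 * k + 1 := ⟨d / 4, by omega⟩
  have hk' : (d : K) = 4 * k + 1 := by exact_mod_cast hk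
  have hd : (d : K) ≠ 0 := by exact_mod_cast (show d ≠ 0 by omega)
  let V : WeierstrassCurve K := ⟨1, -15 * k - 4, 0, -d ^ 2, 0⟩
  have e1 : V.Δ = 289 * d ^ 6 := by simp only [V, Δ, b₂, b₄, b₆, b₈, hk']; ring
  have e2 : V.c₄ = 273 * d ^ 2 := by simp only [V, c₄, b₂, b₄, hk']; ring
  have e3 : V.c₆ = 4455 * d ^ 3 := by simp only [V, c₆, b₂, b₄, b₆, hk']; ring
  let C₀ : VariableChange K := ⟨Units.mk0 2 two_ne_zero, 0, 1, 0⟩
  have h : C₀ • Ed d K = V := by
    ext <;> simp [V, C₀, Ed, variableChange_def, hk'] <;> ring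
  obtain ⟨C, hC⟩ : ∃ C : VariableChange K, (Ed d K).minimal R = C • V :=
    ⟨((Ed d K).exists_isMinimal R).choose * C₀⁻¹, by rw [← h, mul_smul, inv_smul_smul]; rfl⟩
  have hm : IsMinimal R ((Ed d K).minimal R) := inferInstance
  generalize (Ed d K).minimal R = M at hC hm ⊢
  have f1 : M.Δ = ((C.u⁻¹ : Kˣ) : K) ^ 12 * (289 * d ^ 6) := by rw [hC, variableChange_Δ, e1]
  have f2 : M.c₄ = ((C.u⁻¹ : Kˣ) : K) ^ 4 * (273 * d ^ 2) := by rw [hC, variableChange_c₄, e2]
  refine ⟨(C.u⁻¹ : Kˣ), ?_, f1, f2, by rw [hC, variableChange_c₆, e3]⟩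
  generalize ((C.u⁻¹ : Kˣ) : K) = u at f1 f2
  have hV : C⁻¹ • M = V := by rw [hC, inv_smul_smul]
  have iV : IsIntegral R (C⁻¹ • M) := ⟨⟨1, -15 * k - 4, 0, -d ^ 2, 0⟩, by
    rw [hV]; ext <;> simp [V, baseChange, map_ofNat]⟩
  have h1 : vv R K (C⁻¹ • M).Δ ≤ vv R K M.Δ := by
    have := hm.val_Δ_maximal.le iV
    rw [one_smul, ← Subtype.coe_le_coe, valuation_Δ_aux_eq_of_isIntegral,
      valuation_Δ_aux_eq_of_isIntegral] at this
    exact this
  have h2 : 1 ≤ vv R K u := by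
    rw [hV, e1, f1, map_mul _ (u ^ 12), map_pow] at h1
    by_contra hlt
    exact absurd h1 (not_le.2 (mul_lt_of_lt_one_left
      (zero_lt_iff.2 ((map_ne_zero _).2 (mul_ne_zero (by norm_num) (pow_ne_zero _ hd))))
      (pow_lt_one₀ zero_le (not_le.1 hlt) (by norm_num))))
  refine le_antisymm (not_lt.1 fun hlt => ?_) h2
  have g1 : vv R K M.Δ ≤ 1 :=
    integralModel_Δ_eq R M ▸ HeightOneSpectrum.valuation_le_one _ _
  have g2 : vv R K M.c₄ ≤ 1 :=
    integralModel_c₄_eq R M ▸ HeightOneSpectrum.valuation_le_one _ _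
  rcases hmin u hlt with k | k
  · exact absurd (f1 ▸ g1) (not_le.2 k)
  · exact absurd (f2 ▸ g2) (not_le.2 k)

open Polynomial in
theorem quad_iff {F : Type*} [Field F] {a b c : F} (h2 : (2 : F) ≠ 0) (ha : a ≠ 0) :
    Splits (C a * X ^ 2 + C b * X - C c) ↔ IsSquare (b ^ 2 + 4 * a * c) := by
  refine ⟨fun h => ?_, fun ⟨s, h⟩ => splits_quad h2 ha (h.trans (sq s).symm)⟩
  obtain ⟨x, hx⟩ := h.exists_eval_eq_zero (by
    rw [sub_eq_add_neg, ← C_neg, degree_quadratic ha]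
    decide)
  simp only [eval_sub, eval_add, eval_mul, eval_pow, eval_C, eval_X] at hx
  exact ⟨2 * a * x + b, by linear_combination -4 * a * hx⟩

theorem split_iff (M : WeierstrassCurve K) [hm : IsMinimal R M] {d : ℤ} {u : K}
    (hu : vv R K u = 1) (h : vv R K 17 < 1) (a1 : vv R K M.Δ < 1) (a2 : vv R K M.c₄ = 1)
    (e2 : M.c₄ = u ^ 4 * (273 * d ^ 2)) (e3 : M.c₆ = u ^ 6 * (4455 * d ^ 3)) :
    M.HasSplitMultiplicativeReduction R ↔ IsSquare (d : IsLocalRing.ResidueField R) := by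
  have c1 := integralModel_c₄_eq R M
  have c2 := integralModel_c₆_eq R M
  refine Iff.trans ⟨fun h => h.splitMultiplicativeReduction, fun h =>
    { toIsMinimal := hm
      badReduction := a1
      multiplicativeReduction := a2
      splitMultiplicativeReduction := h }⟩ ?_
  rw [← c1] at a2
  generalize integralModel R M = I at *
  let φ := algebraMap R (IsLocalRing.ResidueField R)
  have d0 : (17 : IsLocalRing.ResidueField R) = 0 := by
    rw [← map_ofNat φ]
    rw [← map_ofNat (algebraMap R K)] at h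
    exact (IsLocalRing.residue_eq_zero_iff _).2
      ((HeightOneSpectrum.valuation_lt_one_iff_mem _ _).1 h)
  have d1 : φ I.c₄ ≠ 0 := fun h => a2.not_lt ((HeightOneSpectrum.valuation_lt_one_iff_mem _ _).2
    ((IsLocalRing.residue_eq_zero_iff _).1 h))
  obtain ⟨w, rfl⟩ : ∃ w : R, algebraMap R K w = u :=
    IsDiscreteValuationRing.exists_lift_of_le_one hu.le
  have d2 : I.c₄ = w ^ 4 * (273 * d ^ 2) := IsFractionRing.injective R K (by
    rw [c1, e2]; simp only [map_mul, map_pow, map_ofNat, map_intCast])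
  have d3 : I.c₆ = w ^ 6 * (4455 * d ^ 3) := IsFractionRing.injective R K (by
    rw [c2, e3]; simp only [map_mul, map_pow, map_ofNat, map_intCast])
  have d4 : (I.a₁ * I.c₄) ^ 2 + 4 * I.c₄ * (54 * I.b₆ - 3 * I.b₂ * I.b₄ + I.a₂ * I.c₄) =
      -(I.c₄ * I.c₆) := by
    simp only [c₄, c₆, b₂, b₄, b₆]
    ring
  simp only [Polynomial.map_sub, Polynomial.map_add, Polynomial.map_mul, Polynomial.map_pow,
    Polynomial.map_C, Polynomial.map_X]
  rw [quad_iff
    (fun h => one_ne_zero' (IsLocalRing.ResidueField R) (by linear_combination 9 * h - d0)) d1]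
  have d5 := congrArg φ d4
  rw [map_add, map_pow, map_mul φ (4 * _), map_mul φ 4, map_ofNat] at d5
  have d6 : φ (-(I.c₄ * I.c₆)) = (4 * φ w ^ 5 * d ^ 2) ^ 2 * d := by
    rw [d2, d3]
    simp only [map_neg, map_mul, map_pow, map_ofNat, map_intCast]
    linear_combination -71543 * φ w ^ 10 * d ^ 5 * d0
  have d7 : (4 * φ w ^ 5 * d ^ 2 : IsLocalRing.ResidueField R) ≠ 0 := by
    rw [d2] at d1
    simp only [map_mul, map_pow, map_ofNat, map_intCast, mul_ne_zero_iff] at d1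
    exact mul_ne_zero (mul_ne_zero (fun h => one_ne_zero' (IsLocalRing.ResidueField R)
      (by linear_combination d0 - 4 * h)) (pow_ne_zero _ (ne_zero_pow (by norm_num) d1.1))) d1.2.2
  rw [d5, d6]
  generalize (4 * φ w ^ 5 * d ^ 2 : IsLocalRing.ResidueField R) = s at d7
  refine ⟨fun ⟨t, ht⟩ => ⟨t / s, ?_⟩, fun ⟨t, ht⟩ => ⟨s * t, by rw [ht]; ring⟩⟩
  field_simp
  linear_combination ht

end Dvr

variable {K : Type} [Field K] [NumberField K] (v : HeightOneSpectrum (𝓞 K))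

theorem eqv : (vv (v.valuation K).valuationSubring K).IsEquiv (v.valuation K) :=
  Valuation.isEquiv_of_val_le_one fun x => ⟨fun h => by
    obtain ⟨w, rfl⟩ := IsDiscreteValuationRing.exists_lift_of_le_one h
    exact w.2, fun h => HeightOneSpectrum.valuation_le_one (K := K) _
      (⟨x, h⟩ : (v.valuation K).valuationSubring)⟩

theorem val_int (a : ℤ) : v.valuation K a = 1 ↔ (a : 𝓞 K) ∉ v.asIdeal := by
  rw [← map_intCast (algebraMap (𝓞 K) K), HeightOneSpectrum.valuation_eq_one_iff_notMem]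

theorem val_le (a : ℤ) : v.valuation K a ≤ 1 := by
  rw [← map_intCast (algebraMap (𝓞 K) K)]
  exact HeightOneSpectrum.valuation_le_one _ _

variable {v}

omit [NumberField K] in
theorem not_mem {a b : ℤ} (h : IsCoprime a b) (ha : (a : 𝓞 K) ∈ v.asIdeal) :
    (b : 𝓞 K) ∉ v.asIdeal := fun hb => by
  obtain ⟨x, y, e⟩ := h.map (Int.castRingHom (𝓞 K))
  exact v.isPrime.ne_top ((Ideal.eq_top_iff_one _).2
    (e ▸ add_mem (v.asIdeal.mul_mem_left _ ha) (v.asIdeal.mul_mem_left _ hb)))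

theorem span_ne {p : ℕ} (hp : p.Prime) : Ideal.span {(p : 𝓞 K)} ≠ ⊥ := by
  rw [Ne, Ideal.span_singleton_eq_bot, Nat.cast_eq_zero]
  exact hp.ne_zero

theorem eq_span {p : ℕ} (hp : p.Prime) (h : (Ideal.span {(p : 𝓞 K)}).IsPrime)
    (hv : (p : 𝓞 K) ∈ v.asIdeal) : v.asIdeal = Ideal.span {(p : 𝓞 K)} :=
  ((h.isMaximal (span_ne hp)).eq_of_le v.isPrime.ne_top
    ((Ideal.span_singleton_le_iff_mem _).2 hv)).symm

omit [NumberField K] in
theorem ex_prime {d : ℤ} (hs : Squarefree d) (h : (d : 𝓞 K) ∈ v.asIdeal) :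
    ∃ p ∈ d.natAbs.primeFactors, (p : 𝓞 K) ∈ v.asIdeal := by
  have := v.isPrime
  rw [← Ideal.IsPrime.prod_mem_iff, ← Nat.cast_prod,
    Nat.prod_primeFactors_of_squarefree (Int.squarefree_natAbs.2 hs), ← Int.cast_natCast]
  obtain ⟨c, hc⟩ : d ∣ (d.natAbs : ℤ) := Int.dvd_natAbs.2 dvd_rfl
  rw [hc, Int.cast_mul]
  exact v.asIdeal.mul_mem_right _ h

theorem cop {d : ℤ} (ha : Adm d) {k : ℤ} (hk : k ∣ 51) : IsCoprime d k :=
  (Int.isCoprime_iff_gcd_eq_one.2 ha.2.2 : IsCoprime d 51).of_isCoprime_of_dvd_right hk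

theorem val_d {d : ℤ} (ha : Adm d) (hi : Inert K (17 * d)) (h : (d : 𝓞 K) ∈ v.asIdeal) :
    v.valuation K d = exp (-1 : ℤ) ∧ v.valuation K 17 = 1 := by
  obtain ⟨p, hp, hv⟩ := ex_prime ha.1 h
  have h1 := Nat.prime_of_mem_primeFactors hp
  obtain ⟨m, hm⟩ : (p : ℤ) ∣ d := Int.natCast_dvd.2 (Nat.dvd_of_mem_primeFactors hp)
  have h2 := eq_span h1 (hi p h1 (hm ▸ (dvd_mul_right _ _).mul_left _)) hv
  have h3 : IsCoprime (p : ℤ) m := (Nat.prime_iff_prime_int.1 h1).coprime_iff_not_dvd.2 fun e =>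
    (Nat.prime_iff_prime_int.1 h1).not_isUnit (ha.1 p (hm ▸ mul_dvd_mul_left _ e))
  refine ⟨?_, by exact_mod_cast (val_int v 17).2 (not_mem (cop ha (by norm_num)) h)⟩
  rw [hm, Int.cast_mul, map_mul, (val_int v m).2 (not_mem h3 (by exact_mod_cast hv)), mul_one,
    Int.cast_natCast, ← map_natCast (algebraMap (𝓞 K) K)]
  exact (v.valuation_of_algebraMap _).trans
    (v.intValuation_singleton (Nat.cast_ne_zero.2 h1.ne_zero) h2)

theorem mdl_eq {d : ℤ} (ha : Adm d) (hi : Inert K (17 * d)) (v : HeightOneSpectrum (𝓞 K)) :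
    ∃ u : K, v.valuation K u = 1 ∧ (mdl (Ed d K) v).Δ = u ^ 12 * (289 * d ^ 6) ∧
      (mdl (Ed d K) v).c₄ = u ^ 4 * (273 * d ^ 2) ∧
      (mdl (Ed d K) v).c₆ = u ^ 6 * (4455 * d ^ 3) := by
  obtain ⟨u, hu, h⟩ := model (v.valuation K).valuationSubring K ha.2.1 fun u hu => by
    by_cases hd : (d : 𝓞 K) ∈ v.asIdeal
    · obtain ⟨h1, h2⟩ := val_d ha hi hd
      rw [(eqv v).one_lt_iff_one_lt] at hu
      left
      rw [(eqv v).one_lt_iff_one_lt, show (289 : K) = 17 ^ 2 by norm_num]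
      simp only [map_mul, map_pow, h1, h2, one_pow, one_mul]
      have h0 : v.valuation K u ≠ 0 := (zero_lt_one.trans hu).ne'
      rw [← exp_log h0, ← exp_zero, exp_lt_exp] at hu
      rw [← exp_log h0, ← exp_nsmul, ← exp_nsmul, ← exp_add, ← exp_zero, exp_lt_exp]
      simp only [nsmul_eq_mul]
      omega
    · have h1 := (eqv v).eq_one_iff_eq_one.2 ((val_int v d).2 hd)
      refine (one_of (v.valuation K).valuationSubring K).imp (fun k => ?_) fun k => ?_ <;>
        simp only [map_mul, map_pow, h1, k, one_pow, mul_one] <;>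
        exact one_lt_pow₀ hu (by norm_num)
  exact ⟨u, (eqv v).eq_one_iff_eq_one.1 hu, h⟩

theorem sq_iff (hn : Odd (Module.finrank ℚ K)) {p : ℕ} [Fact p.Prime]
    (hv : v.asIdeal = Ideal.span {(p : 𝓞 K)}) (a : ℤ) :
    IsSquare (a : 𝓞 K ⧸ v.asIdeal) ↔ IsSquare (a : ZMod p) := by
  constructor
  · rintro ⟨x, hx⟩
    obtain ⟨x, rfl⟩ := Ideal.Quotient.mk_surjective x
    rw [← map_mul, ← map_intCast (Ideal.Quotient.mk v.asIdeal), Ideal.Quotient.eq, hv,
      Ideal.mem_span_singleton'] at hx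
    obtain ⟨y, hy⟩ := hx
    let b := RingOfIntegers.basis K
    let f := (Int.castRingHom (ZMod p)).mapMatrix.comp (Algebra.leftMulMatrix b).toRingHom
    have e1 : f p = 0 := by
      rw [map_natCast, ← map_natCast (algebraMap (ZMod p) _), ZMod.natCast_self, map_zero]
    have e2 : (f x).det * (f x).det = (a : ZMod p) ^ Module.finrank ℚ K := by
      rw [← Matrix.det_mul, ← map_mul, show x * x = a - y * p by linear_combination hy, map_sub,
        map_mul, e1, mul_zero, sub_zero, map_intCast, ← Matrix.diagonal_intCast,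
        Matrix.det_diagonal, Finset.prod_const, Finset.card_univ,
        ← Module.finrank_eq_card_basis b, RingOfIntegers.rank]
    obtain ⟨k, hk⟩ := hn
    by_cases h0 : (a : ZMod p) = 0
    · rw [h0]
      exact IsSquare.zero
    · refine ⟨(f x).det / a ^ k, ?_⟩
      rw [div_mul_div_comm, e2, hk, eq_div_iff (mul_ne_zero (pow_ne_zero _ h0) (pow_ne_zero _ h0))]
      ring
  · rintro ⟨x, hx⟩
    obtain ⟨x, rfl⟩ := ZMod.intCast_surjective x
    rw [← Int.cast_mul, eq_comm, ZMod.intCast_eq_intCast_iff_dvd_sub] at hx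
    obtain ⟨c, hc⟩ := hx
    have e : (p : 𝓞 K ⧸ v.asIdeal) = 0 := by
      rw [← map_natCast (Ideal.Quotient.mk v.asIdeal), Ideal.Quotient.eq_zero_iff_mem, hv]
      exact Ideal.mem_span_singleton_self _
    refine ⟨x, ?_⟩
    rw [show a = x * x + p * c by linear_combination hc]
    push_cast
    rw [e, zero_mul, add_zero]

theorem res_iff (a : ℤ) : IsSquare (a : IsLocalRing.ResidueField (v.valuation K).valuationSubring) ↔
    IsSquare (a : 𝓞 K ⧸ v.asIdeal) := by
  let ι : 𝓞 K →+* (v.valuation K).valuationSubring :=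
    (algebraMap (𝓞 K) K).codRestrict _ fun x => v.valuation_le_one (K := K) x
  let φ := (IsLocalRing.residue _).comp ι
  have h1 : ∀ x, φ x = 0 ↔ x ∈ v.asIdeal := fun x =>
    (IsLocalRing.residue_eq_zero_iff _).trans
      ((Valuation.mem_maximalIdeal_iff _ _).trans (v.valuation_lt_one_iff_mem (K := K) x))
  have h2 : Function.Surjective φ := fun z => by
    obtain ⟨z, rfl⟩ := IsLocalRing.residue_surjective z
    obtain ⟨x, hx⟩ := v.exists_valuation_sub_lt_of_integer z.2 1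
    refine ⟨x, sub_eq_zero.1 ?_⟩
    change IsLocalRing.residue _ (ι x) - IsLocalRing.residue _ z = 0
    rw [← map_sub, IsLocalRing.residue_eq_zero_iff]
    exact (Valuation.mem_maximalIdeal_iff _ _).2 hx
  constructor
  · rintro ⟨z, hz⟩
    obtain ⟨x, rfl⟩ := h2 z
    refine ⟨Ideal.Quotient.mk _ x, ?_⟩
    rw [← map_mul, ← map_intCast (Ideal.Quotient.mk v.asIdeal), Ideal.Quotient.eq, ← h1, map_sub,
      map_mul, map_intCast, hz, sub_self]
  · rintro ⟨x, hx⟩
    obtain ⟨x, rfl⟩ := Ideal.Quotient.mk_surjective x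
    rw [← map_mul, ← map_intCast (Ideal.Quotient.mk v.asIdeal), Ideal.Quotient.eq, ← h1, map_sub,
      map_mul, map_intCast] at hx
    exact ⟨φ x, sub_eq_zero.1 hx⟩

theorem good {d : ℤ} (ha : Adm d) (hi : Inert K (17 * d)) (h1 : (17 : 𝓞 K) ∉ v.asIdeal)
    (h2 : (d : 𝓞 K) ∉ v.asIdeal) :
    ¬ vv (v.valuation K).valuationSubring K (mdl (Ed d K) v).Δ < 1 := by
  obtain ⟨u, hu, e, -⟩ := mdl_eq ha hi v
  have h3 : v.valuation K 17 = 1 := by exact_mod_cast (val_int v 17).2 (by exact_mod_cast h1)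
  rw [(eqv v).lt_one_iff_lt_one, e, show (289 : K) = 17 ^ 2 by norm_num]
  simp [hu, h3, (val_int v d).2 h2]

theorem root_add {d : ℤ} (hn : Odd (Module.finrank ℚ K)) (ha : Adm d) (hi : Inert K (17 * d))
    {p : ℕ} (hp : p ∈ d.natAbs.primeFactors) (hv : (p : 𝓞 K) ∈ v.asIdeal) :
    locRoot (Ed d K) v = ZMod.χ₄ p := by
  have h1 := Nat.prime_of_mem_primeFactors hp
  have := Fact.mk h1
  obtain ⟨m, hm⟩ : (p : ℤ) ∣ d := Int.natCast_dvd.2 (Nat.dvd_of_mem_primeFactors hp)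
  have hd : (d : 𝓞 K) ∈ v.asIdeal := by
    rw [hm, Int.cast_mul, Int.cast_natCast]
    exact v.asIdeal.mul_mem_right _ hv
  have h2 := eq_span h1 (hi p h1 (hm ▸ (dvd_mul_right _ _).mul_left _)) hv
  obtain ⟨b1, b2⟩ := val_d ha hi hd
  obtain ⟨u, hu, e1, e2, -⟩ := mdl_eq ha hi v
  have a1 : v.valuation K (mdl (Ed d K) v).Δ = exp (-6 : ℤ) := by
    rw [e1, show (289 : K) = 17 ^ 2 by norm_num]
    simp only [map_mul, map_pow, hu, b1, b2, one_pow, one_mul]
    rfl
  have a2 : v.valuation K (mdl (Ed d K) v).c₄ ≤ exp (-2 : ℤ) := by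
    rw [e2]
    simp only [map_mul, map_pow, hu, b1, one_pow, one_mul]
    exact mul_le_of_le_one_left' (by exact_mod_cast val_le v 273)
  have a3 : (mdl (Ed d K) v).HasAdditiveReduction (v.valuation K).valuationSubring :=
    { toIsMinimal := inferInstanceAs (IsMinimal _ (minimal _ _))
      badReduction := (eqv v).lt_one_iff_lt_one.2 (a1.trans_lt (by decide))
      additiveReduction := (eqv v).lt_one_iff_lt_one.2 (a2.trans_lt (by decide)) }
  have a4 : ¬ exp (-6 : ℤ) < v.valuation K (mdl (Ed d K) v).c₄ ^ 3 :=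
    not_lt.2 (pow_le_pow_left₀ zero_le a2 3)
  have a5 : p % 2 = 1 := by
    have := ha.2.1
    rcases h1.eq_two_or_odd with rfl | h
    · omega
    · exact h
  rw [locRoot, if_neg fun h => a3.not_hasMultiplicativeReduction _ h.toHasMultiplicativeReduction,
    if_neg (not_not.2 a3), a1, if_neg a4, log_exp, if_neg (by decide), if_neg (by decide), chi,
    sq_iff hn h2, Int.cast_neg, Int.cast_one, ZMod.exists_sq_eq_neg_one_iff]
  split_ifs with h
  · exact (ZMod.χ₄_nat_one_mod_four (by omega)).symm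
  · exact (ZMod.χ₄_nat_three_mod_four (by omega)).symm

theorem mult {d : ℤ} (ha : Adm d) (hi : Inert K (17 * d)) (hv : (17 : 𝓞 K) ∈ v.asIdeal) :
    vv (v.valuation K).valuationSubring K (mdl (Ed d K) v).c₄ = 1 := by
  obtain ⟨u, hu, -, e2, -⟩ := mdl_eq ha hi v
  have hv' : ((17 : ℤ) : 𝓞 K) ∈ v.asIdeal := by exact_mod_cast hv
  have h1 : v.valuation K 273 = 1 := by
    exact_mod_cast (val_int v 273).2 (not_mem (Int.isCoprime_iff_gcd_eq_one.2 rfl) hv')
  rw [(eqv v).eq_one_iff_eq_one, e2]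
  simp [hu, h1, (val_int v d).2 (not_mem (cop ha (by norm_num)).symm hv')]

theorem root_mul {d : ℤ} (hn : Odd (Module.finrank ℚ K)) (ha : Adm d) (hi : Inert K (17 * d))
    (hv : (17 : 𝓞 K) ∈ v.asIdeal) : locRoot (Ed d K) v = -jacobiSym d 17 := by
  have hp : Nat.Prime 17 := by norm_num
  have := Fact.mk hp
  have h2 := eq_span hp (hi 17 hp (dvd_mul_right _ _)) hv
  have a2 := mult ha hi hv
  obtain ⟨u, hu, e1, e2, e3⟩ := mdl_eq ha hi v
  have h3 : v.valuation K 17 < 1 := (v.valuation_lt_one_iff_mem (K := K) 17).2 hv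
  have a1 : v.valuation K (mdl (Ed d K) v).Δ < 1 := by
    rw [e1, show (289 : K) = 17 ^ 2 by norm_num]
    simp only [map_mul, map_pow, hu, one_pow, one_mul]
    exact mul_lt_one_of_lt_of_le (pow_lt_one₀ zero_le h3 two_ne_zero) (pow_le_one' (val_le v d) _)
  have h4 := split_iff (v.valuation K).valuationSubring K (mdl (Ed d K) v)
    (hm := inferInstanceAs (IsMinimal _ (minimal _ _))) ((eqv v).eq_one_iff_eq_one.2 hu)
    ((eqv v).lt_one_iff_lt_one.2 h3) ((eqv v).lt_one_iff_lt_one.2 a1) a2 e2 e3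
  have h5 : (d : ZMod 17) ≠ 0 := fun h => absurd ((cop ha (by norm_num : (17 : ℤ) ∣ 51)).isUnit_of_dvd'
    ((ZMod.intCast_zmod_eq_zero_iff_dvd d 17).1 h) dvd_rfl) (by decide)
  rw [res_iff, sq_iff hn h2] at h4
  rw [locRoot, ← jacobiSym.legendreSym.to_jacobiSym]
  by_cases h : IsSquare (d : ZMod 17)
  · rw [if_pos (h4.2 h), (legendreSym.eq_one_iff 17 h5).2 h]
  · rw [if_neg (h4.not.2 h), if_pos fun h' => h'.additiveReduction.ne a2,
      (legendreSym.eq_neg_one_iff 17).2 h, neg_neg]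

end Rt

open Rt in
theorem rootS : RootSt := by
  intro K _ _ d hn ha hi
  refine ⟨fun v h6 h => ?_, ?_⟩
  · by_cases h1 : (17 : 𝓞 K) ∈ v.asIdeal
    · exact h.additiveReduction.ne (mult ha hi h1)
    · refine good ha hi h1 (not_mem (a := 6) ?_ (by exact_mod_cast h6)) h.badReduction
      have := ha.2.1
      exact ((cop ha (by norm_num : (3 : ℤ) ∣ 51)).mul_right
        (Int.isCoprime_two_right.2 (Int.odd_iff.2 (by omega)))).symm
  congr 1
  let S := insert 17 d.natAbs.primeFactors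
  have hS : ∀ p ∈ S, p.Prime ∧ (p : ℤ) ∣ 17 * d := fun p hp => by
    rcases Finset.mem_insert.1 hp with rfl | hp
    · exact ⟨by norm_num, dvd_mul_right _ _⟩
    · exact ⟨Nat.prime_of_mem_primeFactors hp,
        (Int.natCast_dvd.2 (Nat.dvd_of_mem_primeFactors hp)).mul_left _⟩
  let ι : S → HeightOneSpectrum (𝓞 K) := fun p =>
    ⟨Ideal.span {((p.1 : ℕ) : 𝓞 K)}, hi p (hS p p.2).1 (hS p p.2).2, span_ne (hS p p.2).1⟩
  have hm : ∀ p : S, ((p.1 : ℕ) : 𝓞 K) ∈ (ι p).asIdeal := fun p => Ideal.mem_span_singleton_self _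
  have hι : Function.Injective ι := fun p q e => Subtype.ext (by_contra fun h => not_mem
    (Nat.isCoprime_iff_coprime.2 ((Nat.coprime_primes (hS p p.2).1 (hS q q.2).1).2 h))
    (by exact_mod_cast hm p) (by rw [e]; exact_mod_cast hm q))
  have h17 : 17 ∉ d.natAbs.primeFactors := fun h => absurd
    (Nat.dvd_gcd (Nat.dvd_of_mem_primeFactors h) (by norm_num : 17 ∣ 51)) (by rw [ha.2.2]; norm_num)
  let g : ℕ → ℤ := fun q => if q = 17 then -jacobiSym d 17 else ZMod.χ₄ q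
  have e1 : ∀ p : S, locRoot (Ed d K) (ι p) = g p := fun p => by
    simp only [g]
    split_ifs with h
    · exact root_mul hn ha hi (by have := hm p; rwa [h] at this)
    · exact root_add hn ha hi ((Finset.mem_insert.1 p.2).resolve_left h) (hm p)
  have e2 : ∀ (v : HeightOneSpectrum (𝓞 K)) (p : S), ((p.1 : ℕ) : 𝓞 K) ∈ v.asIdeal →
      v ∈ (Finset.univ.image ι : Finset _) := fun v p h => Finset.mem_image.2 ⟨p, Finset.mem_univ _,
    HeightOneSpectrum.ext (eq_span (hS p p.2).1 (ι p).isPrime h).symm⟩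
  rw [finprod_eq_prod_of_mulSupport_subset (s := Finset.univ.image ι) _ fun v hv => ?_,
    Finset.prod_image hι.injOn, Finset.prod_congr rfl fun p _ => e1 p, Finset.prod_coe_sort S g,
    Finset.prod_insert h17, Finset.prod_congr rfl (g := fun q : ℕ => ZMod.χ₄ q)
      fun q hq => if_neg fun h : q = 17 => h17 (h ▸ hq), ← map_prod, ← Nat.cast_prod,
    Nat.prod_primeFactors_of_squarefree (Int.squarefree_natAbs.2 ha.1),
    jacobiSym.at_neg_one (Int.natAbs_odd.2 (Int.odd_iff.2 (by have := ha.2.1; omega)))]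
  · simp [g]
  · by_cases h1 : (17 : 𝓞 K) ∈ v.asIdeal
    · exact e2 v ⟨17, Finset.mem_insert_self _ _⟩ h1
    by_cases h2 : (d : 𝓞 K) ∈ v.asIdeal
    · obtain ⟨p, hp, h⟩ := ex_prime ha.1 h2
      exact e2 v ⟨p, Finset.mem_insert_of_mem hp⟩ h
    · have := good ha hi h1 h2
      exact absurd (by
        rw [locRoot, if_neg fun h => this h.badReduction, if_pos fun h => this h.badReduction]) hv

end Pool.Agent.T17
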