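import Pool.Agent.Lib.MP_02f36d_nt.T17.St
import Pool.Agent.Lib.MP_02f36d_nt.C17.Nt
import Pool.Agent.Lib.MP_02f36d_nt.C17.NoUnr

/-! The fundamental unit is not a descent class. -/

set_option autoImplicit false

open NumberField
open scoped Classical
open Pool.Agent.Lib.MP_d6ddbd_nt.G (Pt act ns_iff)
open Pool.Agent.C17 Pool.Agent.C17.NtAux

noncomputable section

namespace Pool.Agent.T17.BadB

theorem pm {t : ℂ} {d : ℤ} (h : t ^ 2 = d) (σ : ℂ ≃+* ℂ) : σ t = t ∨ σ t = -t :=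
  sq_eq_sq_iff_eq_or_eq_neg.1 (by rw [← map_pow, h, map_intCast])

theorem avg (G : (ℂ ≃+* ℂ) → Prop) (h1 : ∀ σ τ, G σ → G τ → G (σ.trans τ))
    (h2 : ∀ σ, G σ → G σ.symm) {t : ℂ} {d : ℤ} (t0 : t ≠ 0) (ht : t ^ 2 = d) {c : ℂ}
    (hc : ∀ σ, G σ → σ t = t → σ c = c) :
    ∃ A B : ℂ, (∀ σ, G σ → σ A = A) ∧ (∀ σ, G σ → σ B = B) ∧ c = A + B * t := by
  by_cases h : ∃ ρ, G ρ ∧ ρ t = -t
  · obtain ⟨ρ, p1, p2⟩ := h
    have p3 : ρ.symm t = -t := by rw [RingEquiv.symm_apply_eq, map_neg, p2, neg_neg]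
    have k1 : ∀ σ, G σ → σ t = -t → σ c = ρ c ∧ σ (ρ c) = c := fun σ a b =>
      ⟨by simpa [RingEquiv.symm_apply_eq] using hc _ (h1 _ _ a (h2 _ p1)) (by simp [b, p3]),
        hc _ (h1 _ _ p1 a) (by simp [b, p2])⟩
    have k2 : ∀ σ, G σ → σ t = t → σ (ρ c) = ρ c := fun σ a b =>
      (k1 _ (h1 _ _ p1 a) (by simp [b, p2])).1
    refine ⟨(c + ρ c) / 2, (c - ρ c) / (2 * t), fun σ a => ?_, fun σ a => ?_, ?_⟩
    · rw [map_div₀, map_add, map_ofNat]
      rcases pm ht σ with b | b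
      · rw [hc σ a b, k2 σ a b]
      · rw [(k1 σ a b).1, (k1 σ a b).2, add_comm]
    · rw [map_div₀, map_sub, map_mul, map_ofNat]
      rcases pm ht σ with b | b
      · rw [hc σ a b, k2 σ a b, b]
      · rw [(k1 σ a b).1, (k1 σ a b).2, b]
        field_simp
        ring
    · field_simp
      ring
  · exact ⟨c, 0, fun σ a => hc σ a ((pm ht σ).resolve_right fun b => h ⟨σ, a, b⟩),
      fun σ _ => map_zero σ, by ring⟩

variable {L : Type} [Field L] [NumberField L] {e : ZMod 3 → L →+* ℂ} {δ r : ℂ} {d : ℤ}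

theorem mem1 (he : Emb e δ) {c : ℂ} (hc : ∀ σ, Sh e σ 0 → σ c = c) :
    ∃ a b : L, c = e 0 a + e 0 b * δ := by
  obtain ⟨A, B, h1, h2, rfl⟩ := avg (fun σ => ∀ y, σ (e 0 y) = e 0 y)
    (fun σ τ a b y => by rw [RingEquiv.trans_apply, a, b])
    (fun σ a y => by rw [RingEquiv.symm_apply_eq, a]) (t := δ) (c := c)
    (fun k => by simpa [k] using he.im) he.sq fun σ a b => by
      obtain ⟨i, hi⟩ := he.sh σ b
      obtain rfl : 0 = i := by
        simpa using he.inj (RingHom.ext fun x => (a x).symm.trans (hi 0 x) : e 0 = e (0 + i))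
      exact hc σ hi
  obtain ⟨a, rfl⟩ := he.mem A h1
  obtain ⟨b, rfl⟩ := he.mem B h2
  exact ⟨a, b, rfl⟩

theorem mem2 (he : Emb e δ) (r0 : r ≠ 0) (hr : r ^ 2 = d) {c : ℂ}
    (hc : ∀ σ, Sh e σ 0 → σ r = r → σ c = c) : c ∈ Bq (e 0) δ r := by
  obtain ⟨A, B, h1, h2, rfl⟩ := avg (fun σ => Sh e σ 0)
    (fun σ τ a b => by simpa using sh_trans a b) (fun σ a => by simpa using sh_symm a) r0 hr hc
  obtain ⟨a, b, rfl⟩ := mem1 he h1
  obtain ⟨a', b', rfl⟩ := mem1 he h2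
  exact ⟨a, b, a', b', rfl⟩

theorem cls (O : ValuationSubring ℂ) (R : Pt) : ∃ c m : ℂ, tt R * m = c ^ 2 ∧
    O.valuation (m - 1) ≤ O.valuation 4 ∧ ∀ σ, act σ R = R → σ c = c := by
  have h4 : O.valuation 4 ≤ 1 := O.valuation_le_one (4 : O)
  have h16 : O.valuation 16 ≤ O.valuation 4 := by
    rw [show (16 : ℂ) = 4 * 4 by norm_num, map_mul]
    exact mul_le_of_le_one_left' h4
  rcases R with _ | ⟨x, y, h⟩
  · exact ⟨1, 1, by simp [tt], by simp, by simp⟩
  have h1 := (ns_iff x y).1 h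
  have h2 : ∀ σ, act σ (.some x y h) = .some x y h → σ x = x ∧ σ y = y := fun σ k =>
    WeierstrassCurve.Affine.Point.some.inj k
  rw [tt]
  split_ifs with k
  · exact ⟨1 / 4, 17, by norm_num, by norm_num [h16], by simp [map_ofNat]⟩
  by_cases x0 : x = 0
  · obtain rfl : y = 0 := by simpa [x0] using h1
    exact ⟨17 / 4, 1, by norm_num [x0], by simp, by simp [map_ofNat]⟩
  by_cases k1 : O.valuation (x + 15) ≤ O.valuation 4
  · refine ⟨(y - 8 * x) / 4, x, by linear_combination -h1 / 16, ?_, fun σ a => by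
      simp [h2 σ a, map_ofNat]⟩
    rw [show x - 1 = x + 15 - 16 by ring]
    exact O.valuation.map_sub_le k1 h16
  · have s0 : x + 15 ≠ 0 := fun a => k1 (by simp [a])
    refine ⟨(y - 8 * x) / 4 * y / (x * (x + 15)), 1 + 64 / (x + 15) ^ 2, ?_, ?_,
      fun σ a => by
      simp [h2 σ a, map_ofNat]⟩
    · field_simp
      linear_combination 16 * (-(y - 8 * x) ^ 2 - x * (x ^ 2 + 30 * x + 289)) * h1
    · have k2 := (not_le.1 k1).le
      rw [add_sub_cancel_left, map_div₀, div_le_iff₀ (by simpa [pos_iff_ne_zero] using s0),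
        show (64 : ℂ) = 4 * 4 ^ 2 by norm_num, map_mul, map_pow, map_pow]
      gcongr

end Pool.Agent.T17.BadB

namespace Pool.Agent.T17

open BadB

theorem bad : BadSt := by
  rintro h4 hV L _ _ e δ r d u hh he hε hr hd ⟨R, x, h1, h2⟩
  have r0 : r ≠ 0 := fun k => by
    obtain rfl : d = 0 := by exact_mod_cast (hr.symm.trans (by simp [k]) : (d : ℂ) = 0)
    omega
  refine hε.1 (sq_of_unr hh u (fun φ => ?_)
    (hV L (e 0) δ r (discr L) d u he.sq hr he.mod4 hd fun O hO => ?_))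
  · obtain ⟨i, hi⟩ := he.all (Complex.ofRealHom.comp φ)
    have h3 : e (-i) = e i := RingHom.ext fun y => by rw [← he.cj, ← hi]; simp
    have h5 : ∀ i : ZMod 3, -i = i → i = 0 := by decide
    obtain rfl := h5 i (he.inj h3)
    obtain ⟨t, t0, t1, -⟩ := hε.2.1
    rw [← hi] at t1
    rwa [Complex.ofReal_injective t1]
  · obtain ⟨c, m, c1, c2, c3⟩ := cls O R
    have c0 : c ≠ 0 := fun k => by
      have h5 : m = 0 := by simpa [k, h4.1 R] using c1
      have h6 : O.valuation 2 < 1 := O.mem_nonunits_iff.1 hO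
      rw [h5, zero_sub, Valuation.map_neg, map_one, show (4 : ℂ) = 2 ^ 2 by norm_num,
        map_pow] at c2
      exact absurd (pow_lt_one₀ zero_le h6 two_ne_zero) c2.not_gt
    refine ⟨x / c, mem2 he r0 hr fun σ a b => ?_, m, ?_, c2⟩
    · rw [map_div₀, (h1 σ a b).2, c3 σ (h1 σ a b).1]
    · field_simp
      linear_combination m * h2 - e 0 ((u : 𝓞 L) : L) * c1

end Pool.Agent.T17
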