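import Pool.Agent.Lib.MP_02f36d_nt.T17.St
import Pool.Agent.Lib.MP_02f36d_nt.C17.A1

/-! The descent classes on `y ^ 2 = x (x + d) (x - 16 d)`. -/

set_option autoImplicit false

namespace Pool.Agent.T17

open NumberField IsDedekindDomain Pool.Agent.Stark Pool.Agent.C17

namespace Cls

section Loc

variable {k : Type} [Field k] [CharZero k] {w : Valuation k (WithZero (Multiplicative ℤ))} {d : k}

theorem ord_sq_sub (hd : d - 1 = 0 ∨ 2 * ord w 2 ≤ ord w (d - 1)) {z : k} (h : z ^ 2 - d ≠ 0) :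
    Even (ord w (z ^ 2 - d)) ∨ 2 * ord w 2 ≤ ord w (z ^ 2 - d) := by
  by_cases h0 : d - 1 = 0
  · rw [sub_eq_zero.1 h0] at h ⊢
    exact A1.ord_sq_sub h
  refine or_iff_not_imp_right.2 fun h1 => ?_
  obtain ⟨a, b⟩ := ord_add_of_lt (w := w) h h0 (by have := hd.resolve_left h0; omega)
  rw [sub_add_sub_cancel] at a b
  have := A1.ord_sq_sub (w := w) a
  rw [b] at this
  exact this.resolve_right h1

omit [CharZero k] in
theorem ne_of {x y : k} (hy : y ≠ 0) (e : y ^ 2 = x * (x + d) * (x - 16 * d)) :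
    x ≠ 0 ∧ x + d ≠ 0 ∧ x - 16 * d ≠ 0 := by
  have h := pow_ne_zero 2 hy
  rw [e] at h
  exact ⟨left_ne_zero_of_mul (left_ne_zero_of_mul h), right_ne_zero_of_mul (left_ne_zero_of_mul h),
    right_ne_zero_of_mul h⟩

omit [CharZero k] in
theorem ord_eqn {x y : k} (hy : y ≠ 0) (e : y ^ 2 = x * (x + d) * (x - 16 * d)) :
    2 * ord w y = ord w x + ord w (x + d) + ord w (x - 16 * d) := by
  obtain ⟨h0, h1, h2⟩ := ne_of hy e
  rw [← ord_mul h0 h1, ← ord_mul (mul_ne_zero h0 h1) h2, ← e, ord_pow]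
  rfl

theorem even_x (h2 : 0 ≤ ord w 2) (d0 : d ≠ 0) (hd0 : ord w d = 0)
    (hd : d - 1 = 0 ∨ 2 * ord w 2 ≤ ord w (d - 1)) {x y : k} (hy : y ≠ 0)
    (e : y ^ 2 = x * (x + d) * (x - 16 * d)) : Even (ord w x) := by
  obtain ⟨h0, h1, h3⟩ := ne_of hy e
  have h4 := ord_eqn (w := w) hy e
  have m16 : (16 : k) ≠ 0 := by norm_num
  have h16 : ord w (16 * d) = 4 * ord w 2 := by rw [ord_mul m16 d0, A1.ord_16, hd0, add_zero]
  have n16 : -(16 * d) ≠ 0 := neg_ne_zero.2 (mul_ne_zero m16 d0)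
  have a1 : ord w x < 4 * ord w 2 → ord w (x - 16 * d) = ord w x := fun h => by
    rw [sub_eq_add_neg]
    exact (ord_add_of_lt h0 n16 (by rw [ord_neg]; omega)).2
  have a2 : 4 * ord w 2 < ord w x → ord w (x - 16 * d) = 4 * ord w 2 := fun h => by
    rw [sub_eq_neg_add, (ord_add_of_lt n16 h0 (by rw [ord_neg]; omega)).2, ord_neg, h16]
  have a3 : ord w x < 0 → ord w (x + d) = ord w x := fun h =>
    (ord_add_of_lt h0 d0 (by omega)).2
  have a4 : 0 < ord w x → ord w (x + d) = 0 := fun h => by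
    rw [add_comm, (ord_add_of_lt d0 h0 (by omega)).2, hd0]
  rw [Int.even_iff]
  by_contra hodd
  have b1 : 0 < ord w x := by omega
  have b2 : ord w x < 4 * ord w 2 := by omega
  have c0 : -(16 * d) * d / x ≠ 0 := div_ne_zero (mul_ne_zero n16 d0) h0
  have c1 : ord w (-(16 * d) * d / x) = 4 * ord w 2 - ord w x := by
    rw [ord_div (mul_ne_zero n16 d0) h0, ord_mul n16 d0, ord_neg, h16, hd0, add_zero]
  have c2 : (y / x) ^ 2 - d = (x - 16 * d) + -(16 * d) * d / x := by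
    field_simp
    linear_combination e
  have c3 := a1 b2
  rcases lt_or_gt_of_ne (show ord w x ≠ 2 * ord w 2 by omega) with h | h
  · obtain ⟨d1, d2⟩ := ord_add_of_lt (w := w) h3 c0 (by omega)
    have := ord_sq_sub hd (c2 ▸ d1)
    rw [c2, d2, Int.even_iff] at this
    omega
  · obtain ⟨d1, d2⟩ := ord_add_of_lt (w := w) c0 h3 (by omega)
    rw [add_comm] at d1 d2
    have := ord_sq_sub hd (c2 ▸ d1)
    rw [c2, d2, Int.even_iff] at this
    omega

theorem even_x1 (d0 : d ≠ 0) (hd0 : ord w d = 0) (h17 : ord w 17 = 0) {x y : k} (hy : y ≠ 0)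
    (e : y ^ 2 = x * (x + d) * (x - 16 * d)) (h5 : Even (ord w x)) : Even (ord w (x + d)) := by
  obtain ⟨h0, h1, h3⟩ := ne_of hy e
  have h4 := ord_eqn (w := w) hy e
  have n1 : -d ≠ 0 := neg_ne_zero.2 d0
  have m17 : (17 : k) ≠ 0 := by norm_num
  have n17 : -(17 * d) ≠ 0 := neg_ne_zero.2 (mul_ne_zero m17 d0)
  have o17 : ord w (-(17 * d)) = 0 := by rw [ord_neg, ord_mul m17 d0, h17, hd0, add_zero]
  rcases lt_trichotomy (ord w (x + d)) 0 with h | h | h
  · have := (ord_add_of_lt (w := w) h1 n1 (by rw [ord_neg, hd0]; exact h)).2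
    rwa [← this, add_neg_cancel_right]
  · rw [h]
    exact Even.zero
  · have a1 := (ord_add_of_lt (w := w) n1 h1 (by rw [ord_neg, hd0]; exact h)).2
    have a2 := (ord_add_of_lt (w := w) n17 h1 (by rw [o17]; exact h)).2
    rw [show -d + (x + d) = x by ring, ord_neg, hd0] at a1
    rw [show -(17 * d) + (x + d) = x - 16 * d by ring, o17] at a2
    exact ⟨ord w y, by omega⟩

omit [CharZero k] in
theorem s4_x1 (h4 : w 4 ≤ 1) (hd : w d ≤ 1) (hd1 : w (d - 1) ≤ w 4) {x y : k} (hy : y ≠ 0)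
    (e : y ^ 2 = x * (x + d) * (x - 16 * d)) : A1.S4 w (x + d) := by
  obtain ⟨h0, h1, h3⟩ := ne_of hy e
  by_cases h : w x ≤ w 4
  · exact ⟨1, x + d, by ring, by rw [add_sub_assoc]; exact w.map_add_le h hd1⟩
  · rw [not_le] at h
    have h16 : w (16 * d) ≤ w 4 * w 4 := by
      rw [show 16 * d = 4 * 4 * d by ring, map_mul, map_mul]
      exact mul_le_of_le_one_right' hd
    have h5 : w (16 * d) < w x := (h16.trans (mul_le_of_le_one_left' h4)).trans_lt h
    have h6 : w (x - 16 * d) = w x := w.map_sub_eq_of_lt_left h5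
    refine ⟨y / x, x / (x - 16 * d), ?_, ?_⟩
    · rw [div_pow, div_mul_div_comm, eq_div_iff (mul_ne_zero (pow_ne_zero 2 h0) h3)]
      linear_combination -x * e
    · rw [div_sub_one h3, sub_sub_cancel, map_div₀, h6,
        div_le_iff₀ (zero_le.trans_lt h)]
      exact h16.trans (mul_le_mul' le_rfl h.le)

end Loc

variable {L : Type} [Field L] [NumberField L]

theorem og_eq (q : Pr L) {x : 𝓞 L} (h : x ∉ q.asIdeal) : og q (x : L) = 0 :=
  le_antisymm (not_lt.1 fun a => h ((og_pos_iff q fun e : x = 0 => h (e ▸ zero_mem _)).1 a))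
    (og_nonneg q x)

/-- Inert primes correct the parity of the orders. -/
theorem exists_rho (N : ℕ) : N ≠ 0 →
    (∀ p : ℕ, p.Prime → p ∣ N → (Ideal.span {(p : 𝓞 L)}).IsPrime) → ∀ z : L, z ≠ 0 →
    (∀ q : Pr L, (N : 𝓞 L) ∉ q.asIdeal → Even (og q z)) →
    ∃ ρ : ℕ, ρ ∣ N ∧ ∀ q : Pr L, Even (og q (z * ρ)) := by
  induction N using induction_on_primes with
  | zero => exact fun h => absurd rfl h
  | one =>
    exact fun _ _ z _ h => ⟨1, dvd_rfl, fun q => by
      simpa using h q (by simpa using (Ideal.ne_top_iff_one _).1 q.isPrime.ne_top)⟩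
  | prime_mul p N hp ih =>
    intro h0 hI z hz h
    have ih' := ih (right_ne_zero_of_mul h0) fun l a b => hI l a (b.mul_left p)
    have n0 : (p : 𝓞 L) ≠ 0 := Nat.cast_ne_zero.2 hp.ne_zero
    have m0 : (p : L) ≠ 0 := Nat.cast_ne_zero.2 hp.ne_zero
    let P : Pr L := ⟨_, hI p hp (dvd_mul_right p N), by simpa using n0⟩
    have a1 : og P p = 1 := by
      have : P.valuation L p = WithZero.exp (-1 : ℤ) := by
        simpa using (P.valuation_of_algebraMap (K := L) p).trans (P.intValuation_singleton n0 rfl)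
      rw [og, ord, this]
      rfl
    have a2 : ∀ q : Pr L, q ≠ P → (p : 𝓞 L) ∉ q.asIdeal := fun q hq m =>
      hq (HeightOneSpectrum.ext (P.isMaximal.eq_of_le q.isPrime.ne_top
        ((Ideal.span_singleton_le_iff_mem _).2 m)).symm)
    have a3 : ∀ q : Pr L, q ≠ P → (N : 𝓞 L) ∉ q.asIdeal → Even (og q z) := fun q hq m =>
      h q fun c => by
        rw [Nat.cast_mul] at c
        exact (q.isPrime.mem_or_mem c).elim (a2 q hq) m
    by_cases hP : Even (og P z)
    · obtain ⟨ρ, b1, b2⟩ := ih' z hz fun q m => by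
        by_cases hq : q = P
        · rwa [hq]
        · exact a3 q hq m
      exact ⟨ρ, b1.mul_left p, b2⟩
    · obtain ⟨ρ, b1, b2⟩ := ih' (z * p) (mul_ne_zero hz m0) fun q m => by
        rw [SUnitAux.og_mul q hz m0]
        by_cases hq : q = P
        · rw [hq, a1]
          exact Int.even_add_one.2 hP
        · have := og_eq q (a2 q hq)
          rw [show ((p : 𝓞 L) : L) = p by simp] at this
          rw [this, add_zero]
          exact a3 q hq m
      exact ⟨p * ρ, mul_dvd_mul_left p b1, fun q => by simpa [mul_assoc] using b2 q⟩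

theorem unit_rho (hh : Odd (classNumber L)) {D : ℤ} (D0 : D ≠ 0) (hI : Inert L D) {z : L}
    (hz : z ≠ 0) (h : ∀ q : Pr L, (D : 𝓞 L) ∉ q.asIdeal → Even (og q z)) :
    ∃ (u : (𝓞 L)ˣ) (ρ : ℕ) (r : L), (ρ : ℤ) ∣ D ∧ z = ((u : 𝓞 L) : L) * ρ * r ^ 2 := by
  have N0 := Int.natAbs_ne_zero.2 D0
  obtain ⟨ρ, b1, b2⟩ := exists_rho D.natAbs N0 (fun p a b => hI p a (Int.natCast_dvd.2 b)) z hz
    fun q m => h q fun c => m (by
      rw [Nat.cast_natAbs]
      rcases abs_choice D with e | e <;> rw [e]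
      · exact c
      · simpa using c)
  have r0 : (ρ : L) ≠ 0 := Nat.cast_ne_zero.2 (ne_zero_of_dvd_ne_zero N0 b1)
  obtain ⟨u, r, -, e⟩ := unit_of_even hh (mul_ne_zero hz r0) b2
  exact ⟨u, ρ, r / ρ, Int.natCast_dvd.2 b1, by field_simp; linear_combination e⟩

end Cls

open Cls in
theorem cls : ClsSt := by
  intro L _ _ d hh hA hI x y hy e
  obtain ⟨h0, h1, -⟩ := ne_of hy e
  have h4 := hA.2.1
  have d0 : d ≠ 0 := by omega
  have d0' : (d : L) ≠ 0 := Int.cast_ne_zero.2 d0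
  obtain ⟨m, hm⟩ : ∃ m : ℤ, d - 1 = 4 * m := ⟨d / 4, by omega⟩
  have hm' : (d : L) - 1 = 4 * ((m : 𝓞 L) : L) := by
    rw [show ((m : 𝓞 L) : L) = m by simp]
    exact_mod_cast hm
  have a0 : ∀ q : Pr L, (d : L) - 1 = 0 ∨
      2 * ord (q.valuation L) 2 ≤ ord (q.valuation L) ((d : L) - 1) := fun q => by
    refine or_iff_not_imp_left.2 fun h => ?_
    rw [hm'] at h ⊢
    have := og_nonneg q (m : 𝓞 L)
    rw [ord_mul (left_ne_zero_of_mul h) (right_ne_zero_of_mul h), show (4 : L) = 2 ^ 2 by norm_num,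
      ord_pow]
    exact le_add_of_nonneg_right this
  have a1 : ∀ q : Pr L, ((17 * d : ℤ) : 𝓞 L) ∉ q.asIdeal →
      ord (q.valuation L) d = 0 ∧ ord (q.valuation L) 17 = 0 := fun q h => by
    push_cast at h
    have b1 := og_eq q (x := d) fun c => h (q.asIdeal.mul_mem_left _ c)
    rw [show ((d : 𝓞 L) : L) = d by simp] at b1
    exact ⟨b1, og_eq q (x := 17) fun c => h (q.asIdeal.mul_mem_right _ c)⟩
  have a2 : ∀ q : Pr L, ((17 * d : ℤ) : 𝓞 L) ∉ q.asIdeal → Even (og q x) := fun q h =>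
    even_x (A1.og_two q) d0' (a1 q h).1 (a0 q) hy e
  refine ⟨unit_rho hh (by omega) hI h0 a2, unit_rho hh (by omega) hI h1 fun q h =>
    even_x1 d0' (a1 q h).1 (a1 q h).2 hy e (a2 q h), fun q _ =>
    s4_x1 (q.valuation_le_one (K := L) (4 : 𝓞 L)) ?_ ?_ hy e⟩
  · simpa using q.valuation_le_one (K := L) (d : 𝓞 L)
  · rw [hm', map_mul]
    exact mul_le_of_le_one_right' (q.valuation_le_one (K := L) (m : 𝓞 L))

end Pool.Agent.T17
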