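import Pool.Agent.Lib.MP_02f36d_nt.T17.St
import Pool.Agent.Lib.MP_02f36d_nt.C17.Heeg

/-! Heegner points of higher conductor on `X₀(17)` with their cubic and genus characters. -/

set_option autoImplicit false

open NumberField Finset UpperHalfPlane
open scoped Pointwise Classical MatrixGroups
open Pool.Agent.Lib.MP_9177b7_ag.CM
open Pool.Agent.Lib.MP_d6ddbd_nt
open Pool.Agent.Lib.MP_d6ddbd_nt.G (Pt br br_pt act_br_pt)
open Pool.Agent.Lib.MP_d6ddbd_nt.K (Hg G0 phi XX YY)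
open Pool.Agent.Lib.MP_d6ddbd_nt.K.HeegAux (mem_hg Rt)
open Pool.Agent.Lib.MP_d6ddbd_nt.GF (HI jH_sl)
open Pool.Agent.C17 Pool.Agent.C17.Heeg

noncomputable section

namespace Pool.Agent.T17

namespace HeegC

variable {D β n r m : ℤ} {δ u x : ℂ} {c : ℕ} {z : ℍ} {Q : ℤ × ℤ × ℤ} {Λ M N N' : Submodule ℤ ℂ}
  {σ : ℂ ≃+* ℂ}

theorem shift (h : x • Λ ≤ Λ) (k : ℤ) : (x + k) • Λ ≤ Λ := fun y hy => by
  obtain ⟨w, hw, rfl⟩ := mem_smul_iff.1 hy
  rw [add_mul]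
  exact Λ.add_mem (h (mem_smul_iff.2 ⟨w, hw, rfl⟩)) (Lat.int_mul_mem hw k)

theorem om_eq (hm : (c : ℤ) = 2 * m + 1) : om (c * δ) = c * om δ + (-m : ℤ) := by
  have : (c : ℂ) = 2 * m + 1 := by exact_mod_cast hm
  rw [om, om]
  push_cast
  linear_combination -this / 2

theorem om_eq' (hm : (c : ℤ) = 2 * m + 1) : c * om δ = om (c * δ) + m := by
  rw [om_eq hm]
  push_cast
  ring

theorem le_of_smul (hu : u ≠ 0) (h : x • u • Λ ≤ u • Λ) : x • Λ ≤ Λ := by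
  have := smul_le_smul u⁻¹ h
  rwa [smul_comm x, smul_smul u⁻¹, smul_smul u⁻¹, inv_mul_cancel₀ hu, one_smul, one_smul] at this

theorem prim_j (h : Prim δ c Λ) (hM : IsLat M) (e : jL Λ = jL M) : Prim δ c M := by
  obtain ⟨u, hu, rfl⟩ := hyp.eq_smul_of_jL_eq h.1 hM e
  refine ⟨hM, ?_, fun p c' hp hc k => h.2.2 p c' hp hc (le_of_smul hu k)⟩
  rw [smul_comm]
  exact smul_le_smul u h.2.1

theorem cj_le (hc : Conj (σ : ℂ →+* ℂ) Λ M) (hx : σ x = x) (h : x • Λ ≤ Λ) : x • M ≤ M := by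
  by_cases h0 : x = 0
  · intro y hy
    obtain ⟨w, -, rfl⟩ := mem_smul_iff.1 hy
    rw [h0, zero_mul]
    exact M.zero_mem
  · have := hyp.conj_mono (hyp.conj_smul hc h0) hc h
    rwa [RingHom.coe_coe, hx] at this

theorem fix_om (hσ : σ δ = δ) : σ (om δ) = om δ := by
  rw [om, map_div₀, map_add, map_one, hσ, map_ofNat]

theorem prim_cj (hσ : σ δ = δ) (h : Prim δ c Λ) (hM : IsLat M) (e : σ (jL Λ) = jL M) :
    Prim δ c M := by
  obtain ⟨M', hc⟩ := hyp.exists_conj (σ : ℂ →+* ℂ) h.1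
  have hσ' : σ.symm δ = δ := by rw [RingEquiv.symm_apply_eq, hσ]
  refine prim_j ⟨hc.2.1, cj_le hc (by rw [map_mul, map_natCast, fix_om hσ]) h.2.1,
    fun p c' hp hc' k => h.2.2 p c' hp hc'
      (cj_le hc.symm (by rw [map_mul, map_natCast, fix_om hσ']) k)⟩ hM (hc.jL.symm.trans e)

theorem stb_ord (hδ : δ ^ 2 = D) (hn : 4 * n = 1 - D) (hc : c ≠ 0) (h : Prim δ c Λ) :
    Stb δ (sp 1 (om δ) * Λ) := by
  have hc' : (c : ℂ) ≠ 0 := by exact_mod_cast hc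
  refine ⟨hyp.isLat_between h.1 (hyp.isLat_smul h.1 (inv_ne_zero hc')) ?_ ?_,
    ord_mul_eq_iff.1 (by rw [← mul_assoc, ord_mul_ord (om_sq hδ hn)])⟩
  · rw [sp_mul, one_smul]
    exact le_sup_left
  · rw [sp_mul, one_smul, sup_le_iff]
    constructor
    · intro y hy
      exact mem_smul_iff.2 ⟨((c : ℤ) : ℂ) * y, Lat.int_mul_mem hy c, by push_cast; field_simp⟩
    · have := smul_le_smul (c : ℂ)⁻¹ h.2.1
      rwa [smul_smul, inv_mul_cancel_left₀ hc'] at this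

theorem ord_cj (him : 0 < δ.im) (hσ : σ δ = δ) (hΛ : IsLat Λ) (hO : IsLat (sp 1 (om δ) * Λ))
    (hM : IsLat M) (e : σ (jL Λ) = jL M) :
    σ (jL (sp 1 (om δ) * Λ)) = jL (sp 1 (om δ) * M) := by
  obtain ⟨M', hc⟩ := hyp.exists_conj (σ : ℂ →+* ℂ) hΛ
  obtain ⟨u, hu, rfl⟩ := hyp.eq_smul_of_jL_eq hc.2.1 hM (hc.jL.symm.trans e)
  obtain ⟨N, hN⟩ := hyp.exists_conj (σ : ℂ →+* ℂ) hO
  have h0 : om δ ≠ 0 := fun k => by simpa [k] using om_im him
  have h1 := hN.jL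
  rw [sp_mul, one_smul] at hN
  have h2 := hyp.conj_sup hc (hyp.conj_smul hc h0) hN
  rw [RingHom.coe_coe, fix_om hσ] at h2
  rw [smul_mul_right, hyp.jL_smul _ hu, sp_mul 1 _ M', one_smul, ← h2]
  exact h1

theorem ndvd (hδ : δ ^ 2 = D) (him : 0 < δ.im) (hD : D % 4 = 1) {D' : ℤ} (hD' : D' = c ^ 2 * D)
    (h : Q ∈ Hg D' β z) (hP : Prim δ c (sp z 1)) {p : ℕ} (hp : p.Prime) (hc : p ∣ c)
    (hA : (p : ℤ) ∣ 17 * Q.1) : ¬ (p : ℤ) ∣ Q.2.2 := by
  rintro ⟨C, hC⟩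
  obtain ⟨c', rfl⟩ := hc
  obtain ⟨A, hA⟩ := hA
  have hp0 : (p : ℤ) ≠ 0 := by exact_mod_cast hp.ne_zero
  have hpc : (p : ℂ) ≠ 0 := by exact_mod_cast hp.ne_zero
  have hc0 : p * c' ≠ 0 := fun k => hP.2.2 2 0 Nat.prime_two (by rw [k]) (by
    have := hP.2.1
    rwa [k] at this)
  have e := del_eq (δ := (p * c' : ℕ) * δ) (by rw [mul_pow, hδ, hD']; push_cast; ring)
    (by simpa using mul_pos (by exact_mod_cast Nat.pos_of_ne_zero hc0) him) h
  obtain ⟨-, h2, -, h4⟩ := h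
  have h5 : Q.2.1 ^ 2 = p * (p * (c' ^ 2 * D + 4 * A * C)) := by
    rw [hD'] at h2
    push_cast at h2
    linear_combination h2 + 4 * Q.2.2 * hA + 4 * p * A * hC
  obtain ⟨B, hB⟩ : (p : ℤ) ∣ Q.2.1 := Int.Prime.dvd_pow' hp (k := 2) ⟨_, h5⟩
  have h6 : B ^ 2 = c' ^ 2 * D + 4 * A * C :=
    mul_left_cancel₀ (mul_ne_zero hp0 hp0) (by rw [hB] at h5; linear_combination h5)
  obtain ⟨k, hk⟩ : Even (B - c') := by
    have : Even (B ^ 2 - c' ^ 2) := ⟨2 * (c' ^ 2 * (D / 4) + A * C), by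
      linear_combination h6 + c' ^ 2 * hD - c' ^ 2 * Int.emod_add_mul_ediv D 4⟩
    rwa [Int.even_sub, Int.even_pow' two_ne_zero, Int.even_pow' two_ne_zero, ← Int.even_sub] at this
  have a1 : 17 * (Q.1 : ℂ) = p * A := by exact_mod_cast hA
  have a2 : (Q.2.1 : ℂ) = p * B := by exact_mod_cast hB
  have a3 : (Q.2.2 : ℂ) = p * C := by exact_mod_cast hC
  have a4 : (B : ℂ) - c' = k + k := by exact_mod_cast hk
  have a5 : (A : ℂ) * z ^ 2 + B * z + C = 0 :=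
    mul_left_cancel₀ hpc (by linear_combination h4 - z ^ 2 * a1 - z * a2 - a3)
  have a6 : 2 * (A : ℂ) * z + B = c' * δ :=
    mul_left_cancel₀ hpc (by push_cast at e; linear_combination e - 2 * z * a1 - a2)
  refine hP.2.2 p c' hp rfl ?_
  rw [smul_sp, sp_le, om]
  exact ⟨mem_sp.2 ⟨-k, -C, by
      push_cast; linear_combination -a5 + (z : ℂ) / 2 * a6 + (z : ℂ) / 2 * a4⟩,
    mem_sp.2 ⟨A, B - k, by push_cast; linear_combination a6 / 2 + a4 / 2⟩⟩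

theorem nsq' (hc : c ≠ 0) (h : ¬ IsSquare D) : ¬ IsSquare (c ^ 2 * D) := by
  rintro ⟨k, hk⟩
  obtain ⟨l, rfl⟩ : (c : ℤ) ∣ k :=
    (Int.pow_dvd_pow_iff two_ne_zero).1 ⟨D, by linear_combination -hk⟩
  have : (c : ℤ) ^ 2 ≠ 0 := by positivity
  exact h ⟨l, mul_left_cancel₀ this (by linear_combination hk)⟩

theorem gal' (hδ : δ ^ 2 = D) (him : 0 < δ.im) (hD : D < 0) (n1 : ¬ IsSquare (-D))
    (n3 : ¬ IsSquare (-3 * D)) (hσ : σ δ = δ) (i : HI D β) : ∃ i' : HI D β,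
      G.act σ (br (phi i.1.out)) = br (phi i'.1.out) ∧ σ (jH i.1.out) = jH i'.1.out := by
  obtain ⟨w, hc⟩ := GF.exists_cj σ i.1.out
  obtain ⟨j0, j1⟩ := K.dv_j 1 hD β n1 n3 i.2
  obtain ⟨e1, e2⟩ := X.equivS σ _ w j0 j1 hc
  have h1 := GF.cj_hg i.mem hc (Or.inl rfl) (by rw [del_eq hδ him i.mem, hσ]; simp)
  rw [one_mul] at h1
  obtain ⟨i', γ, h3, h4⟩ := HI.lift h1
  refine ⟨i', ?_, ?_⟩
  · rw [h4, K.phi_inv h3, phi, phi, act_br_pt σ (X.curS.1 _), e1, e2]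
  · obtain ⟨c, c0, c1, -⟩ := hc
    have := c1.jL
    rw [hyp.jL_smul _ c0, hyp.jL_sp, hyp.jL_sp] at this
    rw [h4, jH_sl]
    exact this

theorem reps_mul' (hm : (c : ℤ) = 2 * m + 1) {I : Type} [Finite I] {a b : I → ℍ}
    (h : RepsC δ c a) (hu : u ≠ 0) (e : N * N' = u • sp 1 (om (c * δ)))
    (hw : ∀ i, sp (b i) 1 = N * sp (a i) 1) : RepsC δ c b := by
  have k : ∀ i, N' * (N * sp (a i) 1) = u • sp (a i) 1 := fun i => by
    rw [← mul_assoc, mul_comm N', e, smul_mul_left,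
      ord_mul_eq_iff.2 (by rw [om_eq hm]; exact shift (h.1 i).2.1 _)]
  have h1 : ∀ i, Prim δ c (sp (b i) 1) := fun i => by
    refine ⟨hyp.isLat_sp _, ?_, fun p c' hp hc h2 => (h.1 i).2.2 p c' hp hc (le_of_smul hu ?_)⟩
    · rw [hw, ← smul_mul_right]
      exact mul_le_mul_right (h.1 i).2.1 _
    · rw [← k, ← smul_mul_right, ← hw]
      exact mul_le_mul_right h2 _
  have h2 : Function.Injective fun i => jH (b i) := fun i i' e' => h.2.1 (by
    obtain ⟨v, hv, e2⟩ := hyp.eq_smul_of_jL_eq (hyp.isLat_sp (b i)) (hyp.isLat_sp (b i'))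
      (by rw [hyp.jL_sp, hyp.jL_sp]; exact e')
    have e3 := congrArg (fun Y => jL (N' * Y)) e2
    simp only [hw, smul_mul_right, k, hyp.jL_smul _ hu, hyp.jL_smul _ hv, hyp.jL_sp] at e3
    exact e3.symm)
  choose f hf using fun i => h.2.2 _ (h1 i)
  have h3 : Function.Injective f := fun i i' e' => h2 (by
    change jH _ = jH _
    rw [← hyp.jL_sp, ← hyp.jL_sp, ← hf, ← hf, e'])
  refine ⟨h1, h2, fun Λ hΛ => ?_⟩
  obtain ⟨i, hi⟩ := h.2.2 Λ hΛ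
  obtain ⟨i', rfl⟩ := h3.bijective_of_finite.2 i
  exact ⟨i', by rw [← hi, hf, hyp.jL_sp]⟩

theorem ord_mul (hN : om δ • sp (17 : ℕ) (om δ - r) ≤ sp (17 : ℕ) (om δ - r))
    (hc : ¬ (17 : ℤ) ∣ c) :
    sp 1 (om δ) * sp (17 : ℕ) (c * (om δ - r)) = sp (17 : ℕ) (om δ - r) := by
  have h0 : ∀ y ∈ sp (17 : ℕ) (c * (om δ - r)), y ∈ sp 1 (om δ) * sp (17 : ℕ) (c * (om δ - r)) :=
    fun y hy => by simpa using Submodule.mul_mem_mul (left_mem_sp 1 (om δ)) hy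
  apply le_antisymm
  · rw [← ord_mul_eq_iff.2 hN]
    exact mul_le_mul_right (sp_le.2 ⟨left_mem_sp _ _, mem_sp.2 ⟨0, c, by simp⟩⟩) _
  · refine sp_le.2 ⟨h0 _ (left_mem_sp _ _), Lat.mem_of_coprime (l := 17) (by norm_num) hc ?_
      (h0 _ (right_mem_sp _ _))⟩
    rw [mul_comm ((17 : ℕ) : ℂ)]
    exact Submodule.mul_mem_mul (mem_sp.2 ⟨-r, 1, by push_cast; ring⟩) (left_mem_sp _ _)

theorem root {d : ℤ} (hs : Squarefree d) (h4 : d % 4 = 1) :
    (∏ p ∈ d.natAbs.primeFactors, G.sq p) ^ 2 = d := by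
  have h1 := Nat.prod_primeFactors_of_squarefree (Int.squarefree_natAbs.2 hs)
  have h2 := G.FinalAux.dsc_cases (S := d.natAbs.primeFactors) fun p hp => by
    obtain ⟨k, hk⟩ := Nat.dvd_of_mem_primeFactors hp
    have : Odd (p * k) := hk ▸ Nat.odd_iff.2 (by omega)
    exact Nat.odd_iff.1 (Nat.odd_mul.1 this).1
  rw [h1] at h2
  rw [G.SelAux.rt_sq G.field]
  congr 1
  omega

end HeegC

open HeegC

theorem heegC : HeegCSt := by
  intro L _ _ e δ χ d n hs he hχ ⟨s, s0, hcm⟩ ⟨d1, d2, d3⟩ hlim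
  refine ⟨_, root d1 d2, ?_⟩
  obtain ⟨m, hm⟩ : ∃ m : ℤ, (d.natAbs : ℤ) = 2 * m + 1 := ⟨d.natAbs / 2, by omega⟩
  generalize d.natAbs = c at hm d3 hlim ⊢
  have hc : c ≠ 0 := by omega
  have c17 : ¬ (17 : ℤ) ∣ c := fun h => by
    have := Nat.dvd_gcd (Int.natCast_dvd_natCast.1 h : 17 ∣ c) (by norm_num : 17 ∣ 51)
    rw [d3] at this
    omega
  obtain ⟨r, r1, r2, r3⟩ := hχ.sev
  have hδ := he.sq
  have him := he.im
  have h4 := he.mod4
  have hbig := he.big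
  have hn : 4 * ((1 - discr L) / 4) = 1 - discr L := by omega
  have p17 : Prime (17 : ℤ) := Nat.prime_iff_prime_int.1 (by norm_num : Nat.Prime 17)
  obtain ⟨D', hD'⟩ : ∃ D' : ℤ, D' = c ^ 2 * discr L := ⟨_, rfl⟩
  obtain ⟨r', hr'⟩ : ∃ r' : ℤ, r' = c * r - m := ⟨_, rfl⟩
  have hβ' : 1 - 2 * r' = c * (1 - 2 * r) := by rw [hr']; linear_combination -hm
  have hδ' : ((c : ℂ) * δ) ^ 2 = D' := by rw [mul_pow, hδ, hD']; push_cast; ring
  have him' : 0 < ((c : ℂ) * δ).im := by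
    simpa using mul_pos (by exact_mod_cast Nat.pos_of_ne_zero hc) him
  have hn' : 4 * (c ^ 2 * ((1 - discr L) / 4) - m * (m + 1)) = 1 - D' := by
    rw [hD']
    linear_combination c ^ 2 * hn + (c + 2 * m + 1) * hm
  have h17 : ¬ (17 : ℤ) ∣ 1 - 2 * r' := fun h =>
    (p17.dvd_or_dvd (hβ' ▸ h)).elim c17 fun h => r2 (by omega)
  have hβ : (68 : ℤ) ∣ D' - (1 - 2 * r') ^ 2 := by
    obtain ⟨k, hk⟩ := r1
    exact ⟨-k * c ^ 2, by rw [hβ', hD']; linear_combination c ^ 2 * (hn - 4 * hk)⟩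
  have hneg : D' < 0 := by
    rw [hD']
    exact mul_neg_of_pos_of_neg (by positivity) (by omega)
  have n1 : ¬ IsSquare (-D') := by
    rw [hD', ← mul_neg]
    exact nsq' hc (nsq hs hbig).1
  have n3 : ¬ IsSquare (-3 * D') := by
    rw [hD', mul_left_comm]
    exact nsq' hc (nsq hs hbig).2
  have hfin := HI.finite (β := 1 - 2 * r') hneg
  have hR0 := reps hδ' him' hβ h17
  let I := {i : HI D' (1 - 2 * r') // Prim δ c (sp i.1.out 1)}
  let _ := Fintype.ofFinite I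
  have hR : RepsC δ c fun i : I => i.1.1.out := by
    refine ⟨fun i => i.2, fun i i' k => Subtype.ext (HI.inj h17 k), fun Λ h => ?_⟩
    obtain ⟨i, hi⟩ := hR0.2.2 Λ ⟨h.1, by rw [om_eq hm]; exact shift h.2.1 _⟩
    exact ⟨⟨i, prim_j h (hyp.isLat_sp _) (by rw [hyp.jL_sp, hi])⟩, hi⟩
  have hO : ∀ i : I, Stb δ (sp 1 (om δ) * sp i.1.1.out 1) := fun i => stb_ord hδ hn hc i.2
  have ss : s * s = 1 := (by decide : ∀ s : ZMod 3, s ≠ 0 → s * s = 1) s s0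
  have hg : ∀ σ a, Sh e σ a → ∃ π : I ≃ I, ∀ i,
      G.act σ (br (phi i.1.1.out)) = br (phi (π i).1.1.out) ∧ σ (jH i.1.1.out) = jH (π i).1.1.out ∧
        χ (sp 1 (om δ) * sp (π i).1.1.out 1) = χ (sp 1 (om δ) * sp i.1.1.out 1) + s * a :=
    fun σ a h => by
    have hσ := he.fix σ a h
    choose g g0 g1 using gal' (β := 1 - 2 * r') hδ' him' hneg n1 n3
      (show σ (c * δ) = c * δ by rw [map_mul, map_natCast, hσ])
    have g2 : ∀ i, σ (jL (sp i.1.out 1)) = jL (sp (g i).1.out 1) := fun i => by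
      rw [hyp.jL_sp, hyp.jL_sp, g1]
    let f : I → I := fun i => ⟨g i.1, prim_cj hσ i.2 (hyp.isLat_sp _) (g2 _)⟩
    have hf : Function.Injective f := fun i i' k => hR.2.1 (σ.injective
      ((g1 i.1).trans ((congrArg (fun j : I => jH j.1.1.out) k).trans (g1 i'.1).symm)))
    exact ⟨Equiv.ofBijective f hf.bijective_of_finite, fun i => ⟨g0 _, g1 _,
      hcm σ a h _ _ (hO i) (hO (f i))
        (ord_cj him hσ (hyp.isLat_sp _) (hO i).1 (hyp.isLat_sp _) (g2 _))⟩⟩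
  refine ⟨I, inferInstance, fun i => br (phi i.1.1.out),
    fun i => s * χ (sp 1 (om δ) * sp i.1.1.out 1),
    fun i => ∏ p ∈ c.primeFactors, GF.ch p (17 * i.1.Q.1) i.1.Q.2.2,
    fun i => ?_, fun σ a h => ?_, fun σ σ' a a' h h' i => ?_, ?_⟩
  · refine prod_induction _ (fun w : ℤ => w = 1 ∨ w = -1) ?_ (Or.inl rfl) fun p hp => ?_
    · rintro _ _ (rfl | rfl) (rfl | rfl) <;> simp
    · have hp' := Nat.prime_of_mem_primeFactors hp
      unfold GF.ch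
      split_ifs with k
      · exact GF.jac_cs hp' (ndvd hδ him h4 hD' i.1.mem i.2 hp' (Nat.dvd_of_mem_primeFactors hp) k)
      · exact GF.jac_cs hp' k
  · obtain ⟨π, hπ⟩ := hg σ a h
    refine ⟨π, fun i => ⟨(hπ i).1, by rw [(hπ i).2.2, mul_add, ← mul_assoc s s a, ss, one_mul], ?_⟩⟩
    rw [map_prod]
    push_cast
    rw [← prod_mul_distrib, ← prod_mul_distrib]
    refine prod_congr rfl fun p hp => ?_
    have := Fact.mk (Nat.prime_of_mem_primeFactors hp)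
    obtain ⟨k, hk⟩ := Nat.dvd_of_mem_primeFactors hp
    have ho : p % 2 = 1 := by
      have : Odd (p * k) := hk ▸ Nat.odd_iff.2 (by omega)
      exact Nat.odd_iff.1 (Nat.odd_mul.1 this).1
    obtain ⟨a1, a2, -⟩ := mem_hg.1 i.1.mem
    obtain ⟨b1, b2, -⟩ := mem_hg.1 (π i).1.mem
    rw [GF.ch_eq, GF.ch_eq]
    exact GF.genus (by omega) (by rw [(GF.ps_eq ho).1]; exact G.field.1 p) a1.2 b1.2 a1.1 b1.1
      (b2.trans a2.symm) (by rw [a2, hD', hk]; exact ⟨p * k ^ 2 * discr L, by push_cast; ring⟩) σ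
      (by rw [del_eq hδ' him' i.1.mem, map_mul, map_natCast, he.fix σ a h]) (hπ i).2.1
  · obtain ⟨π, hπ⟩ := hg σ a h
    obtain ⟨π', hπ'⟩ := hg σ' a' h'
    have : π (π' i) = π' (π i) := hR.2.1 (by
      have := comm hδ' him' hn' (σ := σ) (σ' := σ')
        (by rw [map_mul, map_natCast, he.fix σ a h]) (by rw [map_mul, map_natCast, he.fix σ' a' h'])
        (hR0.1 i.1)
      rw [hyp.jL_sp] at this
      simp only [← (hπ _).2.1, ← (hπ' _).2.1, this])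
    rw [(hπ' i).1, (hπ i).1, (hπ _).1, (hπ' _).1, this]
  · have hN : Stb δ (sp (17 : ℕ) (om δ - r)) := by
      have h1 := prime_lt (om_im him).ne' (l := 17) (by norm_num) r
      have h2 := isLat_ord (om_im him).ne'
      exact ⟨hyp.isLat_between (hyp.isLat_smul h2 (by norm_num)) h2 h1.1.le h1.2.le,
        smul_prime_le (om_sq hδ hn) (by simpa using r1)⟩
    have hu := fun i : I => up_eq hδ' him' h17 i.1.mem
    have hR' := reps_mul' hm hR (by norm_num) (prime_mul_bar (om_sq hδ' hn') (om_im him').ne'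
      (l := 17) (by norm_num) (r := r') (by
        obtain ⟨k, hk⟩ := hβ
        exact ⟨-k, by push_cast; linarith⟩) (fun h => h17 (p17.dvd_of_dvd_pow (n := 2) (by
        obtain ⟨k, hk⟩ := hβ
        obtain ⟨l, hl⟩ := h
        exact ⟨l - 4 * k, by push_cast at hl; linarith⟩)))) hu
    have l2 := hlim _ _ hR'
    have e1 : om (c * δ) - r' = c * (om δ - r) := by
      rw [om_eq hm, hr']
      push_cast
      ring
    have e2 : ∀ i : I, χ (sp 1 (om δ) * sp (up 17 i.1.1.out) 1) =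
        χ (sp (17 : ℕ) (om δ - r)) + χ (sp 1 (om δ) * sp i.1.1.out 1) := fun i => by
      rw [← hχ.mul _ _ hN (hO i), hu, e1, ← mul_assoc, ord_mul hN.2 c17, ← mul_assoc,
        mul_comm _ (sp 1 _), ord_mul_eq_iff.2 hN.2]
    simp only [e2] at l2
    obtain ⟨σ, hσ⟩ := he.ex
    obtain ⟨π, hπ⟩ := hg σ 1 hσ
    exact absl (fun i => by rw [tt_eq]; exact X.mdlS.ne _) (fun i => by rw [tt_eq, log_tf]) s0
      (by simpa using r3) (card_eq s0 π fun i => by rw [(hπ i).2.2, mul_one]) (hlim _ _ hR) l2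

end Pool.Agent.T17
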