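import Pool.Agent.Lib.MP_02f36d_nt.T17.St
import Pool.Agent.Lib.MP_02f36d_nt.C17.Kron
import Pool.Agent.Lib.MP_9177b7_ag.CM.Norm

/-! The Hecke relation for the discriminant function. -/

set_option autoImplicit false

open Real UpperHalfPlane Polynomial
open Pool.Agent.Lib.MP_9177b7_ag.CM (up dn)
open Pool.Agent.Lib.MP_9177b7_ag.CM.Norm (coe_up coe_dn)
open Pool.Agent.C17

noncomputable section

namespace Pool.Agent.T17

namespace HkA

/-- The Euler product. -/
def P (q : ℂ) : ℂ := ∏' n : ℕ, (1 - q ^ (n + 1))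

theorem hp {q : ℂ} (h : ‖q‖ < 1) : HasProd (fun n : ℕ => 1 - q ^ (n + 1)) (P q) :=
  (ModularForm.multipliable_one_sub_pow h).hasProd

theorem sub {p : ℕ} (h0 : p ≠ 0) {f : ℕ → ℂ} {a : ℂ} (h : HasProd (fun k => f (p * (k + 1))) a) :
    HasProd (fun n => if p ∣ n + 1 then f (n + 1) else 1) a := by
  obtain ⟨r, rfl⟩ := Nat.exists_eq_succ_of_ne_zero h0
  have e : ∀ k, (r + 1) * k + r + 1 = (r + 1) * (k + 1) := fun k => by ring
  refine (Function.Injective.hasProd_iff (g := fun k => (r + 1) * k + r) (fun x y hxy => ?_)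
    fun n hn => if_neg ?_).1 (h.congr_fun fun k => ?_)
  · exact Nat.eq_of_mul_eq_mul_left r.succ_pos (Nat.add_right_cancel hxy)
  · rintro ⟨_ | k, hk⟩
    · simp at hk
    · exact hn ⟨k, Nat.add_right_cancel ((e k).trans hk.symm)⟩
  · simp only [Function.comp_apply, e]
    rw [if_pos (dvd_mul_right _ _)]

theorem fin {p : ℕ} (h0 : p ≠ 0) {μ : ℂ} (h : IsPrimitiveRoot μ p) (y : ℂ) :
    ∏ j ∈ Finset.range p, (1 - μ ^ j * y) = 1 - y ^ p := by
  have := congrArg (eval 1) (X_pow_sub_C_eq_prod h (Nat.pos_of_ne_zero h0) (rfl : y ^ p = _))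
  simpa [eval_prod] using this.symm

theorem key {p : ℕ} (hpr : p.Prime) {ζ x : ℂ} (h : IsPrimitiveRoot ζ p) (hx : ‖x‖ < 1) :
    (∏ j ∈ Finset.range p, P (ζ ^ j * x)) * P ((x ^ p) ^ p) = P (x ^ p) * P (x ^ p) ^ p := by
  have h0 := hpr.ne_zero
  have n1 : ∀ {y : ℂ}, ‖y‖ < 1 → ‖y ^ p‖ < 1 := fun hy => by
    rw [norm_pow]
    exact pow_lt_one₀ (norm_nonneg _) hy h0
  have h1 := hasProd_prod (s := Finset.range p) fun j _ => hp (q := ζ ^ j * x) (by
    rwa [norm_mul, norm_pow, h.norm'_eq_one h0, one_pow, one_mul])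
  have h2 := sub h0 (f := fun m => 1 - (x ^ p) ^ m) (a := P ((x ^ p) ^ p))
    (by simpa only [pow_mul] using hp (n1 (n1 hx)))
  have h3 := sub h0 (f := fun m => (1 - x ^ m) ^ p) (a := P (x ^ p) ^ p)
    (by simpa only [pow_mul] using (hp (n1 hx)).pow p)
  refine (h1.mul h2).unique (((hp (n1 hx)).mul h3).congr_fun fun n => ?_)
  have e : ∀ j, (ζ ^ j * x) ^ (n + 1) = (ζ ^ (n + 1)) ^ j * x ^ (n + 1) := fun j => by
    rw [mul_pow, pow_right_comm]
  simp only [e]
  split_ifs with hd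
  · simp only [(h.pow_eq_one_iff_dvd _).2 hd, one_pow, one_mul, Finset.prod_const,
      Finset.card_range]
    rw [mul_comm]
  · rw [fin h0 (h.pow_of_coprime _ ((hpr.coprime_iff_not_dvd.2 hd).symm)), pow_right_comm]

/-- The parameter. -/
def E (z : ℂ) : ℂ := Complex.exp (2 * π * Complex.I * z)

theorem ne (τ : ℍ) : P (E τ) ≠ 0 := by
  simpa only [ModularForm.eta_q_eq_pow, P, E] using ModularForm.eta_tprod_ne_zero τ.2

theorem lf (τ : ℍ) : lF τ = 6 * Real.log τ.im - 2 * π * τ.im + 24 * Real.log ‖P (E τ)‖ :=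
  Kr.lF_eq τ

end HkA

open HkA in
theorem hk : HkSt := fun p hpr => by
  have h0 := hpr.ne_zero
  have c0 : (p : ℂ) ≠ 0 := Nat.cast_ne_zero.2 h0
  have r0 : (p : ℝ) ≠ 0 := Nat.cast_ne_zero.2 h0
  refine ⟨6 * (1 - p) * Real.log p, fun τ => ?_⟩
  have hy := τ.im_pos.ne'
  have e1 : ∀ j : ℕ, E (dn p j τ) = Complex.exp (2 * π * Complex.I / p) ^ j * E (τ / p) :=
    fun j => by
      rw [coe_dn h0, E, E, ← Complex.exp_nat_mul, ← Complex.exp_add]
      congr 1
      ring
  have e2 : E (τ / p) ^ p = E τ := by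
    rw [E, E, ← Complex.exp_nat_mul]
    congr 1
    field_simp
  have e3 : E τ ^ p = E (up p τ) := by
    rw [coe_up h0, E, E, ← Complex.exp_nat_mul]
    congr 1
    ring
  have hx : ‖E (τ / p)‖ < 1 := by
    have := norm_exp_two_pi_I_lt_one (dn p 0 τ)
    rwa [coe_dn h0, Nat.cast_zero, add_zero] at this
  have k := key hpr (Complex.isPrimitiveRoot_exp p h0) hx
  simp only [← e1] at k
  rw [e2, e3] at k
  have k2 := congrArg (fun z => Real.log ‖z‖) k
  simp only [norm_mul, norm_prod, norm_pow] at k2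
  have n := fun z => norm_ne_zero_iff.2 (ne z)
  rw [Real.log_mul (Finset.prod_ne_zero_iff.2 fun j _ => n _) (n _),
    Real.log_prod (fun j _ => n _), Real.log_mul (n _) (pow_ne_zero _ (n _)), Real.log_pow] at k2
  have i1 : (up p τ).im = p * τ.im := by
    rw [← UpperHalfPlane.coe_im, coe_up h0]
    simp
  have i2 : ∀ j : ℕ, (dn p j τ).im = τ.im / p := fun j => by
    rw [← UpperHalfPlane.coe_im, coe_dn h0, Complex.div_natCast_im]
    simp
  simp only [lf, i1, i2, Finset.sum_add_distrib, Finset.sum_const, Finset.card_range, nsmul_eq_mul,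
    ← Finset.mul_sum, Real.log_mul r0 hy, Real.log_div hy r0]
  have e4 : (p : ℝ) * (τ.im / p) = τ.im := mul_div_cancel₀ _ r0
  linear_combination 24 * k2 - 2 * π * e4

end Pool.Agent.T17
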