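import Pool.Agent.Lib.MP_02f36d_nt.T17.St
import Pool.Agent.Lib.MP_02f36d_nt.Maps

/-! A point of the twist over the cubic field that is independent of the rational points. -/

set_option autoImplicit false

open NumberField WeierstrassCurve
open scoped Classical
open Pool.Agent.Lib.MP_d6ddbd_nt.G (Pt act ns_iff)
open Pool.Agent.C17

noncomputable section

namespace Pool.Agent.T17

theorem mapS : MapSt := by
  intro d K K' _ _ _ _ f
  have h : Affine.map (Rk.cv (-15 * d : K) (-16 * d ^ 2)).toAffine f =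
      (Rk.cv (-15 * d : K') (-16 * d ^ 2)).toAffine := by
    ext <;> simp [Rk.cv, map_ofNat]
  exact ⟨Pool.Agent.Lib.MP_02f36d_nt.ptMap f h, fun _ _ _ => ⟨_, rfl⟩⟩

namespace Low

theorem act_some (σ : ℂ ≃+* ℂ) {x y : ℂ} (h) :
    ∃ h', act σ (.some x y h) = .some (σ x) (σ y) h' := ⟨_, rfl⟩

theorem y_zero {y : ℂ} (h : (Pool.Agent.Lib.MP_d6ddbd_nt.G.W17.toAffine.baseChange ℂ).Nonsingular
    0 y) : y = 0 := by
  simpa using (ns_iff _ _).1 h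

theorem sgn {d : ℤ} {r : ℂ} (hr : r ^ 2 = d) (σ : ℂ ≃+* ℂ) :
    ∃ b : ℤ, (b = 1 ∨ b = -1) ∧ σ r = b * r := by
  have : σ r ^ 2 = r ^ 2 := by rw [← map_pow, hr, map_intCast]
  rcases sq_eq_sq_iff_eq_or_eq_neg.1 this with h | h
  · exact ⟨1, .inl rfl, by rw [h]; simp⟩
  · exact ⟨-1, .inr rfl, by rw [h]; simp⟩

variable {d : ℤ} {r : ℂ} {Ψ : Pt →+ Pd d ℂ} (h0 : ∀ h, Ψ (.some 0 0 h) = 0)
  (h1 : ∀ x y h, x ≠ 0 → ∃ h', Ψ (.some x y h) =
    .some (d * ((x ^ 2 + 30 * x + 289) / (4 * x))) (r ^ 3 * (y * (289 - x ^ 2) / (8 * x ^ 2))) h')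

include h0 h1 in
theorem eqv {σ : ℂ ≃+* ℂ} {b : ℤ} (hb : b = 1 ∨ b = -1) (hσ : σ r = b * r)
    {m : Pd d ℂ →+ Pd d ℂ} (hm : IsMap (σ : ℂ →+* ℂ) m) (Q : Pt) :
    m (Ψ Q) = b • Ψ (act σ Q) := by
  rcases Q with _ | ⟨x, y, h⟩
  · show m (Ψ 0) = b • Ψ (act σ 0)
    simp
  obtain ⟨h', e⟩ := act_some σ h
  rw [e]
  by_cases hx : x = 0
  · subst hx
    obtain rfl := y_zero h
    have e0 : (.some (σ 0) (σ 0) h' : Pt) = .some 0 0 h := by
      rw [Affine.Point.some.injEq]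
      exact ⟨map_zero σ, map_zero σ⟩
    rw [e0, h0, map_zero, smul_zero]
  obtain ⟨a1, e1⟩ := h1 x y h hx
  obtain ⟨a2, e2⟩ := h1 _ _ h' ((map_ne_zero σ).2 hx)
  obtain ⟨a3, e3⟩ := hm _ _ a1
  rw [e1, e2, e3]
  rcases hb with rfl | rfl
  · rw [one_smul, Affine.Point.some.injEq]
    simp [hσ, map_ofNat]
  · rw [neg_smul, one_smul, Affine.Point.neg_some, Affine.Point.some.injEq, Rk.negY_cv]
    simp [hσ, map_ofNat]
    ring

include h1 in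
theorem ker {Q : Pt} (h : Ψ Q = 0) : 2 • Q = 0 := by
  rcases Q with _ | ⟨x, y, h'⟩
  · exact nsmul_zero (M := Pt) 2
  by_cases hx : x = 0
  · subst hx
    obtain rfl := y_zero h'
    rw [two_smul]
    exact Affine.Point.add_self_of_Y_eq (by
      simp [Affine.negY, Pool.Agent.Lib.MP_d6ddbd_nt.G.W17])
  · obtain ⟨a1, e1⟩ := h1 x y h' hx
    exact absurd (e1.symm.trans h) (Affine.Point.some_ne_zero _)

end Low

open Low in
theorem low : LowSt := by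
  rintro hM hI L _ _ e δ r d hd hr he ⟨P, hP, a1, a2⟩ m hm
  obtain ⟨Ψ, h0, h1⟩ := hI d r hd hr
  choose μ hμ using fun σ : ℂ ≃+* ℂ => hM d ℂ ℂ (σ : ℂ →+* ℂ)
  obtain ⟨m0, hm0⟩ := hM d L ℂ (e 0)
  have b1 : ∀ σ : ℂ ≃+* ℂ, (∀ y, σ (e 0 y) = e 0 y) → μ σ (Ψ P) = Ψ P := fun σ h => by
    obtain ⟨b, hb, e1⟩ := sgn hr σ
    rw [eqv h0 h1 hb e1 (hμ σ), a1 σ b h e1, map_zsmul, smul_smul]
    rcases hb with rfl | rfl <;> simp
  have b2 : ∃ P' : Pd d L, m0 P' = Ψ P := by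
    rcases hQ : Ψ P with _ | ⟨x, y, h⟩
    · exact ⟨0, map_zero m0⟩
    rw [hQ] at b1
    have b3 : ∀ σ : ℂ ≃+* ℂ, (∀ y, σ (e 0 y) = e 0 y) → σ x = x ∧ σ y = y := fun σ h' => by
      obtain ⟨a3, e3⟩ := hμ σ _ _ h
      have := b1 σ h'
      rwa [e3, Affine.Point.some.injEq] at this
    obtain ⟨X, rfl⟩ := he.mem x fun σ h => (b3 σ h).1
    obtain ⟨Y, rfl⟩ := he.mem y fun σ h => (b3 σ h).2
    have b4 : Affine.map (Rk.cv (-15 * d : L) (-16 * d ^ 2)).toAffine (e 0) =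
        (Rk.cv (-15 * d : ℂ) (-16 * d ^ 2)).toAffine := by
      ext <;> simp [Rk.cv, map_ofNat]
    obtain ⟨a3, e3⟩ := hm0 X Y ((Affine.map_nonsingular _ (e 0).injective X Y).1 (b4 ▸ h))
    exact ⟨_, e3⟩
  obtain ⟨P', b3⟩ := b2
  refine ⟨P', fun N hN ⟨T, hT⟩ => hP ?_⟩
  obtain ⟨s, hs⟩ := he.ex
  have c1 : Sh e (s * s * (s * s)) 1 := fun i x => by
    show s (s (s (s (e i x)))) = _
    rw [hs, hs, hs, hs, show i + 1 + 1 + 1 + 1 = i + 1 by revert i; decide]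
  have c2 : s (s r) = r := by
    obtain ⟨b, hb, e1⟩ := sgn hr s
    rw [e1, map_mul, map_intCast, e1]
    rcases hb with rfl | rfl <;> simp
  have c3 : (s * s * (s * s)) r = r := by
    show s (s (s (s r))) = r
    rw [c2, c2]
  generalize s * s * (s * s) = σ at c1 c3
  have c4 : ∀ Q, μ σ (Ψ Q) = Ψ (act σ Q) := fun Q => by
    rw [eqv h0 h1 (.inl rfl) (by rw [c3]; simp) (hμ σ), one_smul]
  have c5 : μ σ (m0 (m T)) = m0 (m T) := by
    rcases T with _ | ⟨x, y, h⟩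
    · show μ σ (m0 (m 0)) = m0 (m 0)
      simp
    obtain ⟨a3, e3⟩ := hm x y h
    obtain ⟨a4, e4⟩ := hm0 _ _ a3
    obtain ⟨a5, e5⟩ := hμ σ _ _ a4
    rw [e3, e4, e5, Affine.Point.some.injEq]
    simp
  rw [hT, map_nsmul, b3, ← map_nsmul] at c5
  have c6 : Ψ (3 • N • P) = 0 := by
    have c7 : Ψ (N • P) + Ψ (act σ (N • P)) + Ψ (act σ (act σ (N • P))) = 0 := by
      rw [← map_add, ← map_add, map_nsmul, map_nsmul, ← nsmul_add, ← nsmul_add, a2 σ c1 c3,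
        nsmul_zero, map_zero]
    rw [← c4 (act σ _), ← c4 (N • P), c5, c5] at c7
    rw [map_nsmul, ← c7, show 3 = 1 + 1 + 1 from rfl, add_nsmul, add_nsmul, one_nsmul]
  have c8 := ker h1 c6
  rw [smul_smul, smul_smul] at c8
  exact isOfFinAddOrder_iff_nsmul_eq_zero.2 ⟨_, by positivity, c8⟩

end Pool.Agent.T17
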