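import Pool.Agent.Lib.MP_02f36d_nt.T17.St
import Pool.Agent.Lib.MP_02f36d_nt.C17.Gal

/-! Quadratic twists of `17a2` over cubic fields: the new part of the Selmer group. -/

set_option autoImplicit false

open NumberField IsDedekindDomain Pool.Agent.Stark Pool.Agent.C17 Pool.Agent.C17.Rk
open WeierstrassCurve WeierstrassCurve.Affine WeierstrassCurve.Affine.Point

namespace Pool.Agent.T17

namespace New

section Curve

variable {K : Type} [Field K] [CharZero K] {d : ℤ}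

theorem ell (hd : d ≠ 0) : (cv (-15 * d : K) (-16 * d ^ 2)).IsElliptic := by
  refine ⟨isUnit_iff_ne_zero.2 ?_⟩
  have : (cv (-15 * d : K) (-16 * d ^ 2)).Δ = (1088 * d ^ 3) ^ 2 := by
    simp [cv, Δ, b₂, b₄, b₆, b₈]
    ring
  rw [this]
  have : (d : K) ≠ 0 := Int.cast_ne_zero.2 hd
  simp [this]

omit [CharZero K] in
theorem eqn' {x y : K} (h : (cv (-15 * d : K) (-16 * d ^ 2)).toAffine.Nonsingular x y) :
    y ^ 2 = x * (x + d) * (x - 16 * d) := by
  linear_combination eqn h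

theorem ne0 (hd : d ≠ 0) : 3 * (0 : K) ^ 2 + 2 * (-15 * d) * 0 + -16 * d ^ 2 ≠ 0 := by
  have : (d : K) ≠ 0 := Int.cast_ne_zero.2 hd
  simp [this]

theorem ne1 (hd : d ≠ 0) : 3 * (-d : K) ^ 2 + 2 * (-15 * d) * (-d) + -16 * d ^ 2 ≠ 0 := by
  have : (d : K) ≠ 0 := Int.cast_ne_zero.2 hd
  rw [show 3 * (-d : K) ^ 2 + 2 * (-15 * d) * (-d) + -16 * d ^ 2 = 17 * d ^ 2 by ring]
  simp [this]

variable [DecidableEq K]

/-- The descent class of `P` is `(b, c)`. -/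
def Has (P : Pd d K) (b c : K) : Prop := IsSquare (al 0 P * b) ∧ IsSquare (al (-d : K) P * c)

theorem Has.add (hd : d ≠ 0) {P Q : Pd d K} {b c u v : K} (h1 : Has P b c) (h2 : Has Q u v) :
    Has (P + Q) (b * u) (c * v) :=
  ⟨al_mul (by ring) (ne0 hd) h1.1 h2.1, al_mul (by ring) (ne1 hd) h1.2 h2.2⟩

omit [CharZero K] in
theorem Has.one {P : Pd d K} {u v : K} (hu : u ≠ 0) (hv : v ≠ 0)
    (h : Has P (u * u) (v * v)) : Has P 1 1 := by
  obtain ⟨⟨r, hr⟩, ⟨s, hs⟩⟩ := h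
  exact ⟨⟨r / u, by field_simp; linear_combination hr⟩,
    ⟨s / v, by field_simp; linear_combination hs⟩⟩

omit [CharZero K] in
theorem has_zero : Has (0 : Pd d K) 1 1 := ⟨⟨1, by simp [al_zero]⟩, ⟨1, by simp [al_zero]⟩⟩

omit [CharZero K] in
theorem al_eq {x y : K} (h : (cv (-15 * d : K) (-16 * d ^ 2)).toAffine.Nonsingular x y)
    (hy : y ≠ 0) : x ≠ 0 ∧ x + d ≠ 0 ∧ al 0 (.some x y h : Pd d K) = x ∧
      al (-d : K) (.some x y h : Pd d K) = x + d := by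
  have h1 := pow_ne_zero 2 hy
  rw [eqn' h] at h1
  have h2 := left_ne_zero_of_mul (left_ne_zero_of_mul h1)
  have h3 := right_ne_zero_of_mul (left_ne_zero_of_mul h1)
  refine ⟨h2, h3, by rw [al_some, if_neg h2, sub_zero], ?_⟩
  rw [al_some, if_neg fun e => h3 (by rw [e]; ring), sub_neg_eq_add]

omit [CharZero K] in
theorem two_tors {x : K} (h : (cv (-15 * d : K) (-16 * d ^ 2)).toAffine.Nonsingular x 0) :
    (.some x 0 h : Pd d K) + .some x 0 h = 0 :=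
  add_self_of_Y_eq (by rw [negY_cv, _root_.neg_zero])

theorem half1 (hd : d ≠ 0) {P : Pd d K} (h : Has P 1 1) :
    (∃ Q : Pd d K, P = 2 • Q) ∨ ∃ x h, P = .some x 0 h := by
  have := ell (K := K) hd
  have h0 : (d : K) ≠ 0 := Int.cast_ne_zero.2 hd
  match P, h with
  | 0, _ => exact Or.inl ⟨0, by simp⟩
  | .some x y h, H =>
    by_cases hy : y = 0
    · subst hy
      exact Or.inr ⟨x, h, rfl⟩
    obtain ⟨-, -, e1, e2⟩ := al_eq h hy
    obtain ⟨a1, a2⟩ := H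
    rw [e1, mul_one] at a1
    rw [e2, mul_one, ← sub_neg_eq_add] at a2
    obtain ⟨Q, hQ⟩ := half (p := (-d : K)) (q := 16 * d) (neg_ne_zero.2 h0)
      (mul_ne_zero (by norm_num) h0)
      (fun e => h0 (by linear_combination (-1 / 17) * e)) (by ring) (by ring) h hy a1 a2
    exact Or.inl ⟨Q, by rw [two_nsmul, hQ]⟩

variable {k : Type} [Field k] [CharZero k] [DecidableEq k] {f : k →+* K} {m : Pd d k →+ Pd d K}

omit [CharZero K] [CharZero k] in
theorem al_map (hm : IsMap f m) (e : k) (T : Pd d k) : al (f e) (m T) = f (al e T) := by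
  match T with
  | 0 => rw [m.map_zero, al_zero, al_zero, map_one]
  | .some x y h =>
    obtain ⟨h', e1⟩ := hm x y h
    rw [e1, al_some, al_some]
    by_cases hx : x = e
    · rw [if_pos hx, if_pos (congrArg f hx)]
      simp [map_ofNat]
    · rw [if_neg hx, if_neg fun h => hx (f.injective h), map_sub]

omit [CharZero K] in
theorem tors_rat (hd : d ≠ 0) (hm : IsMap f m) {x : K}
    (h : (cv (-15 * d : K) (-16 * d ^ 2)).toAffine.Nonsingular x 0) :
    ∃ T, (.some x 0 h : Pd d K) = m T := by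
  have := ell (K := k) hd
  obtain ⟨z, hz, rfl⟩ : ∃ z : k, (0 : k) ^ 2 = z ^ 3 + -15 * d * z ^ 2 + -16 * d ^ 2 * z ∧
      x = f z := by
    have e := (eqn' h).symm
    rw [zero_pow two_ne_zero, mul_eq_zero, mul_eq_zero] at e
    rcases e with (e | e) | e
    · exact ⟨0, by ring, by rw [e, f.map_zero]⟩
    · exact ⟨-d, by ring, by rw [map_neg, map_intCast]; linear_combination e⟩
    · exact ⟨16 * d, by ring, by rw [map_mul, map_intCast, map_ofNat]; linear_combination e⟩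
  obtain ⟨h', e1⟩ := hm z 0 (mkNS hz)
  exact ⟨_, by rw [e1]; simp⟩

theorem dec (hd : d ≠ 0) (hm : IsMap f m) {P : Pd d K} (h : Has P 1 1) :
    ∃ T Q, P = m T + 2 • Q := by
  rcases half1 hd h with ⟨Q, rfl⟩ | ⟨x, h', rfl⟩
  · exact ⟨0, Q, by simp⟩
  · obtain ⟨T, e⟩ := tors_rat hd hm h'
    exact ⟨T, 0, by simp [e]⟩

/-- Two classes give two cosets. -/
theorem two_cls (hd : d ≠ 0) (hm : IsMap f m) {ε : K} (hε : ε ≠ 0)
    (h : ∀ P : Pd d K, ∃ T, Has (P + m T) 1 1 ∨ Has (P + m T) ε 1) :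
    ∃ g : Pd d K, ∀ P : Pd d K, ∃ (T : Pd d k) (Q : Pd d K),
      P = m T + 2 • Q ∨ P = g + m T + 2 • Q := by
  have a1 : ∀ P T, Has (P + m T) 1 1 → ∃ T Q, P = m T + 2 • Q := fun P T h => by
    obtain ⟨S, Q, e⟩ := dec hd hm h
    exact ⟨S - T, Q, by rw [map_sub, eq_sub_of_add_eq e]; abel⟩
  by_cases hg : ∃ g : Pd d K, Has g ε 1
  · obtain ⟨g, hg⟩ := hg
    refine ⟨g, fun P => ?_⟩
    obtain ⟨T, h | h⟩ := h P
    · obtain ⟨S, Q, e⟩ := a1 P T h
      exact ⟨S, Q, Or.inl e⟩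
    · have h2 := (h.add hd hg).one hε one_ne_zero
      rw [add_right_comm] at h2
      obtain ⟨S, Q, e⟩ := a1 _ T h2
      exact ⟨S, Q - g, Or.inr (by rw [eq_sub_of_add_eq e, nsmul_sub, two_nsmul g]; abel)⟩
  · refine ⟨0, fun P => ?_⟩
    obtain ⟨T, h | h⟩ := h P
    · obtain ⟨S, Q, e⟩ := a1 P T h
      exact ⟨S, Q, Or.inl e⟩
    · exact absurd ⟨_, h⟩ hg

end Curve

variable {L : Type} [Field L] [NumberField L] {d : ℤ}

/-- Finitely many classes give finite generation. -/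
theorem fg [DecidableEq L] (hd : d ≠ 0) {F : Set L} (hF : F.Finite) (h0 : ∀ b ∈ F, b ≠ 0)
    (h1 : (1 : L) ∈ F)
    (h : ∀ x y h, y ≠ 0 → ∃ b ∈ F, ∃ c ∈ F, Has (.some x y h : Pd d L) b c) :
    Module.Finite ℤ (Pd d L) := by
  have := ell (K := L) hd
  have := hF.to_subtype
  have t2 : ∀ P : Pd d L, P + P = 0 → P ∈ AddCommGroup.torsion (Pd d L) := fun P h =>
    isOfFinAddOrder_iff_nsmul_eq_zero.2 ⟨2, two_pos, by rw [two_nsmul, h]⟩
  have a1 : ∀ P : Pd d L, ∃ b : F × F, ∃ t ∈ AddCommGroup.torsion (Pd d L),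
      Has (P + t) b.1 b.2 := fun P => by
    have triv : P + P = 0 → ∃ b : F × F, ∃ t ∈ AddCommGroup.torsion (Pd d L),
      Has (P + t) b.1 b.2 := fun h => ⟨(⟨1, h1⟩, ⟨1, h1⟩), P, t2 P h, h ▸ has_zero⟩
    match P with
    | 0 => exact triv (add_zero _)
    | .some x y hh =>
      by_cases hy : y = 0
      · subst hy
        exact triv (two_tors hh)
      · obtain ⟨b, hb, c, hc, e⟩ := h x y hh hy
        exact ⟨(⟨b, hb⟩, ⟨c, hc⟩), 0, zero_mem _, by rwa [add_zero]⟩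
  choose j t ht h1 using a1
  let H := (nsmulAddMonoidHom (α := Pd d L) 2).range ⊔ AddCommGroup.torsion (Pd d L)
  have hi : Function.Injective fun q : Pd d L ⧸ H => j q.out := by
    intro p q e
    have e' : j p.out = j q.out := e
    have h3 : p.out + t p.out + (q.out + t q.out) ∈ H := by
      have := (h1 p.out).add hd (h1 q.out)
      rw [← e'] at this
      rcases half1 hd (this.one (h0 _ (j p.out).1.2) (h0 _ (j p.out).2.2)) with
        ⟨Q, e⟩ | ⟨x, h, e⟩ <;> rw [e]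
      · exact AddSubgroup.mem_sup_left ⟨Q, rfl⟩
      · exact AddSubgroup.mem_sup_right (t2 _ (two_tors h))
    rw [← p.out_eq', ← q.out_eq', QuotientAddGroup.eq]
    have h4 : 2 • p.out ∈ H := AddSubgroup.mem_sup_left ⟨_, rfl⟩
    have h5 := sub_mem (sub_mem (sub_mem h3 h4) (AddSubgroup.mem_sup_right (ht p.out)))
      (AddSubgroup.mem_sup_right (ht q.out))
    rwa [show p.out + t p.out + (q.out + t q.out) - 2 • p.out - t p.out - t q.out =
      -p.out + q.out by abel] at h5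
  have := Finite.of_injective _ hi
  obtain ⟨C, hC⟩ := ht_par (a := (-15 * d : L)) (b := -16 * d ^ 2)
  have hT := AddCommGroup.finite_torsion_of_descent' hC
  refine Module.Finite.iff_addGroup_fg.2
    (AddCommGroup.fg_of_descent' (h := Rk.ht) ⟨?_⟩ (fun P => Height.logHeight_nonneg _) hC)
  rw [← AddSubgroup.relIndex_mul_index (le_sup_left (b := AddCommGroup.torsion (Pd d L))),
    AddSubgroup.relIndex_sup_left]
  exact mul_ne_zero AddSubgroup.index_ne_zero_of_finite AddSubgroup.index_ne_zero_of_finite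

theorem norm_rat (h3 : Module.finrank ℚ L = 3) (a : ℚ) :
    Algebra.norm ℚ (algebraMap ℚ L a) = a ^ 3 := by
  rw [Algebra.norm_algebraMap, h3]

theorem norm_sq (h3 : Module.finrank ℚ L = 3) {p p' : L} {a : ℚ} (hp : p ≠ 0) (ha : a ≠ 0)
    (h : IsSquare (p' * p * algebraMap ℚ L a)) (h' : IsSquare (Algebra.norm ℚ p * a)) :
    IsSquare (Algebra.norm ℚ p') := by
  obtain ⟨r, hr⟩ := h
  obtain ⟨s, hs⟩ := h'
  have h1 := congrArg (Algebra.norm ℚ) hr
  rw [map_mul, map_mul, map_mul, norm_rat h3] at h1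
  have h2 : s ≠ 0 := by
    rintro rfl
    exact mul_ne_zero (Algebra.norm_ne_zero_iff.2 hp) ha (by rw [hs, mul_zero])
  refine ⟨Algebra.norm ℚ r / (s * a), ?_⟩
  field_simp
  linear_combination h1 - Algebra.norm ℚ p' * a ^ 2 * hs

theorem rho_one (h3 : Module.finrank ℚ L = 3) {u : (𝓞 L)ˣ} {ρ : ℕ} {z : L} (hρ : Squarefree ρ)
    (hz : z ≠ 0) (h : IsSquare (Algebra.norm ℚ (((u : 𝓞 L) : L) * ρ * z ^ 2))) :
    ρ = 1 ∧ Algebra.norm ℚ ((u : 𝓞 L) : L) = 1 := by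
  obtain ⟨r, hr⟩ := h
  have h0 : (0 : ℚ) < ρ := by exact_mod_cast Nat.pos_of_ne_zero hρ.ne_zero
  have h1 : Algebra.norm ℚ z ≠ 0 := Algebra.norm_ne_zero_iff.2 hz
  rw [map_mul, map_mul, map_pow, ← map_natCast (algebraMap ℚ L), norm_rat h3] at hr
  have h2 : Algebra.norm ℚ ((u : 𝓞 L) : L) * ρ =
      (r / (ρ * Algebra.norm ℚ z)) * (r / (ρ * Algebra.norm ℚ z)) := by
    field_simp
    linear_combination hr
  rcases (abs_eq zero_le_one).1 (Units.norm L u) with h | h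
  · refine ⟨?_, h⟩
    have h4 : Algebra.norm ℚ ((u : 𝓞 L) : L) = 1 := h
    rw [h4, one_mul] at h2
    obtain ⟨n, rfl⟩ := Rat.isSquare_natCast_iff.1 ⟨_, h2⟩
    rw [Nat.isUnit_iff.1 (hρ n dvd_rfl)]
  · have h4 : Algebra.norm ℚ ((u : 𝓞 L) : L) = -1 := h
    rw [h4] at h2
    nlinarith [mul_self_nonneg (r / (ρ * Algebra.norm ℚ z))]

theorem pos_of_norm (h3 : Module.finrank ℚ L = 3) (hd : discr L < 0) {x : L}
    (h : Algebra.norm ℚ x = 1) (φ : L →+* ℝ) : 0 < φ x := by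
  obtain ⟨e, he⟩ := GalAux.ex_emb h3 hd
  obtain ⟨i, hi⟩ := e.surjective (Complex.ofRealHom.comp φ)
  have h1 : i = 0 := by
    have : e i = e (-i) := RingHom.ext fun y => by rw [← he, hi]; simp
    have h2 := e.injective this
    revert h2
    generalize i = j
    revert j
    decide
  subst h1
  have h2 : ((Algebra.norm ℚ x : ℚ) : ℂ) = ∏ i, e i x := by
    rw [← eq_ratCast (algebraMap ℚ ℂ), Algebra.norm_eq_prod_embeddings ℚ ℂ x]
    exact (Fintype.prod_equiv (e.trans (RingHom.equivRatAlgHom L ℂ)) _ _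
      fun _ => by simp [RingHom.equivRatAlgHom_apply]).symm
  have h4 : ∏ i, e i x = e 0 x * e 1 x * e (-1) x := Fin.prod_univ_three _
  rw [h4, h, ← he 1, mul_assoc, Complex.mul_conj, hi] at h2
  have h5 : (1 : ℝ) = φ x * Complex.normSq (e 1 x) := by
    apply Complex.ofReal_injective
    simpa using h2
  by_contra h6
  nlinarith [Complex.normSq_nonneg (e 1 x), not_lt.1 h6]

theorem sgn (h3 : Module.finrank ℚ L = 3) {u e s : L} (hs : s = 1 ∨ s = -1)
    (hu : Algebra.norm ℚ u = 1) (h : IsSquare (u * (e * s))) :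
    IsSquare (u * (e * algebraMap ℚ L (Algebra.norm ℚ e))) := by
  obtain ⟨r, hr⟩ := h
  have h1 := congrArg (Algebra.norm ℚ) hr
  have h2 : algebraMap ℚ L (Algebra.norm ℚ s) = s ∧ s * s = 1 := by
    rcases hs with rfl | rfl
    · simp
    · refine ⟨?_, by ring⟩
      rw [← map_one (algebraMap ℚ L), ← map_neg, norm_rat h3]
      norm_num
  rw [map_mul, map_mul, map_mul, hu, one_mul] at h1
  have h4 := congrArg (algebraMap ℚ L) h1
  rw [map_mul, map_mul, h2.1] at h4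
  refine ⟨r * algebraMap ℚ L (Algebra.norm ℚ r), ?_⟩
  linear_combination (algebraMap ℚ L (Algebra.norm ℚ e) * s) * hr + r * r * h4 -
    u * e * algebraMap ℚ L (Algebra.norm ℚ e) * h2.2

theorem sq_unit (h3 : Module.finrank ℚ L = 3) (hd : discr L < 0) (hh : Odd (classNumber L))
    {u : (𝓞 L)ˣ} {z : L} (hz : z ≠ 0) (hu : Algebra.norm ℚ ((u : 𝓞 L) : L) = 1)
    (h4 : ∀ q : HeightOneSpectrum (𝓞 L), (2 : 𝓞 L) ∈ q.asIdeal →
      A1.S4 (q.valuation L) (((u : 𝓞 L) : L) * z ^ 2)) : IsSquare ((u : 𝓞 L) : L) := by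
  refine sq_of_unr hh u (pos_of_norm h3 hd hu) fun q hq => (h4 q hq).unit ?_ hz ?_
  · refine (q.valuation_lt_one_iff_mem (K := L) (4 : 𝓞 L)).2 ?_
    rw [show (4 : 𝓞 L) = 2 * 2 by norm_num]
    exact q.asIdeal.mul_mem_left _ hq
  · rw [val_eq_exp (Units.coe_ne_zero u)]
    have := (isU_iff.2 ⟨u, rfl⟩).2 q
    rw [og] at this
    rw [this]
    rfl

theorem sqf (h : Adm d) {ρ : ℕ} (hρ : (ρ : ℤ) ∣ 17 * d) : Squarefree ρ := by
  have h1 : Squarefree (17 * d.natAbs) :=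
    Nat.squarefree_mul_iff.2 ⟨(h.2.2.coprime_dvd_right (by norm_num)).symm,
      (by norm_num : Nat.Prime 17).squarefree, Int.squarefree_natAbs.2 h.1⟩
  refine h1.squarefree_of_dvd ?_
  have := Int.natCast_dvd.1 hρ
  rwa [Int.natAbs_mul] at this

end New

open New in
theorem newS : NewSt := by
  classical
  intro hN hC L _ _ d h3 hD hh hA hI m hm
  have hd : d ≠ 0 := hA.1.ne_zero
  obtain ⟨ε, h0, hε⟩ := A1.units_cls h3 hD
  have nz : ∀ {x z : L} {ρ : ℕ} {u : (𝓞 L)ˣ}, x ≠ 0 → x = ((u : 𝓞 L) : L) * ρ * z ^ 2 → z ≠ 0 :=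
    fun hx e hz => hx (by rw [e, hz]; simp)
  constructor
  · let F : Set L := (fun p : ℕ × L × ℕ => ε ^ p.1 * p.2.1 * p.2.2) ''
      (Set.Iio 2 ×ˢ ({1, -1} : Set L) ×ˢ ((17 * d).natAbs.divisors : Set ℕ))
    have n0 : (17 * d).natAbs ≠ 0 := by simpa using hd
    have a1 : ∀ x : L, (∃ (u : (𝓞 L)ˣ) (ρ : ℕ) (z : L), (ρ : ℤ) ∣ 17 * d ∧
        x = ((u : 𝓞 L) : L) * ρ * z ^ 2) → ∃ b ∈ F, IsSquare (x * b) := by
      rintro _ ⟨u, ρ, z, hρ, rfl⟩
      obtain ⟨s, hs, j, r, hr⟩ := hε u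
      refine ⟨_, ⟨(j, s, ρ), ⟨j.2, hs, Nat.mem_divisors.2 ⟨Int.natCast_dvd.1 hρ, n0⟩⟩, rfl⟩,
        r * ρ * z, ?_⟩
      linear_combination (ρ : L) ^ 2 * z ^ 2 * hr
    refine fg hd (F := F) (((Set.finite_Iio 2).prod ((Set.toFinite _).prod
      (Finset.finite_toSet _))).image _) ?_ ⟨(0, 1, 1), ⟨Nat.two_pos, Or.inl rfl,
        Nat.one_mem_divisors.2 n0⟩, by simp⟩ fun x y h hy => ?_
    · rintro _ ⟨⟨j, s, ρ⟩, ⟨-, hs, hρ⟩, rfl⟩
      refine mul_ne_zero (mul_ne_zero (pow_ne_zero _ h0) ?_)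
        (Nat.cast_ne_zero.2 (Nat.pos_of_mem_divisors hρ).ne')
      rcases hs with rfl | rfl <;> simp
    · obtain ⟨c1, c2, -⟩ := hC L d hh hA hI x y hy (eqn' h)
      obtain ⟨-, -, e1, e2⟩ := al_eq h hy
      obtain ⟨b, hb, b1⟩ := a1 _ c1
      obtain ⟨c, hc, b2⟩ := a1 _ c2
      exact ⟨b, hb, c, hc, e1.symm ▸ b1, e2.symm ▸ b2⟩
  · refine two_cls hd hm (ε := ε * algebraMap ℚ L (Algebra.norm ℚ ε))
      (mul_ne_zero h0 ((map_ne_zero _).2 (Algebra.norm_ne_zero_iff.2 h0))) fun P => ?_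
    obtain ⟨T, t1, t2⟩ := hN L d h3 hd P
    have m1 := al_map hm 0 T
    have m2 := al_map hm (-d) T
    rw [RingHom.map_zero] at m1
    rw [map_neg, map_intCast] at m2
    have n1 := norm_sq h3 (al_ne (ne0 hd) P) (al_ne (ne0 hd) T)
      (m1 ▸ al_add (by ring) (ne0 hd) P (m T)) t1
    have n2 := norm_sq h3 (al_ne (ne1 hd) P) (al_ne (ne1 hd) T)
      (m2 ▸ al_add (by ring) (ne1 hd) P (m T)) t2
    match hP : P + m T, n1, n2 with
    | 0, _, _ => exact ⟨T, Or.inl (hP ▸ has_zero)⟩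
    | .some x y h, n1, n2 =>
      by_cases hy : y = 0
      · subst hy
        obtain ⟨S, e⟩ := tors_rat hd hm h
        refine ⟨T + S, Or.inl ?_⟩
        rw [map_add, ← add_assoc, hP, ← e, two_tors]
        exact has_zero
      obtain ⟨⟨u, ρ, z, hρ, c1⟩, ⟨u', ρ', z', hρ', c2⟩, c3⟩ := hC L d hh hA hI x y hy (eqn' h)
      obtain ⟨x0, x1, e1, e2⟩ := al_eq h hy
      rw [e1, c1] at n1
      rw [e2, c2] at n2
      obtain ⟨rfl, b1⟩ := rho_one h3 (sqf hA hρ) (nz x0 c1) n1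
      obtain ⟨rfl, b2⟩ := rho_one h3 (sqf hA hρ') (nz x1 c2) n2
      have z0 := nz x1 c2
      rw [Nat.cast_one, mul_one] at c1 c2
      have b3 : IsSquare (al (-d : L) (.some x y h : Pd d L) * 1) := by
        rw [e2, mul_one, c2]
        exact (sq_unit h3 hD hh z0 b2 fun q hq => c2 ▸ c3 q hq).mul ⟨z', sq z'⟩
      obtain ⟨s, hs, j, hj⟩ := hε u
      have b4 := (sgn h3 hs b1 hj).mul ⟨z, sq z⟩
      rw [mul_right_comm, ← c1, ← e1] at b4
      refine ⟨T, ?_⟩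
      rw [hP]
      fin_cases j
      · exact Or.inl ⟨by simpa using b4, b3⟩
      · exact Or.inr ⟨by simpa using b4, b3⟩

end Pool.Agent.T17
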