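import Pool.Agent.Lib.MP_02f36d_nt.T17.St

/-! The norm of a descent class from a cubic field is the descent class of a rational point. -/

set_option autoImplicit false

open Polynomial
open scoped Classical
open Pool.Agent.C17 Pool.Agent.C17.Rk

namespace Pool.Agent.T17

namespace Norm

variable {L : Type} [Field L] [NumberField L]

theorem char (h3 : Module.finrank ℚ L = 3) (x : L) : ∃ p q s : ℚ,
    x ^ 3 + p * x ^ 2 + q * x + s = 0 ∧
      ∀ e : ℚ, Algebra.norm ℚ (x - e) = -(e ^ 3 + p * e ^ 2 + q * e + s) := by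
  have hd : (Algebra.lmul ℚ L x).charpoly.natDegree = 3 :=
    (LinearMap.charpoly_natDegree _).trans h3
  have hm : (Algebra.lmul ℚ L x).charpoly.coeff 3 = 1 := hd ▸ LinearMap.charpoly_monic _
  have h0 : aeval x (Algebra.lmul ℚ L x).charpoly = 0 := by
    have := LinearMap.aeval_self_charpoly (Algebra.lmul ℚ L x)
    rw [aeval_algHom_apply] at this
    exact (map_eq_zero_iff _ Algebra.lmul_injective).1 this
  refine ⟨(Algebra.lmul ℚ L x).charpoly.coeff 2, (Algebra.lmul ℚ L x).charpoly.coeff 1,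
    (Algebra.lmul ℚ L x).charpoly.coeff 0, ?_, fun e => ?_⟩
  · rw [aeval_eq_sum_range, hd] at h0
    simp only [Finset.sum_range_succ, Finset.sum_range_zero, hm, Algebra.smul_def,
      eq_ratCast] at h0
    push_cast at h0
    linear_combination h0
  · have h1 := LinearMap.eval_charpoly (Algebra.lmul ℚ L x) e
    rw [eval_eq_sum_range, hd, ← AlgHom.commutes (Algebra.lmul ℚ L), ← map_sub,
      ← Algebra.norm_apply] at h1
    simp only [Finset.sum_range_succ, Finset.sum_range_zero, hm, eq_ratCast] at h1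
    have h2 : x - e = algebraMap ℚ L (-1) * ((e : L) - x) := by simp
    rw [h2, map_mul, Algebra.norm_algebraMap, h3, ← h1]
    ring

theorem basis (h3 : Module.finrank ℚ L = 3) {x : L} (hx : ∀ c : ℚ, x ≠ c) :
    (∀ u v w : ℚ, u * x ^ 2 + v * x + w = 0 → u = 0 ∧ v = 0 ∧ w = 0) ∧
      ∀ y : L, ∃ u v w : ℚ, y = u * x ^ 2 + v * x + w := by
  have h1 : (minpoly ℚ x).natDegree = 3 := by
    have h2 := minpoly.degree_dvd (Algebra.IsIntegral.isIntegral (R := ℚ) x)
    rw [h3] at h2
    refine ((Nat.dvd_prime Nat.prime_three).1 h2).resolve_left fun h => ?_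
    obtain ⟨c, hc⟩ := minpoly.natDegree_eq_one_iff.1 h
    exact hx c hc.symm
  have h2 : LinearIndependent ℚ fun i : Fin 3 => x ^ (i : ℕ) := h1 ▸ linearIndependent_pow x
  constructor
  · intro u v w h
    have := Fintype.linearIndependent_iff.1 h2 ![w, v, u] (by
      simp only [Fin.sum_univ_three, Algebra.smul_def, eq_ratCast]
      simpa [add_comm, add_left_comm, add_assoc] using h)
    exact ⟨this 2, this 1, this 0⟩
  · intro y
    have h4 := h2.span_eq_top_of_card_eq_finrank' (by simp [h3])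
    obtain ⟨c, hc⟩ := (Submodule.mem_span_range_iff_exists_fun ℚ).1
      (h4 ▸ Submodule.mem_top (x := y))
    refine ⟨c 2, c 1, c 0, ?_⟩
    rw [← hc]
    simp only [Fin.sum_univ_three, Algebra.smul_def, eq_ratCast]
    simp [add_comm, add_assoc]

theorem main (h3 : Module.finrank ℚ L = 3) {a b : ℚ} [(cv a b).IsElliptic] {a' b' : L}
    (ha : a' = a) (hb : b' = b) (P : G a' b') : ∃ T : G a b, ∀ (e : ℚ) (e' : L), e' = e →
      e ^ 3 + a * e ^ 2 + b * e = 0 → IsSquare (Algebra.norm ℚ (al e' P) * al e T) := by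
  subst ha hb
  have nr : ∀ c : ℚ, Algebra.norm ℚ (c : L) = c ^ 3 := fun c => by
    rw [← eq_ratCast (algebraMap ℚ L), Algebra.norm_algebraMap, h3]
  match P with
  | 0 => exact ⟨0, fun e e' _ _ => by simp [al_zero]⟩
  | .some x y h =>
    have e1 := eqn h
    by_cases hx : ∀ c : ℚ, x ≠ c
    · obtain ⟨p, q, s, h0, hn⟩ := char h3 x
      obtain ⟨hi, hs⟩ := basis h3 hx
      obtain ⟨u, v, w, rfl⟩ := hs y
      obtain ⟨c, hc⟩ : ∃ c : ℚ, c = 2 * u * v - 1 - u ^ 2 * p := ⟨_, rfl⟩
      obtain ⟨k2, k1, k0⟩ := hi (v ^ 2 + 2 * u * w - a - (p * c + q * u ^ 2))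
        (2 * v * w - b - (q * c + s * u ^ 2)) (w ^ 2 - s * c) (by
          rw [hc]
          push_cast
          linear_combination e1 - ((u : L) ^ 2 * x + (2 * u * v - 1 - u ^ 2 * p)) * h0)
      have key : ∀ t : ℚ, (u * t ^ 2 + v * t + w) ^ 2 - (t ^ 3 + a * t ^ 2 + b * t) =
          (t ^ 3 + p * t ^ 2 + q * t + s) * (u ^ 2 * t + c) := fun t => by
        linear_combination t ^ 2 * k2 + t * k1 + k0 - t ^ 3 * hc
      by_cases hu : u = 0
      · refine ⟨0, fun e e' he h1 => ⟨u * e ^ 2 + v * e + w, ?_⟩⟩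
        rw [he, al_some, if_neg (hx e), hn, al_zero]
        have h2 := key e
        rw [hc, hu] at h2
        rw [hu]
        linear_combination -h2 - h1
      · obtain ⟨t, ht⟩ : ∃ t : ℚ, u ^ 2 * t + c = 0 := ⟨-c / u ^ 2, by field_simp; ring⟩
        have h2 : (u * t ^ 2 + v * t + w) ^ 2 = t ^ 3 + a * t ^ 2 + b * t := by
          linear_combination key t + (t ^ 3 + p * t ^ 2 + q * t + s) * ht
        refine ⟨.some t _ (mkNS h2), fun e e' he h1 => ?_⟩
        rw [he, al_some, if_neg (hx e), hn, al_some]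
        split_ifs with h4
        · subst h4
          have h5 : u * t ^ 2 + v * t + w = 0 := pow_eq_zero_iff two_ne_zero |>.1 (h2.trans h1)
          refine ⟨(t ^ 3 + p * t ^ 2 + q * t + s) * u, ?_⟩
          linear_combination (t ^ 3 + p * t ^ 2 + q * t + s) * (2 * t * k2 + k1 - 3 * t ^ 2 * hc +
            (3 * t ^ 2 + 2 * p * t + q) * ht - 2 * (2 * u * t + v) * h5)
        · refine ⟨(u * e ^ 2 + v * e + w) / u, ?_⟩
          field_simp
          linear_combination -key e - h1 - (e ^ 3 + p * e ^ 2 + q * e + s) * ht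
    · push Not at hx
      obtain ⟨c, rfl⟩ := hx
      have h1 : Algebra.norm ℚ y ^ 2 = (c ^ 3 + a * c ^ 2 + b * c) ^ 3 := by
        rw [← map_pow, e1, ← nr]
        push_cast
        rfl
      have h2 : (Algebra.norm ℚ y / (c ^ 3 + a * c ^ 2 + b * c)) ^ 2 =
          c ^ 3 + a * c ^ 2 + b * c := by
        rcases eq_or_ne (c ^ 3 + a * c ^ 2 + b * c) 0 with h0 | h0
        · simp [h0]
        · rw [div_pow, h1]
          field_simp
      refine ⟨.some c _ (mkNS h2), fun e e' he _ => ?_⟩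
      have h4 : al e' (.some c y h : G (a : L) (b : L)) =
          ((al e (.some c _ (mkNS h2) : G a b) : ℚ) : L) := by
        rw [he, al_some, al_some]
        by_cases h5 : c = e
        · rw [if_pos h5, if_pos (by rw [h5])]
          push_cast
          rfl
        · rw [if_neg h5, if_neg (by exact_mod_cast h5)]
          push_cast
          rfl
      rw [h4, nr]
      exact ⟨al e (.some c _ (mkNS h2) : G a b) ^ 2, by ring⟩

end Norm

theorem normS : NormSt := by
  intro L _ _ d h3 hd P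
  have h0 : (d : ℚ) ≠ 0 := Int.cast_ne_zero.2 hd
  have : (cv (-15 * d : ℚ) (-16 * d ^ 2)).IsElliptic := ⟨isUnit_iff_ne_zero.2 (by
    have : (cv (-15 * d : ℚ) (-16 * d ^ 2)).Δ = 4096 * 289 * d ^ 6 := by
      simp only [cv, WeierstrassCurve.Δ, WeierstrassCurve.b₂, WeierstrassCurve.b₄,
        WeierstrassCurve.b₆, WeierstrassCurve.b₈]
      ring
    rw [this]
    positivity)⟩
  obtain ⟨T, hT⟩ := Norm.main h3 (a := -15 * d) (b := -16 * d ^ 2) (by simp) (by simp) P
  refine ⟨T, ?_, ?_⟩
  · convert hT 0 0 (by simp) (by ring)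
  · convert hT (-d) (-d) (by simp) (by ring)

end Pool.Agent.T17
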