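import Pool.Agent.Lib.MP_02f36d_nt.T17.St
import Pool.Agent.Lib.MP_02f36d_nt.C17.Nt

/-! The twisted Heegner point has infinite order unless the unit is a descent class. -/

set_option autoImplicit false

open NumberField
open scoped Classical
open Pool.Agent.Lib.MP_d6ddbd_nt.G (Pt act)
open Pool.Agent.C17 Pool.Agent.C17.NtAux

noncomputable section

namespace Pool.Agent.T17.NtC

variable {L : Type} [Field L] [NumberField L] {e : ZMod 3 → L →+* ℂ} {δ r : ℂ} {ε : L}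
  {σ τ : ℂ ≃+* ℂ} {a b : ZMod 3} {d : ℤ} {n : ℕ}

/-- The sign by which `σ` acts on `r`. -/
def bb (r : ℂ) (σ : ℂ ≃+* ℂ) : ℤ := if σ r = r then 1 else -1

/-- The twisted action. -/
def ac (r : ℂ) (σ : ℂ ≃+* ℂ) : Pt →+ Pt := bb r σ • act σ

theorem ac_apply (P : Pt) : ac r σ P = bb r σ • act σ P := rfl

theorem bb_spec (hr : r ^ 2 = d) (σ : ℂ ≃+* ℂ) : σ r = bb r σ * r := by
  have h : σ r ^ 2 = r ^ 2 := by rw [← map_pow, hr, map_intCast]
  unfold bb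
  split_ifs with k
  · simpa using k
  · simpa using (sq_eq_sq_iff_eq_or_eq_neg.1 h).resolve_left k

theorem bb_sq (σ : ℂ ≃+* ℂ) : bb r σ * bb r σ = 1 := by
  unfold bb
  split_ifs <;> rfl

theorem bb_eq (r0 : r ≠ 0) (hr : r ^ 2 = d) {b : ℤ} (h : σ r = b * r) : bb r σ = b := by
  exact_mod_cast mul_right_cancel₀ r0 ((bb_spec hr σ).symm.trans h)

theorem ac_trans (r0 : r ≠ 0) (hr : r ^ 2 = d) (σ τ : ℂ ≃+* ℂ) (P : Pt) :
    ac r (σ.trans τ) P = ac r τ (ac r σ P) := by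
  have h : bb r (σ.trans τ) = bb r τ * bb r σ := bb_eq r0 hr (by
    rw [RingEquiv.trans_apply, bb_spec hr σ, map_mul, map_intCast, bb_spec hr τ]
    push_cast
    ring)
  rw [ac_apply, ac_apply, ac_apply, h, act_trans, map_zsmul, mul_zsmul]

theorem ac_cj (P : Pt) : ac r cj (ac r cj P) = P := by
  rw [ac_apply, ac_apply, map_zsmul, ← mul_zsmul, bb_sq, one_zsmul, cj_cj]

theorem ac_of (h : σ r = r) (P : Pt) : ac r σ P = act σ P := by
  rw [ac_apply, bb, if_pos h, one_zsmul]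

theorem sh_fix (he : Emb e δ) (hr : r ^ 2 = d) (a : ZMod 3) : ∃ σ, Sh e σ a ∧ σ r = r := by
  obtain ⟨σ, h⟩ := sh_ex he (-a)
  have h1 : ∀ a : ZMod 3, -a + -a = a := by decide
  refine ⟨σ.trans σ, h1 a ▸ sh_trans h h, ?_⟩
  rw [RingEquiv.trans_apply, bb_spec hr σ, map_mul, map_intCast, bb_spec hr σ, ← mul_assoc,
    ← Int.cast_mul, bb_sq, Int.cast_one, one_mul]

/-- The quotient of the norms is a power of a unit. -/
theorem norms (he : Emb e δ) (hε : Fu e ε) (N : ℕ) (G : ZMod 3 → ℂ) (g0 : ∀ k, G k ≠ 0)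
    (g1 : ∀ σ a, Sh e σ a → ∀ k, σ (G k) = G (k + a)) {u v : ZMod 3} {κ : ℝ}
    (hκ : ∀ k, Real.log ‖G k‖ = κ + 3 * N * Units.regulator L *
      ((if k = u then 1 else 0) - (if k = v then 1 else 0))) :
    G 0 * (G 1)⁻¹ * (G 1 * (G 2)⁻¹)⁻¹ = ((e (1 - u) ε / e (1 - v) ε) ^ (6 * N))⁻¹ := by
  have n0 := fun j => (log_unit he hε j).1
  obtain ⟨V, hV⟩ : ∃ V : ZMod 3 → ℂ, ∀ k, V k = e (k - u) ε / e (k - v) ε := ⟨_, fun _ => rfl⟩
  have v0 : ∀ k, V k ≠ 0 := fun k => hV k ▸ div_ne_zero (n0 _) (n0 _)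
  obtain ⟨q, hq⟩ : ∃ q : ZMod 3 → ℂ, ∀ k, q k = G k / V k ^ (2 * N) := ⟨_, fun _ => rfl⟩
  have q0 : ∀ k, q k ≠ 0 := fun k => hq k ▸ div_ne_zero (g0 _) (pow_ne_zero _ (v0 _))
  have q1 : ∀ k, Real.log ‖q k‖ = κ := fun k => by
    rw [hq, hV, norm_div, norm_pow, norm_div, Real.log_div (by simp [g0]) (by simp [n0]),
      Real.log_pow, Real.log_div (by simp [n0]) (by simp [n0]), (log_unit he hε _).2,
      (log_unit he hε _).2, hκ]
    simp only [sub_eq_zero]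
    push_cast
    ring
  have q2 : ∀ σ a, Sh e σ a → ∀ k, σ (q k) = q (k + a) := fun σ a hσ k => by
    rw [hq, hq, hV, hV, map_div₀, map_pow, map_div₀, g1 _ _ hσ, hσ, hσ, sub_add_eq_add_sub,
      sub_add_eq_add_sub]
  have q3 : ∀ k l, starRingEnd ℂ (q k / q l) = q l / q k := fun k l => by
    have h1 : ‖q k‖ = ‖q l‖ := Real.log_injOn_pos (by simp [q0]) (by simp [q0])
      ((q1 k).trans (q1 l).symm)
    have h2 : ‖q k / q l‖ = 1 := by rw [norm_div, h1, div_self (by simp [q0])]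
    rw [← Complex.inv_eq_conj h2, inv_div]
  obtain ⟨σ, hσ⟩ := he.ex
  have q4 : q 0 / q 1 = q 1 / q 2 := by
    have h1 : ((cj.trans σ).trans cj) (q 2 / q 0) = q 1 / q 2 := by
      rw [map_div₀, q2 _ _ (sh_cj he hσ), q2 _ _ (sh_cj he hσ)]
      rfl
    rw [RingEquiv.trans_apply, RingEquiv.trans_apply, cj_apply, cj_apply, q3, map_div₀,
      q2 _ _ hσ, q2 _ _ hσ, q3] at h1
    exact h1
  have v1 : V 0 * V 1 * V 2 = 1 := by
    have h1 : ∀ w : ZMod 3, e (0 - w) ε * e (1 - w) ε * e (2 - w) ε = 1 := fun w => by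
      rw [← hε.2.2, ← (Equiv.subRight w).prod_comp]
      exact (Fin.prod_univ_three fun i : ZMod 3 => e (i - w) ε).symm
    rw [hV, hV, hV, div_mul_div_comm, div_mul_div_comm, h1, h1, div_one]
  have v2 : V 0 ^ (2 * N) * V 1 ^ (2 * N) * V 2 ^ (2 * N) = 1 := by
    rw [← mul_pow, ← mul_pow, v1, one_pow]
  rw [← hV, show 6 * N = 2 * N * 3 by ring, pow_mul]
  rw [hq, hq, hq] at q4
  have w0 := pow_ne_zero (2 * N) (v0 0)
  have w1 := pow_ne_zero (2 * N) (v0 1)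
  have w2 := pow_ne_zero (2 * N) (v0 2)
  have := g0 0
  have := g0 1
  have := g0 2
  generalize V 0 ^ (2 * N) = A at *
  generalize V 1 ^ (2 * N) = B at *
  generalize V 2 ^ (2 * N) = C at *
  field_simp
  field_simp at q4
  linear_combination B * q4 + G 1 ^ 2 * v2

/-- If the candidates are torsion, an odd multiple of the second difference vanishes. -/
theorem tors (hT : TorSt) (he : Emb e δ) (r0 : r ≠ 0) (hr : r ^ 2 = d) (P : ZMod 3 → Pt)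
    (hP : ∀ σ a, Sh e σ a → ∀ k, ac r σ (P k) = P (k + a)) (hN : ¬ NtD e r) :
    ∃ m : ℕ, Odd m ∧ m • (P 0 + -P 1 + -(P 1 + -P 2)) = 0 := by
  obtain ⟨Q, hQ⟩ : ∃ Q : ZMod 3 → Pt, ∀ k, Q k = P k + -P (k + 1) := ⟨_, fun _ => rfl⟩
  have q1 : ∀ σ a, Sh e σ a → ∀ k, ac r σ (Q k) = Q (k + a) := fun σ a hσ k => by
    rw [hQ, hQ, map_add, map_neg, hP _ _ hσ, hP _ _ hσ, add_right_comm k 1 a]
  have q0 : ∀ σ a, Sh e σ a → ∀ k, ac r σ (ac r cj (Q k)) = ac r cj (Q (k + -a)) :=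
    fun σ a hσ k => by
      rw [← q1 _ _ (sh_cj he hσ) k, ac_trans r0 hr, ac_trans r0 hr, ac_cj]
  have z3 : ∀ k : ZMod 3, k + 1 + 1 + 1 = k ∧ k + -1 + -1 = k + 1 ∧ k + -1 = k + 1 + 1 := by decide
  have s0 : ∀ k, Q k + Q (k + 1) + Q (k + 1 + 1) = 0 := fun k => by
    rw [hQ, hQ, hQ, (z3 k).1]
    abel
  have q2 : ∀ k, IsOfFinAddOrder (Q k + ac r cj (Q k)) := fun k => by
    by_contra hk
    have h0 : ∀ τ, Sh e τ 0 → ac r τ (Q k + ac r cj (Q k)) = Q k + ac r cj (Q k) :=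
      fun τ hτ => by rw [map_add, q1 _ _ hτ, q0 _ _ hτ, neg_zero, add_zero]
    have h1 : ∀ τ : ℂ ≃+* ℂ, (∀ y, τ (e 0 y) = e 0 y) →
        ac r τ (Q k + ac r cj (Q k)) = Q k + ac r cj (Q k) := fun τ hτ =>
      (dich he hτ).elim (h0 τ) fun k' => by
        have h1 := congrArg (ac r cj) (h0 _ k')
        rw [ac_trans r0 hr, ac_cj, map_add (ac r cj), ac_cj, add_comm (ac r cj (Q k))] at h1
        exact h1
    refine hN ⟨_, hk, fun τ b hτ hb => ?_, fun σ hσ k' => ?_⟩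
    · rw [← bb_eq r0 hr hb, ← congrArg (bb r τ • ·) (h1 τ hτ), ac_apply (σ := τ), ← mul_zsmul,
        bb_sq, one_zsmul]
    · simp only [← ac_of k', map_add, q1 _ _ hσ, q0 _ _ hσ]
      have h2 := congrArg (ac r cj) (s0 k)
      rw [map_add, map_add, map_zero] at h2
      rw [(z3 k).2.1, (z3 k).2.2]
      rw [← add_zero (0 : Pt)]
      exact Eq.trans (by abel) (congrArg₂ (· + ·) (s0 k) h2)
  obtain ⟨σ, hσ, k'⟩ := sh_fix he hr 1
  have q3 : ∀ k, IsOfFinAddOrder (Q (k + 1) + -Q (k + -1)) := fun k => by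
    have h1 := (ac r ((cj.trans σ).trans cj)).isOfFinAddOrder (q2 k)
    rw [map_add, q1 _ _ (sh_cj he hσ), q0 _ _ (sh_cj he hσ), neg_neg] at h1
    have h2 := (q2 (k + 1)).add h1.neg
    rwa [show ∀ a b c : Pt, a + b + -(c + b) = a + -c from fun a b c => by abel] at h2
  have q4 : IsOfFinAddOrder (Q 0) := by
    have h1 : Q 0 + Q 1 + Q 2 = 0 := s0 0
    have h2 : IsOfFinAddOrder (Q 0 + -Q 1) := q3 2
    have h3 : IsOfFinAddOrder (Q 2 + -Q 0) := q3 1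
    refine IsOfFinAddOrder.of_nsmul (n := 3) ?_ (by norm_num)
    have h4 := h2.add h3.neg
    rwa [show ∀ a b c : Pt, a + -b + -(c + -a) = 3 • a - (a + b + c) from fun a b c => by abel, h1,
      sub_zero] at h4
  obtain ⟨n, n0, n1⟩ := isOfFinAddOrder_iff_nsmul_eq_zero.1 q4
  obtain ⟨k, m, m1, rfl⟩ := Nat.exists_eq_two_pow_mul_odd n0.ne'
  refine ⟨m, m1, ?_⟩
  have h1 := hT σ k (m • Q 0) (by rw [← mul_nsmul', n1]) (by
    simp only [← ac_of k', map_nsmul, q1 _ _ hσ]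
    rfl)
  rw [← ac_of k', map_nsmul, q1 _ _ hσ, hQ, hQ] at h1
  rw [nsmul_add, neg_nsmul, add_neg_eq_zero]
  exact h1.symm

end Pool.Agent.T17.NtC

namespace Pool.Agent.T17

open NtC

theorem ntC : NtCSt := by
  intro h4 hT L _ _ e δ r d ε n I _ y ψ w hodd hn d0 hr he hε h
  have r0 : r ≠ 0 := fun k => d0 (by exact_mod_cast (hr.symm.trans (by simp [k]) : (d : ℂ) = 0))
  refine or_iff_not_imp_left.2 fun hN => ?_
  obtain ⟨m, m1, m2⟩ := NtC.tors hT he r0 hr (fun k => ∑ i with ψ i = k, w i • y i)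
    (fun σ a hσ k => by
      obtain ⟨π, hπ⟩ := h.gal σ a hσ
      rw [map_sum]
      refine Finset.sum_equiv π (fun i => by simp [(hπ i).2.1]) fun i _ => ?_
      have h1 : w (π i) = w i * bb r σ := by
        have := (hπ i).2.2
        rw [bb_spec hr σ, ← mul_assoc] at this
        exact_mod_cast mul_right_cancel₀ r0 this
      rw [map_zsmul, ac_apply, (hπ i).1, h1, mul_zsmul]) hN
  obtain ⟨u, v, κ, huv, hκ⟩ := h.abs
  have hG := NtC.norms he hε (n * classNumber L) (GG y ψ)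
    (fun k => Finset.prod_ne_zero_iff.2 fun i _ => h4.1 _) (fun σ a hσ k => by
      obtain ⟨π, hπ⟩ := h.gal σ a hσ
      rw [GG, GG, map_prod]
      exact Finset.prod_equiv π (fun i => by simp [(hπ i).2.1]) fun i _ => by
        rw [← h4.2.1, (hπ i).1]) (u := u) (v := v) (κ := κ) fun k => by
      rw [Nat.cast_mul]; exact hκ k
  have n0 := fun j => (log_unit he hε j).1
  obtain ⟨M, hM⟩ : ∃ M : ZMod 3 → Pt, ∀ k, M k = ∑ i with ψ i = k, if w i = 1 then 0 else y i :=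
    ⟨_, fun _ => rfl⟩
  have M1 : ∀ k, ∑ i with ψ i = k, w i • y i = PP y ψ k - (M k + M k) := fun k => by
    rw [hM, PP, ← Finset.sum_add_distrib, ← Finset.sum_sub_distrib]
    refine Finset.sum_congr rfl fun i _ => ?_
    rcases h.sg i with k | k <;> simp [k]
  have M2 : ∀ σ, Sh e σ 0 → σ r = r → ∀ k, act σ (M k) = M k := fun σ hσ k' k => by
    obtain ⟨π, hπ⟩ := h.gal σ 0 hσ
    rw [hM, map_sum]
    refine Finset.sum_equiv π (fun i => by simp [(hπ i).2.1]) fun i _ => ?_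
    have h1 : w (π i) = w i := by
      have := (hπ i).2.2
      rw [k'] at this
      exact_mod_cast mul_right_cancel₀ r0 this
    rw [h1, apply_ite (act σ), map_zero, (hπ i).1]
  obtain ⟨R, hR⟩ : ∃ R, R = m • (M 0 + -M 1 + -(M 1 + -M 2)) := ⟨_, rfl⟩
  have R1 : ∀ σ, Sh e σ 0 → σ r = r → act σ R = R := fun σ hσ k => by
    simp only [hR, map_nsmul, map_add, map_neg, M2 σ hσ k]
  have R2 : m • (PP y ψ 0 + -PP y ψ 1 + -(PP y ψ 1 + -PP y ψ 2)) + -(R + R) = 0 := by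
    rw [← m2, M1, M1, M1, hR, ← nsmul_add, ← neg_nsmul, ← nsmul_add]
    congr 1
    abel
  let H : Set (ℂ ≃+* ℂ) := {σ | Sh e σ 0 ∧ σ r = r ∧ ∀ i, act σ (y i) = y i}
  have a0 : ∀ k, Rel H (PP y ψ k) (GG y ψ k) := fun k => Rel.sum h4 (fun i σ k => k.2.2 i) _
  have a1 : Rel H R (tt R) :=
    ⟨fun σ k => R1 σ k.1 k.2.1, 1, one_ne_zero, fun _ _ => map_one _, by ring⟩
  have a2 := ((((a0 0).add h4 ((a0 1).neg h4)).add h4
    (((a0 1).add h4 ((a0 2).neg h4)).neg h4)).nsmul h4 m).add h4 ((a1.add h4 a1).neg h4)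
  rw [R2, hG] at a2
  obtain ⟨-, c, c0, c1, c2⟩ := a2
  obtain ⟨l, hl⟩ : Odd (3 * (n * classNumber L) * m) :=
    ((by decide : Odd 3).mul (hn.mul hodd)).mul m1
  obtain ⟨V, hV⟩ : ∃ V : ZMod 3 → ℂ, ∀ k, V k = e (k - u) ε / e (k - v) ε := ⟨_, fun _ => rfl⟩
  have v0 : ∀ k, V k ≠ 0 := fun k => hV k ▸ div_ne_zero (n0 _) (n0 _)
  have v1 : ∀ σ a, Sh e σ a → ∀ k, σ (V k) = V (k + a) := fun σ a hσ k => by
    rw [hV, hV, map_div₀, hσ, hσ, sub_add_eq_add_sub, sub_add_eq_add_sub]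
  rw [← hV, tt_zero, one_mul, inv_pow, ← pow_mul,
    show 6 * (n * classNumber L) * m = (2 * l + 1) * 2 by rw [← hl]; ring] at c2
  obtain ⟨x, hx⟩ : ∃ x, x = V 1 ^ l * c := ⟨_, rfl⟩
  have x0 : x ≠ 0 := hx ▸ mul_ne_zero (pow_ne_zero _ (v0 1)) c0
  have x1 : ∀ σ ∈ H, σ x = x := fun σ k => by
    rw [hx, map_mul, map_pow, v1 _ _ k.1, add_zero, c1 σ k]
  have t0 := h4.1 R
  have x2 : (V 1 * tt R * x ^ 2) ^ 2 = 1 := by
    have := mul_ne_zero (pow_ne_zero ((2 * l + 1) * 2) (v0 1)) (mul_ne_zero t0 t0)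
    rw [← mul_inv_cancel₀ this, mul_inv, c2, hx]
    ring
  have x3 : ∀ σ : ℂ ≃+* ℂ, σ (V 1 * tt R * x ^ 2) = V 1 * tt R * x ^ 2 := fun σ => by
    rcases sq_eq_sq_iff_eq_or_eq_neg.1 (x2.trans (one_pow 2).symm) with k | k <;> simp [k]
  have cn : ∀ {σ τ a}, Sh e σ a → σ r = r → Sh e τ 0 → τ r = r →
      Sh e ((σ.trans τ).trans σ.symm) 0 ∧ ((σ.trans τ).trans σ.symm) r = r :=
    fun k1 k2 k3 k4 => ⟨by simpa using sh_trans (sh_trans k1 k3) (sh_symm k1), by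
      rw [RingEquiv.trans_apply, RingEquiv.trans_apply, k2, k4, RingEquiv.symm_apply_eq, k2]⟩
  have cP : ∀ {σ a} {P : Pt}, Sh e σ a → σ r = r → (∀ τ, Sh e τ 0 → τ r = r → act τ P = P) →
      ∀ τ, Sh e τ 0 → τ r = r → act τ (act σ P) = act σ P := fun {σ a P} k1 k2 k τ k3 k4 => by
    have h1 := congrArg (act σ) (k _ (cn k1 k2 k3 k4).1 (cn k1 k2 k3 k4).2)
    rw [act_trans, act_trans] at h1
    simpa using (act_symm σ.symm _).symm.trans h1
  obtain ⟨σ, hσ, sr⟩ := sh_fix he hr 1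
  have w1 : ∀ τ, Sh e τ 0 → τ r = r → τ (σ x / x) = σ x / x := fun τ hτ tr => by
    have h1 := x1 ((σ.trans τ).trans (τ.trans σ).symm) ⟨by
      simpa using sh_trans (sh_trans hσ hτ) (sh_symm (sh_trans hτ hσ)), by
      simp [RingEquiv.symm_apply_eq, sr, tr], fun i => by
      rw [act_trans, act_trans, h.comm _ _ _ _ hτ hσ, ← act_trans τ σ, act_symm]⟩
    rw [RingEquiv.trans_apply, RingEquiv.symm_apply_eq, RingEquiv.trans_apply,
      RingEquiv.trans_apply] at h1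
    have h2 := x3 τ
    rw [map_mul, map_mul, v1 _ _ hτ, add_zero, map_pow, ← h4.2.1, R1 τ hτ tr] at h2
    rw [map_div₀, h1]
    rcases sq_eq_sq_iff_eq_or_eq_neg.1 (mul_left_cancel₀ (mul_ne_zero (v0 1) t0) h2) with k | k <;>
      rw [k]
    rw [map_neg, neg_div_neg_eq]
  have R3 := cP hσ sr R1
  obtain ⟨g, g0, g1, g2⟩ := h4.2.2 R (act σ R)
  obtain ⟨z, z1, z2⟩ : ∃ z : ℂ, (∀ τ, Sh e τ 0 → τ r = r → τ z = z) ∧
      V 1 / V 2 * tt (R + act σ R) = z ^ 2 := by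
    refine ⟨σ x / x * tt (act σ R) / g ^ 2, fun τ k1 k2 => ?_, ?_⟩
    · rw [map_div₀, map_mul, map_pow, w1 τ k1 k2, ← h4.2.1, R3 τ k1 k2,
        g2 τ (R1 τ k1 k2) (R3 τ k1 k2)]
    · have h2 := x3 σ
      rw [map_mul, map_mul, v1 _ _ hσ, map_pow, ← h4.2.1, show (1 + 1 : ZMod 3) = 2 from rfl] at h2
      have := v0 2
      field_simp
      linear_combination -V 1 * x ^ 2 * g1 - tt (act σ R) * h2
  have R4 : ∀ τ, Sh e τ 0 → τ r = r → act τ (R + act σ R) = R + act σ R := fun τ k1 k2 => by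
    rw [map_add, R1 τ k1 k2, R3 τ k1 k2]
  generalize R + act σ R = S at z2 R4
  have key : ∀ (j : ZMod 3) (z : ℂ), (∀ τ, Sh e τ 0 → τ r = r → τ z = z) →
      e j ε * tt S = z ^ 2 → Bad e r ε := fun j z k1 k2 => by
    obtain ⟨ρ, p1, p2⟩ := sh_fix he hr (-j)
    refine ⟨act ρ S, ρ z, fun τ k3 k4 => ⟨cP p1 p2 R4 τ k3 k4, ?_⟩, ?_⟩
    · simpa [RingEquiv.symm_apply_eq] using k1 _ (cn p1 p2 k3 k4).1 (cn p1 p2 k3 k4).2
    · rw [h4.2.1, ← map_pow, ← k2, map_mul, p1, add_neg_cancel]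
  have h1 : e (0 - u) ε * e (1 - u) ε * e (2 - u) ε = 1 := by
    rw [← hε.2.2, ← (Equiv.subRight u).prod_comp]
    exact (Fin.prod_univ_three fun i : ZMod 3 => e (i - u) ε).symm
  have h3 : ∀ u v : ZMod 3, u ≠ v →
      (1 - v = 0 - u ∧ 2 - v = 1 - u) ∨ (1 - v = 2 - u ∧ 2 - v = 0 - u) := by decide
  have b0 := n0 (0 - u)
  have b1 := n0 (1 - u)
  have b2 := n0 (2 - u)
  rw [hV, hV] at z2
  rcases h3 u v huv with ⟨k1, k2⟩ | ⟨k1, k2⟩ <;> rw [k1, k2] at z2 <;> field_simp at z2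
  · refine key (1 - u) (z / e (1 - u) ε) (fun τ hτ tr => by
      rw [map_div₀, z1 τ hτ tr, hτ, add_zero]) ?_
    field_simp
    linear_combination e (1 - u) ε * z2 + z ^ 2 * h1
  · refine key (2 - u) (z * e (2 - u) ε ^ 2) (fun τ hτ tr => by
      rw [map_mul, map_pow, z1 τ hτ tr, hτ, add_zero]) ?_
    linear_combination e (2 - u) ε ^ 2 * z2 - e (2 - u) ε * tt S * h1

end Pool.Agent.T17
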