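import Pool.Agent.Lib.MP_02f36d_nt.T17.St
import Pool.Agent.Lib.MP_9177b7_ag.CM.Main2

/-! The rank grows by one: assembly of the steps. -/

set_option autoImplicit false

open NumberField
open scoped Pointwise Classical
open Pool.Agent.Lib.MP_9177b7_ag.CM (IsLat sp)
open Pool.Agent.C17

noncomputable section

namespace Pool.Agent.T17

namespace RankL

theorem alg {A B : Type} [AddCommGroup A] [AddCommGroup B] [Module.Finite ℤ A] (m : B →+ A)
    (hm : Function.Injective m) (g : A)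
    (h1 : ∀ P : A, ∃ (T : B) (Q : A), P = m T + 2 • Q ∨ P = g + m T + 2 • Q)
    (h2 : ∃ P : A, ∀ N : ℕ, N ≠ 0 → N • P ∉ m.range) :
    Module.finrank ℤ A = Module.finrank ℤ B + 1 := by
  let S : Submodule ℤ A := LinearMap.range m.toIntLinearMap
  have e1 : Module.finrank ℤ S = Module.finrank ℤ B := LinearMap.finrank_range_of_inj hm
  have e2 := S.finrank_quotient_add_finrank
  have hS : ∀ T, S.mkQ (m T) = 0 := fun T => (Submodule.Quotient.mk_eq_zero S).2 ⟨T, rfl⟩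
  have e3 : Module.finrank ℤ (A ⧸ S) = 1 := by
    refine le_antisymm ?_ (Nat.pos_of_ne_zero fun h0 => ?_)
    · let H := (nsmulAddMonoidHom (α := A ⧸ S) 2).range ⊔ AddCommGroup.torsion (A ⧸ S)
      have hG : AddGroup.FG (A ⧸ S) := Module.Finite.iff_addGroup_fg.1 inferInstance
      have hs : Function.Surjective fun j : Bool =>
          ((if j then S.mkQ g else 0 : A ⧸ S) : (A ⧸ S) ⧸ H) := by
        intro x
        obtain ⟨y, rfl⟩ := QuotientAddGroup.mk_surjective x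
        obtain ⟨P, rfl⟩ := S.mkQ_surjective y
        obtain ⟨T, Q, h | h⟩ := h1 P
        · refine ⟨false, QuotientAddGroup.eq.2 (AddSubgroup.mem_sup_left ⟨S.mkQ Q, ?_⟩)⟩
          rw [h, map_add, hS, map_nsmul]
          simp
        · refine ⟨true, QuotientAddGroup.eq.2 (AddSubgroup.mem_sup_left ⟨S.mkQ Q, ?_⟩)⟩
          rw [h, map_add, map_add, hS, map_nsmul]
          simp
      have h3 : H.index ≤ 2 := (Nat.card_le_card_of_surjective _ hs).trans_eq (by simp)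
      rw [LocInv.index_eq hG] at h3
      exact (Nat.pow_le_pow_iff_right one_lt_two).1 (h3.trans_eq (pow_one 2).symm)
    · obtain ⟨P, hP⟩ := h2
      obtain ⟨k, k0, hk⟩ := Module.finrank_eq_zero_iff.1 h0 (S.mkQ P)
      rw [← map_smul] at hk
      obtain ⟨T, hT⟩ := (Submodule.Quotient.mk_eq_zero S).1 hk
      refine hP k.natAbs (Int.natAbs_ne_zero.2 k0) ?_
      rw [← natCast_zsmul]
      rcases Int.natAbs_eq k with h | h
      · exact ⟨T, h ▸ hT⟩
      · refine ⟨-T, ?_⟩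
        rw [map_neg, neg_eq_iff_eq_neg, ← neg_zsmul, ← h]
        exact hT
  omega

theorem inj {d : ℤ} {K K' : Type} [Field K] [Field K'] [DecidableEq K] [DecidableEq K']
    {f : K →+* K'} {m : Pd d K →+ Pd d K'} (h : IsMap f m) : Function.Injective m := by
  rw [injective_iff_map_eq_zero]
  rintro (_ | ⟨x, y, k⟩) h0
  · rfl
  · obtain ⟨h', e⟩ := h x y k
    rw [e] at h0
    cases h0

theorem lim (hk : HkSt) (hS : StepSt) {L : Type} [Field L] [NumberField L]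
    {e : ZMod 3 → L →+* ℂ} {δ : ℂ} {χ : Submodule ℤ ℂ → ZMod 3} (he : Emb e δ) (hχ : Lc e δ χ)
    (hl : Lim L δ χ) (c : ℕ) : Squarefree c → Odd c → (∀ p : ℕ, p.Prime → p ∣ c → Spl L δ χ p) →
      ∃ n, Odd n ∧ LimC L δ χ c n := by
  induction c using induction_on_primes with
  | zero => exact fun h => absurd h not_squarefree_zero
  | one =>
    refine fun _ _ _ => ⟨1, odd_one, fun I _ z hz k hk => ?_⟩
    have k1 : ∀ Λ, Prim δ 1 Λ ↔ Stb δ Λ := fun Λ =>
      ⟨fun h => ⟨h.1, by simpa using h.2.1⟩, fun h => ⟨h.1, by simpa using h.2, fun p c' hp e =>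
        absurd (Nat.eq_one_of_mul_eq_one_right e.symm) hp.one_lt.ne'⟩⟩
    have k2 : ∀ i, sp 1 (om δ) * sp (z i) 1 = sp (z i) 1 := fun i =>
      Pool.Agent.Lib.MP_9177b7_ag.CM.ord_mul_eq_iff.2 ((k1 _).1 (hz.1 i)).2
    simp only [k2, Nat.cast_one, one_mul]
    exact hl I z ⟨fun i => (k1 _).1 (hz.1 i), hz.2.1, fun Λ h => hz.2.2 Λ ((k1 _).2 h)⟩ k hk
  | prime_mul p c hp ih =>
    intro h1 h2 h3
    obtain ⟨a1, a2, a3⟩ := Nat.squarefree_mul_iff.1 h1
    obtain ⟨b1, b2⟩ := Nat.odd_mul.1 h2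
    obtain ⟨n, n1, n2⟩ := ih a3 b2 fun q hq h => h3 q hq (h.mul_left _)
    exact ⟨(p + 2) * n, (b1.add_even even_two).mul n1, hS hk L e δ χ c p n he hχ a3.ne_zero hp
      (hp.coprime_iff_not_dvd.1 a1) (h3 p hp (dvd_mul_right _ _)) n2⟩

theorem inert17 {L : Type} [Field L] [NumberField L] {d : ℤ}
    (h : (Ideal.span {(17 : 𝓞 L)}).IsPrime) (h' : Inert L d) : Inert L (17 * d) := by
  intro p hp hd
  rcases (Nat.prime_iff_prime_int.1 hp).dvd_or_dvd hd with k | k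
  · obtain rfl := (Nat.prime_dvd_prime_iff_eq hp (by norm_num : Nat.Prime 17)).1
      (Int.natCast_dvd_natCast.1 k)
    simpa using h
  · exact h' p hp k

end RankL

open RankL in
theorem rankOf (h1 : GalSt) (h2 : UnitPSt) (h3 : TrPSt) (h4 : CmSt) (h5 : KronSt) (h6 : IdSt)
    (h7 : HkSt) (h8 : StepSt) (h9 : HeegCSt) (h10 : FourSt) (h11 : TorSt) (h12 : NtCSt)
    (h13 : ValSt) (h14 : BadSt) (h15 : MapSt) (h16 : IsogSt) (h17 : LowSt) (h18 : NormSt)
    (h19 : ClsSt) (h20 : NewSt) : RankSt := by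
  intro L _ _ d hF hd hi
  obtain ⟨a1, a2, a3, a4, a5⟩ := id hF
  have d0 : d ≠ 0 := hd.1.ne_zero
  obtain ⟨e, δ, he⟩ := h1 L a1 a2 a3
  obtain ⟨u, hu⟩ := h2 L e δ a1 he
  obtain ⟨χ, hχ, hs⟩ := h3 L e δ hF he
  obtain ⟨n, n1, n2⟩ := lim h7 h8 he hχ (h6 h5 L e δ χ a1 he hχ) d.natAbs
    (Int.squarefree_natAbs.2 hd.1) (Int.natAbs_odd.2 (Int.odd_iff.2 (by have := hd.2.1; omega)))
    fun p hp h => hs p hp (hi p hp (Int.natCast_dvd.2 h))
  obtain ⟨r, hr, I, _, y, ψ, w, hy⟩ := h9 L e δ χ d n a3 he hχ (h4 L e δ χ he hχ) hd n2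
  have hN := (h12 h10 h11 L e δ r d _ n I y ψ w a5 n1 d0 hr he hu hy).resolve_right
    (h14 h10 h13 L e δ r d u a5 he hu hr hd.2.1)
  obtain ⟨m, hm⟩ := h15 d ℚ L (algebraMap ℚ L)
  obtain ⟨f, g, hg⟩ := h20 h18 h19 L d a1 a2 a5 hd (inert17 a4 hi) m hm
  exact alg m (inj hm) g hg (h17 h15 h16 L e δ r d d0 hr he hN m hm)

end Pool.Agent.T17
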