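import Pool.Agent.Lib.MP_02f36d_nt.T17.St
import Pool.Agent.Lib.MP_02f36d_nt.C17.Id

/-! One step in the conductor for the limit formula. -/

set_option autoImplicit false

open NumberField Finset UpperHalfPlane
open scoped Pointwise Classical MatrixGroups
open Pool.Agent.Lib.MP_9177b7_ag.CM
open Pool.Agent.C17

noncomputable section

namespace Pool.Agent.T17

namespace Step

/-- A point with given invariant. -/
def tj (x : ℂ) : ℍ := Function.surjInv hyp.eis.2.2.2.2.2.2.2 x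

theorem jH_tj (x : ℂ) : jH (tj x) = x := Function.surjInv_eq _ x

theorem lF_tj (τ : ℍ) : lF (tj (jH τ)) = lF τ := by
  obtain ⟨γ, h⟩ := hyp.jH_eq_iff.1 (jH_tj (jH τ)).symm
  have := SlashInvariantFormClass.norm_petersson_smul (k := 12) (τ := τ)
    (f := CuspForm.discriminant) (f' := CuspForm.discriminant) (g := (γ : GL (Fin 2) ℝ))
    (MonoidHom.mem_range.mpr ⟨γ, rfl⟩)
  have k : ∀ w : ℍ, ‖petersson 12 CuspForm.discriminant CuspForm.discriminant w‖ =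
      (w.im ^ 6 * ‖ModularForm.discriminant w‖) ^ 2 := fun w => by
    simp only [petersson, norm_mul, norm_zpow, Complex.norm_conj, Complex.norm_real,
      Real.norm_of_nonneg w.im_pos.le, CuspForm.coe_discriminant]
    norm_cast
    ring
  have p : ∀ w : ℍ, 0 ≤ w.im ^ 6 * ‖ModularForm.discriminant w‖ := fun w =>
    mul_nonneg (pow_nonneg w.im_pos.le _) (norm_nonneg _)
  rw [k, k] at this
  rw [h, lF, lF]
  exact congrArg _ ((pow_left_inj₀ (p _) (p _) two_ne_zero).1 this)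

variable {p c : ℕ} {τ : ℍ} {X Y Λ : Submodule ℤ ℂ} {δ u : ℂ} {t : ℤ}

theorem dn_eq (hp : p.Prime) (i : ℕ) : (p : ℂ) • sp (dn p i τ) 1 = sp (τ + i) p := by
  rw [smul_sp, Norm.coe_dn hp.ne_zero, mul_one, mul_div_cancel₀ _ (Nat.cast_ne_zero.2 hp.ne_zero)]

theorem nd (hp : p.Prime) (a : ℤ) : a * p ≠ 1 := fun e =>
  hp.one_lt.ne' (by exact_mod_cast Int.eq_one_of_mul_eq_one_left (by positivity) e)

theorem one_nm (hp : p.Prime) (i : ℕ) : (1 : ℂ) ∉ sp (τ + i) p := fun h => by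
  obtain ⟨a, b, e⟩ := mem_sp.1 h
  obtain ⟨rfl, h2⟩ := Lat.int_indep τ a (a * i + b * p) 0 1 (by push_cast; linear_combination e)
  exact nd hp b (by linear_combination h2)

theorem tau_nm (hp : p.Prime) (i : ℕ) (y : ℤ) : (τ : ℂ) + i ∉ sp (p * τ) y := fun h => by
  obtain ⟨a, b, e⟩ := mem_sp.1 h
  exact nd hp a (Lat.int_indep τ (a * p) (b * y) 1 i (by push_cast; linear_combination e)).1

theorem dn_inj {i j : ℕ} (hi : i < p) (hj : j < p) (h : sp (τ + i) p ≤ sp (τ + j) p) : i = j := by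
  obtain ⟨a, b, e⟩ := mem_sp.1 (h (left_mem_sp _ _))
  obtain ⟨rfl, h2⟩ := Lat.int_indep τ a (a * j + b * p) 1 i (by push_cast; linear_combination e)
  have : b = 0 := by
    by_contra z
    rcases lt_or_gt_of_ne z with z | z <;> nlinarith
  subst this
  omega

/-- The sublattices of index `p`. -/
def Bt (p : ℕ) (Λ X : Submodule ℤ ℂ) : Prop := (p : ℂ) • Λ < X ∧ X < Λ

theorem Bt.list (hp : p.Prime) (h : Bt p (sp τ 1) X) :
    X = sp (p * τ) 1 ∨ ∃ i < p, X = sp (τ + i) p := by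
  simpa only [dn_eq hp, Norm.coe_up hp.ne_zero] using Lat.l8 p τ X hp h.1 h.2

theorem Bt.eq (hp : p.Prime) (h : Bt p (sp τ 1) X) (h' : Bt p (sp τ 1) Y) (e : X ≤ Y) : X = Y := by
  rcases h.list hp with rfl | ⟨i, hi, rfl⟩ <;> rcases h'.list hp with rfl | ⟨j, hj, rfl⟩
  · rfl
  · exact absurd (e (right_mem_sp _ _)) (one_nm hp j)
  · exact absurd (e (left_mem_sp _ _)) (by simpa using tau_nm hp i 1)
  · rw [dn_inj hi hj e]

theorem hecke (hk : HkSt) (hp : p.Prime) : ∃ C : ℝ, ∀ τ : ℍ, ∃ B : Finset (Submodule ℤ ℂ),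
    (∀ X, X ∈ B ↔ Bt p (sp τ 1) X) ∧ ∑ X ∈ B, lF (tj (jL X)) = (p + 1) * lF τ + C := by
  obtain ⟨C, hC⟩ := hk p hp
  refine ⟨C, fun τ => ⟨insert (sp (p * τ) 1) ((range p).image fun i : ℕ => sp (τ + i) p),
    fun X => ⟨fun h => ?_, fun h => by simpa [eq_comm] using h.list hp⟩, ?_⟩⟩
  · rw [Bt, smul_sp, mul_one]
    rcases mem_insert.1 h with rfl | h
    · refine ⟨lt_of_le_of_ne (sp_le.2 ⟨left_mem_sp _ _, mem_sp.2 ⟨0, p, by simp⟩⟩) fun e => ?_,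
        lt_of_le_of_ne (sp_le.2 ⟨mem_sp.2 ⟨p, 0, by simp⟩, right_mem_sp _ _⟩) fun e => ?_⟩
      · refine one_nm (τ := τ) hp 0 ((sp_le.2 ⟨mem_sp.2 ⟨p, 0, by simp⟩, right_mem_sp _ _⟩ :
          sp (p * τ) p ≤ _) (e.ge (right_mem_sp _ _)))
      · exact tau_nm (τ := τ) hp 0 1 (by
          rw [Int.cast_one, e, Nat.cast_zero, add_zero]; exact left_mem_sp _ _)
    · obtain ⟨i, -, rfl⟩ := mem_image.1 h
      refine ⟨lt_of_le_of_ne (sp_le.2 ⟨mem_sp.2 ⟨p, -i, by push_cast; ring⟩, right_mem_sp _ _⟩)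
        fun e => ?_, lt_of_le_of_ne (sp_le.2 ⟨mem_sp.2 ⟨1, i, by simp⟩, mem_sp.2 ⟨0, p, by simp⟩⟩)
          fun e => one_nm hp i (e.ge (right_mem_sp _ _))⟩
      exact tau_nm (τ := τ) hp i p (by rw [Int.cast_natCast, e]; exact left_mem_sp _ _)
  · rw [sum_insert, sum_image fun i hi j hj e =>
      dn_inj (mem_range.1 hi) (mem_range.1 hj) e.le, ← hC, ← Norm.coe_up hp.ne_zero, hyp.jL_sp,
      lF_tj]
    · congr 1
      refine sum_congr rfl fun i _ => ?_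
      rw [← dn_eq hp, hyp.jL_smul _ (Nat.cast_ne_zero.2 hp.ne_zero), hyp.jL_sp, lF_tj]
    · intro h
      obtain ⟨i, -, e⟩ := mem_image.1 h
      exact one_nm hp i (e.ge (right_mem_sp _ _))

theorem cancel (hu : u ≠ 0) (h : u • X ≤ u • Y) : X ≤ Y := by
  simpa only [smul_smul, inv_mul_cancel₀ hu, one_smul] using smul_le_smul u⁻¹ h

theorem Bt.smul (hu : u ≠ 0) (h : Bt p Λ X) : Bt p (u • Λ) (u • X) :=
  have k : ∀ {A B : Submodule ℤ ℂ}, A < B → u • A < u • B := fun l =>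
    lt_of_le_not_ge (smul_le_smul u l.le) fun e => l.not_ge (cancel hu e)
  ⟨smul_comm u (p : ℂ) Λ ▸ k h.1, k h.2⟩

theorem st_smul (hu : u ≠ 0) (w : ℂ) : w • u • X ≤ u • X ↔ w • X ≤ X := by
  rw [smul_comm]
  exact ⟨cancel hu, smul_le_smul u⟩

theorem lat_of (h : IsLat X) (hu : u ≠ 0) (a : X ≤ Y) (b : u • Y ≤ X) : IsLat Y :=
  hyp.isLat_between h (hyp.isLat_smul h (inv_ne_zero hu)) a
    (cancel hu (by rwa [smul_smul, mul_inv_cancel₀ hu, one_smul]))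

theorem nat_le (m : ℕ) : (m : ℂ) • X ≤ X := fun z hz => by
  obtain ⟨y, hy, rfl⟩ := mem_smul_iff.1 hz
  exact_mod_cast Lat.int_mul_mem hy m

theorem st_mul {w : ℂ} (h : w • X ≤ X) (A : Submodule ℤ ℂ) : w • (A * X) ≤ A * X :=
  (smul_mul_right w A X).ge.trans (mul_le_mul_right h A)

theorem le_ord (w : ℂ) : X ≤ sp 1 w * X := by
  rw [sp_mul, one_smul]
  exact le_sup_left

theorem ord_le {w : ℂ} {m : ℕ} (h : ((m : ℂ) * w) • X ≤ X) : (m : ℂ) • (sp 1 w * X) ≤ X := by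
  rw [← smul_mul_left, smul_sp, sp_mul, mul_one]
  exact sup_le (nat_le m) h

/-- The primes of the order of conductor `c`. -/
def Pc (δ : ℂ) (c p : ℕ) (t : ℤ) : Submodule ℤ ℂ := sp p (c * om δ - (c * t : ℤ))

variable {L : Type} [Field L] [NumberField L] {e : ZMod 3 → L →+* ℂ}
  {χ : Submodule ℤ ℂ → ZMod 3}

variable (L) in
/-- The standing hypotheses. -/
structure Hy (e : ZMod 3 → L →+* ℂ) (δ : ℂ) (χ : Submodule ℤ ℂ → ZMod 3) (c p : ℕ) (t : ℤ) :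
    Prop where
  he : Emb e δ
  hχ : Lc e δ χ
  c0 : c ≠ 0
  hp : p.Prime
  pc : ¬ p ∣ c
  pD : ¬ (p : ℤ) ∣ discr L
  ht : (p : ℤ) ∣ t ^ 2 - t + (1 - discr L) / 4

theorem sq (he : Emb e δ) (c : ℕ) : ((c : ℂ) * om δ) ^ 2 =
    (c : ℤ) * ((c : ℂ) * om δ) - (c ^ 2 * ((1 - discr L) / 4) : ℤ) := by
  obtain ⟨n, hn⟩ : ∃ n : ℤ, discr L = 1 - 4 * n := ⟨(1 - discr L) / 4, by have := he.mod4; omega⟩
  have := he.sq
  rw [show (1 - discr L) / 4 = n by omega]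
  rw [hn] at this
  rw [om]
  push_cast at this ⊢
  linear_combination (c : ℂ) ^ 2 / 4 * this

theorem oo (he : Emb e δ) (c : ℕ) : ((c : ℂ) * om δ) • (sp 1 (c * om δ) * X) ≤ sp 1 (c * om δ) * X :=
  (smul_mul_left _ _ _).ge.trans (mul_le_mul_left (smul_ord_le (sq he c)) X)

theorem o1 (he : Emb e δ) : om δ • sp 1 (om δ) ≤ sp 1 (om δ) := by
  simpa using smul_ord_le (sq he 1)

theorem oc (he : Emb e δ) (c : ℕ) : sp 1 (om δ) * (sp 1 (c * om δ) * X) = sp 1 (om δ) * X := by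
  rw [← mul_assoc, mul_comm (sp 1 (om δ)), ord_mul_eq_iff.2]
  rw [← smul_smul]
  exact (nat_le c).trans (o1 he)

namespace Hy

variable (h : Hy L e δ χ c p t)
include h

theorem symm : Hy L e δ χ c p (1 - t) := { h with ht := by convert h.ht using 1; ring }

theorem p0 : (p : ℂ) ≠ 0 := Nat.cast_ne_zero.2 h.hp.ne_zero

theorem im : ((c : ℂ) * om δ).im ≠ 0 := by
  simpa [h.c0] using (IdAux.om_im h.he.im).ne'

theorem dv : (p : ℤ) ∣ (c * t) ^ 2 - c * (c * t) + c ^ 2 * ((1 - discr L) / 4) := by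
  exact (h.ht.mul_left (c ^ 2)).trans (dvd_of_eq (by ring))

theorem pp : Pc δ c p t * Pc δ c p (1 - t) = (p : ℂ) • sp 1 (c * om δ) := by
  have q := Nat.prime_iff_prime_int.1 h.hp
  have := prime_mul_bar (sq h.he c) h.im h.hp h.dv fun d => by
    rw [show (c : ℤ) ^ 2 - 4 * (c ^ 2 * ((1 - discr L) / 4)) = c ^ 2 * discr L by
      have := h.he.mod4
      rw [mul_left_comm, show 4 * ((1 - discr L) / 4) = 1 - discr L by omega]
      ring] at d
    exact (q.dvd_or_dvd d).elim (fun d => h.pc (by exact_mod_cast q.dvd_of_dvd_pow d)) h.pD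
  rw [bar_sp, map_sub, conj_omega (sq h.he c) h.im] at this
  rw [← this, Pc, Pc, map_natCast, map_intCast]
  congr 1
  rw [sp_comm, ← Lat.sp_neg, sp_comm]
  congr 1
  push_cast
  ring

theorem stb (a : IsLat Λ) (b : ((c : ℂ) * om δ) • Λ ≤ Λ) : Stb δ (sp 1 (om δ) * Λ) :=
  ⟨lat_of a (Nat.cast_ne_zero.2 h.c0) (le_ord _) (ord_le b),
    (smul_mul_left _ _ _).ge.trans (mul_le_mul_left (o1 h.he) Λ)⟩

theorem psi (a : Prim δ c Λ) (hu : u ≠ 0) :
    χ (sp 1 (om δ) * (u • Λ)) = χ (sp 1 (om δ) * Λ) := by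
  rw [smul_mul_right, h.hχ.smul _ _ (h.stb a.1 a.2.1) hu]

theorem op : sp 1 (om δ) * Pc δ c p t = sp p (om δ - t) := by
  have s : om δ • sp p (om δ - t) ≤ sp p (om δ - t) := by
    simpa using smul_prime_le (sq h.he 1) (l := p) (r := t) (by simpa using h.ht)
  refine le_antisymm ((mul_le_mul_right (sp_le.2 ⟨left_mem_sp _ _, mem_sp.2 ⟨0, c, by
    push_cast; ring⟩⟩) _).trans (ord_mul_eq_iff.2 s).le) (sp_le.2 ⟨le_ord _ (left_mem_sp _ _),
    Lat.mem_of_coprime h.hp (b := c) (by exact_mod_cast h.pc) ?_ (le_ord _ ?_)⟩)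
  · exact Submodule.mul_mem_mul_rev (mem_sp.2 ⟨-t, 1, by push_cast; ring⟩)
      (mem_sp.2 ⟨1, 0, by simp⟩)
  · exact mem_sp.2 ⟨0, 1, by push_cast; ring⟩

theorem le (b : ((c : ℂ) * om δ) • Λ ≤ Λ) : (p : ℂ) • Λ ≤ Pc δ c p t * Λ ∧ Pc δ c p t * Λ ≤ Λ := by
  have := prime_lt h.im h.hp (c * t)
  have e := ord_mul_eq_iff.2 b
  exact ⟨by simpa only [smul_mul_left, e, Pc] using mul_le_mul_left this.1.le Λ,
    (mul_le_mul_left this.2.le Λ).trans e.le⟩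

theorem ppl (b : ((c : ℂ) * om δ) • Λ ≤ Λ) :
    Pc δ c p t * (Pc δ c p (1 - t) * Λ) = (p : ℂ) • Λ := by
  rw [← mul_assoc, h.pp, smul_mul_left, ord_mul_eq_iff.2 b]

theorem prim (a : Prim δ c Λ) : Prim δ c (Pc δ c p t * Λ) :=
  ⟨hyp.isLat_between (hyp.isLat_smul a.1 h.p0) a.1 (h.le a.2.1).1 (h.le a.2.1).2, st_mul a.2.1 _,
    fun q c' hq e z => a.2.2 q c' hq e (by
      have := st_mul z (Pc δ c p (1 - t))
      rwa [mul_left_comm, h.ppl a.2.1, st_smul h.p0] at this)⟩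

theorem shift (a : Prim δ c Λ) : χ (sp 1 (om δ) * (Pc δ c p t * Λ)) =
    χ (sp p (om δ - t)) + χ (sp 1 (om δ) * Λ) := by
  have l := isLat_ord h.im
  have s := h.stb (Λ := Pc δ c p t) (hyp.isLat_between (hyp.isLat_smul l h.p0) l
    (prime_lt h.im h.hp _).1.le (prime_lt h.im h.hp _).2.le) (smul_prime_le (sq h.he c) h.dv)
  rw [← h.op, ← h.hχ.mul _ _ s (h.stb a.1 a.2.1), mul_mul_mul_comm, ord_mul_eq_iff.2 (o1 h.he)]

theorem neg (a : Prim δ c Λ) : χ (sp p (om δ - (1 - t : ℤ))) = -χ (sp p (om δ - t)) := by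
  have := h.shift (h.symm.prim a)
  rw [h.ppl a.2.1, h.psi a h.p0, h.symm.shift a] at this
  linear_combination -this

theorem bt (ν : χ (sp p (om δ - t)) ≠ 0) (a : Prim δ c Λ) : Bt p Λ (Pc δ c p t * Λ) := by
  have := h.shift a
  refine ⟨lt_of_le_of_ne (h.le a.2.1).1 fun e => ν ?_, lt_of_le_of_ne (h.le a.2.1).2 fun e => ν ?_⟩
  · rw [← e, h.psi a h.p0] at this
    linear_combination -this
  · rw [e] at this
    linear_combination -this

theorem two (ν : χ (sp p (om δ - t)) ≠ 0) (a : Prim δ c (sp τ 1)) (b : Bt p (sp τ 1) X)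
    (s : ((c : ℂ) * om δ) • X ≤ X) : X = Pc δ c p t * sp τ 1 ∨ X = Pc δ c p (1 - t) * sp τ 1 := by
  obtain ⟨x, hx, hx'⟩ := SetLike.exists_of_lt b.1
  have k : ∀ {t : ℤ}, Bt p (sp τ 1) (Pc δ c p t * sp τ 1) →
      (c * om δ - (c * t : ℤ)) * x ∉ (p : ℂ) • sp τ 1 → X = Pc δ c p t * sp τ 1 := fun {t} d z => by
    have i : Bt p (sp τ 1) (X ⊓ Pc δ c p t * sp τ 1) :=
      ⟨lt_of_le_not_ge (le_inf b.1.le d.1.le) fun y => z (y ⟨by
        rw [sub_mul]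
        exact X.sub_mem (s (mem_smul_iff.2 ⟨x, hx, rfl⟩)) (Lat.int_mul_mem hx _),
        Submodule.mul_mem_mul (right_mem_sp _ _) (b.2.le hx)⟩), inf_le_left.trans_lt b.2⟩
    exact (i.eq h.hp b inf_le_left).symm.trans (i.eq h.hp d inf_le_right)
  by_contra! H
  have q := Nat.prime_iff_prime_int.1 h.hp
  refine hx' (Lat.mem_of_coprime h.hp (b := c * (1 - 2 * t)) (fun d => ?_)
    (mem_smul_iff.2 ⟨x, b.2.le hx, rfl⟩) ?_)
  · refine (q.dvd_or_dvd d).elim (fun d => h.pc (by exact_mod_cast d)) fun d => h.pD ?_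
    have := h.he.mod4
    refine ((d.mul_left (1 - 2 * t)).sub (h.ht.mul_left 4)).trans (dvd_of_eq ?_)
    rw [mul_add, show 4 * ((1 - discr L) / 4) = 1 - discr L by omega]
    ring
  · convert Submodule.sub_mem _ (not_not.1 (mt (k (h.bt ν a)) H.1)) (not_not.1
      (mt (k (h.symm.bt (by rw [h.neg a]; exact neg_ne_zero.2 ν) a)) H.2)) using 1
    push_cast
    ring

theorem down (a : Prim δ c (sp τ 1)) (b : Bt p (sp τ 1) X) (s : ¬ ((c : ℂ) * om δ) • X ≤ X) :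
    sp 1 (c * om δ) * X = sp τ 1 ∧ Prim δ (p * c) X := by
  have l := (mul_le_mul_right b.2.le (sp 1 (c * om δ))).trans (ord_mul_eq_iff.2 a.2.1).le
  have e : sp 1 (c * om δ) * X = sp τ 1 := l.eq_of_not_lt fun z => s (ord_mul_eq_iff.1
    (b.eq h.hp ⟨b.1.trans_le (le_ord _), z⟩ (le_ord _)).symm)
  refine ⟨e, hyp.isLat_between (hyp.isLat_smul a.1 h.p0) a.1 b.1.le b.2.le, ?_,
    fun q c' hq d z => ?_⟩
  · rw [Nat.cast_mul, mul_assoc, ← smul_smul]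
    exact (smul_le_smul _ ((smul_le_smul _ b.2.le).trans a.2.1)).trans b.1.le
  · by_cases y : q = p
    · subst y
      exact s (Nat.eq_of_mul_eq_mul_left hq.pos d ▸ z)
    · obtain ⟨k, rfl⟩ := ((Nat.coprime_primes hq h.hp).2 y).dvd_of_dvd_mul_left ⟨c', d⟩
      obtain rfl : c' = p * k := Nat.eq_of_mul_eq_mul_left hq.pos (by rw [← d]; ring)
      have z' := st_mul z (sp 1 ((q * k : ℕ) * om δ))
      rw [e] at z'
      refine a.2.2 q k hq rfl fun w hw => ?_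
      obtain ⟨v, hv, rfl⟩ := mem_smul_iff.1 hw
      refine Lat.mem_of_coprime h.hp (b := q) (fun d => y ((Nat.prime_dvd_prime_iff_eq h.hp hq).1
        (by exact_mod_cast d)).symm) ?_ ?_
      · convert z' (mem_smul_iff.2 ⟨v, hv, rfl⟩) using 1
        push_cast
        ring
      · convert a.2.1 (mem_smul_iff.2 ⟨v, hv, rfl⟩) using 1
        push_cast
        ring

theorem up (a : Prim δ (p * c) X) : Prim δ c (sp 1 (c * om δ) * X) ∧
    Bt p (sp 1 (c * om δ) * X) X ∧ ¬ ((c : ℂ) * om δ) • X ≤ X := by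
  have s := a.2.2 p c h.hp rfl
  have l : (p : ℂ) • (sp 1 (c * om δ) * X) ≤ X :=
    ord_le (by simpa only [Nat.cast_mul, mul_assoc] using a.2.1)
  refine ⟨⟨lat_of a.1 h.p0 (le_ord _) l, oo h.he c, fun q k hq d z => a.2.2 q (p * k) hq
    (by rw [d]; ring) ?_⟩, ⟨lt_of_le_of_ne l fun z => s ?_,
      lt_of_le_of_ne (le_ord _) fun z => s (ord_mul_eq_iff.1 z.symm)⟩, s⟩
  · rw [Nat.cast_mul, mul_assoc, ← smul_smul]
    exact (smul_le_smul _ ((smul_le_smul _ (le_ord _)).trans z)).trans l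
  · rw [← z, st_smul h.p0]
    exact oo h.he c

theorem unit (a : Prim δ c Λ) (e : u • Λ = Λ) : u • X = X := by
  obtain ⟨Λ', -, i⟩ := h.hχ.inv _ (h.stb a.1 a.2.1)
  rcases IdAux.unit_eq h.he (u := u) (by
    rw [← i, ← smul_mul_left, ← smul_mul_right, e]) with rfl | rfl
  · exact one_smul _ _
  · ext x
    rw [mem_smul_iff]
    exact ⟨fun ⟨y, hy, z⟩ => z ▸ by simpa using hy, fun hx => ⟨-x, X.neg_mem hx, by ring⟩⟩

variable {I : Type} [Fintype I] {z : I → ℍ} (hz : RepsC δ c z)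
include hz

omit h [Fintype I] in
theorem rep (a : Prim δ c Λ) : ∃ i, ∃ u : ℂ, u ≠ 0 ∧ sp (z i) 1 = u • Λ := by
  obtain ⟨i, hi⟩ := hz.2.2 Λ a
  exact ⟨i, hyp.eq_smul_of_jL_eq a.1 (hyp.isLat_sp _) (by rw [hyp.jL_sp, hi])⟩

omit h [Fintype I] in
theorem inj {i j : I} (hu : u ≠ 0) (e : sp (z j) 1 = u • sp (z i) 1) : i = j :=
  hz.2.1 (by simp only [← hyp.jL_sp, e, hyp.jL_smul _ hu])

theorem sum_shift (f : ℂ → ℝ) (k : ZMod 3) :
    ∑ i with χ (sp 1 (om δ) * sp (z i) 1) = k, f (jL (Pc δ c p t * sp (z i) 1)) =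
      ∑ i with χ (sp 1 (om δ) * sp (z i) 1) = χ (sp p (om δ - t)) + k, f (jH (z i)) := by
  choose π v v0 hπ using fun i => rep hz (h.prim (hz.1 i))
  have : Function.Injective π := fun i j e => by
    have a := congrArg (Pc δ c p (1 - t) * ·) ((hπ i).symm.trans (e ▸ hπ j))
    simp only [smul_mul_right, mul_left_comm (Pc δ c p (1 - t)), h.ppl (hz.1 _).2.1] at a
    refine inj hz (u := (v j * p)⁻¹ * (v i * p))
      (mul_ne_zero (inv_ne_zero (mul_ne_zero (v0 j) h.p0)) (mul_ne_zero (v0 i) h.p0)) ?_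
    rw [← smul_smul, ← smul_smul (v i), a, smul_smul (v j), smul_smul,
      inv_mul_cancel₀ (mul_ne_zero (v0 j) h.p0), one_smul]
  refine sum_equiv (Equiv.ofBijective π this.bijective_of_finite) (fun i => ?_) fun i _ => ?_
  · simp [hπ, h.psi (h.prim (hz.1 i)) (v0 i), h.shift (hz.1 i)]
  · rw [Equiv.ofBijective_apply, ← hyp.jL_sp, hπ, hyp.jL_smul _ (v0 i)]

theorem sum_up {I' : Type} [Fintype I'] {z' : I' → ℍ} (hz' : RepsC δ (p * c) z')
    (B : I → Finset (Submodule ℤ ℂ))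
    (hB : ∀ i X, X ∈ B i ↔ Bt p (sp (z i) 1) X ∧ ¬ ((c : ℂ) * om δ) • X ≤ X) (k : ZMod 3) :
    ∑ i with χ (sp 1 (om δ) * sp (z' i) 1) = k, lF (z' i) =
      ∑ i with χ (sp 1 (om δ) * sp (z i) 1) = k, ∑ X ∈ B i, lF (tj (jL X)) := by
  have D := fun i X (m : X ∈ B i) => h.down (hz.1 i) ((hB i X).1 m).1 ((hB i X).1 m).2
  choose g v v0 hg using fun (a : Σ _ : I, Submodule ℤ ℂ) (m : a.2 ∈ B a.1) =>
    rep hz' (D _ _ m).2
  have ps : ∀ a m, χ (sp 1 (om δ) * sp (z' (g a m)) 1) = χ (sp 1 (om δ) * sp (z a.1) 1) :=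
    fun a m => by
      rw [← h.psi (hz.1 a.1) (v0 a m), hg, ← (D _ _ m).1, ← smul_mul_right, oc h.he]
  rw [sum_sigma']
  refine (sum_bij (fun a m => g a (mem_sigma.1 m).2) (fun a m => ?_) (fun a m b m' e => ?_)
    (fun i m => ?_) fun a m => ?_).symm
  · simpa [ps] using (mem_sigma.1 m).1
  · obtain ⟨i, X⟩ := a
    obtain ⟨j, Y⟩ := b
    have m1 := (mem_sigma.1 m).2
    have m2 := (mem_sigma.1 m').2
    have w := mul_ne_zero (inv_ne_zero (v0 _ m2)) (v0 _ m1)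
    have y : Y = ((v _ m2)⁻¹ * v _ m1) • X := by
      rw [← smul_smul, ← hg _ m1, e, hg, smul_smul, inv_mul_cancel₀ (v0 _ m2), one_smul]
    have l : sp (z j) 1 = ((v _ m2)⁻¹ * v _ m1) • sp (z i) 1 := by
      rw [← (D _ _ m1).1, ← (D _ _ m2).1, ← smul_mul_right, ← y]
    obtain rfl := inj hz w l
    rw [y, h.unit (hz.1 i) l.symm]
  · obtain ⟨a1, a2, a3⟩ := h.up (hz'.1 i)
    obtain ⟨j, w, w0, hj⟩ := rep hz a1
    have m1 : w • sp (z' i) 1 ∈ B j := (hB _ _).2 ⟨hj ▸ a2.smul w0, by rwa [st_smul w0]⟩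
    have e : g ⟨j, _⟩ m1 = i :=
      (inj hz' (mul_ne_zero (v0 ⟨j, _⟩ m1) w0) (by rw [hg, smul_smul])).symm
    exact ⟨⟨j, _⟩, mem_sigma.2 ⟨by simpa [← ps ⟨j, _⟩ m1, e] using m, m1⟩, e⟩
  · rw [← lF_tj (z' _), ← hyp.jL_sp, hg, hyp.jL_smul _ (v0 _ _)]

end Hy

theorem reps (hc : ((c : ℂ) * om δ).im ≠ 0) :
    ∃ (I : Type) (_ : Fintype I) (z : I → ℍ), RepsC δ c z := by
  have : Finite {x // Prim δ c (sp (tj x) 1)} := (hyp.finite_Jset hc).subset fun x hx =>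
    ⟨_, hx.1, hx.2.1, by rw [hyp.jL_sp, jH_tj]⟩
  refine ⟨{x // Prim δ c (sp (tj x) 1)}, Fintype.ofFinite _, fun x => tj x, fun x => x.2,
    fun x y e => Subtype.ext (by simpa only [jH_tj] using e), fun Λ a => ⟨⟨jL Λ, ?_⟩, jH_tj _⟩⟩
  obtain ⟨u, hu, e⟩ := hyp.eq_smul_of_jL_eq a.1 (hyp.isLat_sp (tj (jL Λ)))
    (by rw [hyp.jL_sp, jH_tj])
  rw [e]
  exact ⟨hyp.isLat_smul a.1 hu, (st_smul hu _).2 a.2.1, fun q k hq d => by
    rw [st_smul hu]; exact a.2.2 q k hq d⟩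

end Step

open Step in
theorem step : StepSt := by
  intro hk L _ _ e δ χ c p n he hχ c0 hp pc ⟨pD, t, ht, ν⟩ lim I' _ z' hz' k hk0
  have h : Hy L e δ χ c p t := ⟨he, hχ, c0, hp, pc, pD, ht⟩
  obtain ⟨I, _, z, hz⟩ := reps h.im
  obtain ⟨C, hC⟩ := hecke hk hp
  choose B hB hS using fun i => hC (z i)
  obtain ⟨S, hS'⟩ : ∃ S : ZMod 3 → ℝ,
    ∀ k, S k = ∑ i with χ (sp 1 (om δ) * sp (z i) 1) = k, lF (z i) := ⟨_, fun _ => rfl⟩
  obtain ⟨N, hN⟩ : ∃ N : ZMod 3 → ℝ,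
    ∀ k, N k = ∑ i with χ (sp 1 (om δ) * sp (z i) 1) = k, 1 := ⟨_, fun _ => rfl⟩
  have l := lim I z hz
  simp only [← hS'] at l
  have n1 : ∀ k, N k = N (χ (sp p (om δ - t)) + k) := fun k => by
    rw [hN, hN, h.sum_shift hz (fun _ => 1) k]
  have key : ∀ k, ∑ i with χ (sp 1 (om δ) * sp (z' i) 1) = k, lF (z' i) = (p + 1) * S k +
      C * N k - S (χ (sp p (om δ - t)) + k) - S (-χ (sp p (om δ - t)) + k) := fun k => by
    have a := h.sum_shift hz (fun x => lF (tj x)) k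
    have b : ∑ i with χ (sp 1 (om δ) * sp (z i) 1) = k,
        lF (tj (jL (Pc δ c p (1 - t) * sp (z i) 1))) = S (-χ (sp p (om δ - t)) + k) := by
      rw [h.symm.sum_shift hz (fun x => lF (tj x)) k, hS']
      exact sum_congr (filter_congr fun i _ => by rw [h.neg (hz.1 i)]) fun i _ => lF_tj _
    simp only [lF_tj, ← hS'] at a
    rw [h.sum_up hz hz' (fun i => (B i).filter fun X => ¬ ((c : ℂ) * om δ) • X ≤ X)
      (fun i X => by rw [mem_filter, hB]) k, ← a, ← b, hS', hN, mul_sum, mul_sum, ← sum_add_distrib,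
      ← sum_sub_distrib, ← sum_sub_distrib]
    refine sum_congr rfl fun i _ => ?_
    have ν' : χ (sp p (om δ - (1 - t : ℤ))) ≠ 0 := by
      rw [h.neg (hz.1 i)]; exact neg_ne_zero.2 ν
    have d : (B i).filter (fun X => ((c : ℂ) * om δ) • X ≤ X) =
        {Pc δ c p t * sp (z i) 1, Pc δ c p (1 - t) * sp (z i) 1} := by
      ext X
      rw [mem_filter, hB, mem_insert, mem_singleton]
      refine ⟨fun m => h.two ν (hz.1 i) m.1 m.2, ?_⟩
      rintro (rfl | rfl)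
      exacts [⟨h.bt ν (hz.1 i), (h.prim (hz.1 i)).2.1⟩,
        ⟨h.symm.bt ν' (hz.1 i), (h.symm.prim (hz.1 i)).2.1⟩]
    have f := sum_filter_add_sum_filter_not (B i) (fun X => ((c : ℂ) * om δ) • X ≤ X)
      fun X => lF (tj (jL X))
    rw [d, sum_pair fun y => ?_, hS] at f
    · linear_combination f
    · have := h.symm.shift (hz.1 i)
      rw [← y, h.shift (hz.1 i), h.neg (hz.1 i), add_left_inj] at this
      exact (by decide : ∀ x : ZMod 3, x ≠ 0 → x ≠ -x) _ ν this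
  rw [key, key]
  generalize χ (sp p (om δ - t)) = v at ν n1
  have n2 : N k = N 0 := by
    rcases (by decide : ∀ k v : ZMod 3, k ≠ 0 → v ≠ 0 → k = v + 0 ∨ 0 = v + k) k v hk0 ν with y | y
    · rw [y, ← n1]
    · rw [y, ← n1]
  have l1 := l _ ν
  have l2 := l _ (neg_ne_zero.2 ν)
  rw [n2, add_zero, add_zero]
  push_cast
  rcases (by decide : ∀ k v : ZMod 3, k ≠ 0 → v ≠ 0 →
    (k = v ∧ v + k = -v ∧ -v + k = 0) ∨ (k = -v ∧ v + k = 0 ∧ -v + k = v)) k v hk0 ν with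
    ⟨y1, y2, y3⟩ | ⟨y1, y2, y3⟩
  · rw [y2, y3, y1]
    linear_combination (p + 2) * l1
  · rw [y2, y3, y1]
    linear_combination (p + 2) * l2

end Pool.Agent.T17
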