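import Pool.Agent.Lib.MP_02f36d_nt.T17.St
import Pool.Agent.Lib.MP_02f36d_nt.C17.Tr
import Pool.Agent.Lib.MP_02f36d_nt.C17.Tw
import Pool.Agent.Lib.MP_02f36d_nt.C17.Eul
import Pool.Agent.Lib.MP_02f36d_nt.C17.A1

/-! The cubic class character at inert primes, and the fundamental unit. -/

set_option autoImplicit false

open NumberField IsDedekindDomain
open scoped Pointwise Classical IsMulCommutative
open Pool.Agent.Lib.MP_9177b7_ag.CM
open Pool.Agent.Stark Pool.Agent.Stark.AR Pool.Agent.StarkStmt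
open Pool.Agent.C17

noncomputable section

namespace Pool.Agent.T17

open Eul in
theorem sevP {L K F : Type} [Field L] [NumberField L] [Field K] [NumberField K] [Field F]
    [NumberField F] [Algebra K F] [Algebra L F] {e : ZMod 3 → L →+* ℂ} {δ : ℂ} {j : F →+* ℂ} {d : K}
    {m : ZMod 3 → L →+* F} {s : (F ≃ₐ[K] F) → ZMod 3} (hL : Module.finrank ℚ L = 3) (E : Emb e δ)
    (T : Tw e δ j d m s) {p : ℕ} (hp : p.Prime) (h17 : (Ideal.span {(p : 𝓞 L)}).IsPrime) :
    ¬ (p : ℤ) ∣ discr L ∧ ∃ q : Pr K, Ideal.absNorm q.asIdeal = p ∧ fr K F q ≠ 1 := by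
  have h0 : Ideal.span {(p : 𝓞 L)} ≠ ⊥ := by simp [hp.ne_zero]
  constructor
  · refine (not_dvd_discr_iff_forall_liesOver L (𝓞 L) (Nat.prime_iff_prime_int.1 hp)).2 fun P hP hl => ?_
    have a : (Ideal.span {(p : ℤ)}).map (algebraMap ℤ (𝓞 L)) = Ideal.span {(p : 𝓞 L)} := by
      simp [Ideal.map_span]
    obtain rfl : Ideal.span {(p : 𝓞 L)} = P := (h17.isMaximal h0).eq_of_le hP.ne_top
      (a ▸ Ideal.map_le_of_le_comap hl.over.le)
    rw [← Ideal.ramificationIdx_eq_one_iff,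
      Ideal.IsDedekindDomain.ramificationIdx_eq_normalizedFactors_count _ _ (a ▸ h0), a,
      UniqueFactorizationMonoid.normalizedFactors_irreducible
        (Ideal.prime_of_isPrime h0 h17).irreducible, normalize_eq, Multiset.count_singleton_self]
  obtain ⟨τ, -, h2, h3⟩ := tau E T
  obtain ⟨P, hP⟩ := below_surj (K := F) (⟨_, h17, h0⟩ : Pr L)
  obtain ⟨t1, -, t3, -⟩ := tower T P
  have k1 : Ideal.absNorm (below ℚ (below L P)).asIdeal = p := by
    refine ((Nat.dvd_prime hp).1 ?_).resolve_left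
      (by have := FrobAux.two_le_absNorm (below ℚ (below L P)); omega)
    have a := Ideal.absNorm_span_natCast (S := 𝓞 ℚ) p
    rw [RingOfIntegers.rank, Module.finrank_self, pow_one] at a
    rw [← a, hP]
    refine Ideal.absNorm_dvd_absNorm_of_le ((Ideal.span_singleton_le_iff_mem _).2 ?_)
    change algebraMap (𝓞 ℚ) (𝓞 L) _ ∈ Ideal.span {(p : 𝓞 L)}
    rw [map_natCast]
    exact Ideal.mem_span_singleton_self _
  have k2 := (gal ℚ L).norm_eq (below L P)
  have k3 := Ideal.absNorm_span_natCast (S := 𝓞 L) p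
  rw [RingOfIntegers.rank, hL] at k3
  have k4 : fI ℚ (below L P) = 3 :=
    Nat.pow_right_injective hp.two_le (by
      rw [k1] at k2
      rw [hP] at k2 ⊢
      exact k2.symm.trans k3)
  have k5 : fr K F (below K P) ≠ 1 := fun h => by
    have a := (Finset.single_le_sum (f := fun q => eI ℚ q * fI ℚ q) (fun _ _ => Nat.zero_le _)
      (mem_ab.2 (rfl : below ℚ (below K P) = _))).trans_eq ((sum_ef K _).trans T.rK)
    have b := SplitAux.eI_pos (F := ℚ) (below K P)
    have c := (gal L F).fI_pos P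
    rw [h, orderOf_one, mul_one, k4] at t3
    simp only [t3] at a
    nlinarith
  exact ⟨_, by rw [(gal ℚ K).norm_eq, (split T h2 h3 P k5).2.2.1, t1, k1, pow_one], k5⟩

open Tr in
theorem trP : TrPSt := by
  intro L _ _ e δ hF he
  have hT := tw
  have hE := eul
  have hS := sev
  obtain ⟨K, F, _, _, _, _, _, _, j, d, m, s, hw⟩ := hT L e δ hF.1 hF.2.2.1 he
  have := hw.ab
  let ι : K →+* ℂ := j.comp (algebraMap K F)
  obtain ⟨ω, ho⟩ := exists_od (ι := ι) hw.rK hw.hd he.sq he.im he.mod4 hF.2.2.1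
  have hr : IsEmpty (K →+* ℝ) := ⟨fun φ => by
    have h1 : d ^ 2 = (discr L : K) := ι.injective (by
      rw [map_pow, map_intCast, ← he.sq]
      exact congrArg (· ^ 2) hw.hd)
    have h2 := congrArg φ h1
    rw [map_pow, map_intCast] at h2
    have h3 : (discr L : ℝ) < 0 := by exact_mod_cast hF.2.1
    exact (h2 ▸ h3).not_ge (sq_nonneg _)⟩
  have hu := hw.unr
  have s1 : s 1 = 0 := by
    have := hw.mul 1 1
    rw [mul_one] at this
    exact left_eq_add.1 this
  have c1 : ∀ {I : Ideal (𝓞 K)}, I ≠ ⊥ → ch ι s (lat ι I) = s (artin K F I) := fun hI => by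
    have := ch_spec (ι := ι) (s := s) hu hr one_ne_zero hI
    rwa [one_smul] at this
  have pm : ∀ (a b : ℂ) (I J : Ideal (𝓞 K)),
      a • lat ι I * b • lat ι J = (a * b) • lat ι (I * J) := fun a b I J => by
    rw [Idl.sm_mul, Idl.mul_sm, smul_smul, lat_mul]
  let E : {I : Ideal (𝓞 K) // PrimeTo (∅ : Finset (Pr K)) I} ≃
      {Λ // Stb δ Λ ∧ Λ ≤ sp 1 (om δ)} :=
    Equiv.ofBijective (fun I => ⟨lat ι I.1, ho.stb I.2.1, ho.le _⟩)
      ⟨fun I J h => Subtype.ext (lat_inj (congrArg Subtype.val h)), fun Λ => by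
        obtain ⟨I, hI⟩ := ho.surj Λ.2.1.2 Λ.2.2
        exact ⟨⟨I, ne_bot (hI ▸ Λ.2.1.1), by simp⟩, Subtype.ext hI⟩⟩
  have hE1 : ∀ I, (E I).1 = lat ι I.1 := fun _ => rfl
  refine ⟨ch ι s, ⟨fun Λ c h hc => ?_, fun Λ Λ' h h' => ?_, fun Λ Λ' h h' => ?_, fun Λ h => ?_,
    ?_, fun t ht => ?_, fun t ht => ?_, ?_⟩, fun p hp hi => ?_⟩
  · obtain ⟨a, I, ha, hI, rfl⟩ := ho.rep h
    rw [smul_smul, ch_spec hu hr (mul_ne_zero hc ha) hI, ch_spec hu hr ha hI]
  · obtain ⟨a, I, ha, hI, rfl⟩ := ho.rep h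
    obtain ⟨b, J, hb, hJ, rfl⟩ := ho.rep h'
    rw [pm, ch_spec hu hr (mul_ne_zero ha hb) (mul_ne_zero hI hJ), ch_spec hu hr ha hI,
      ch_spec hu hr hb hJ, RecAux.artin_mul hI hJ, hw.mul]
  · obtain ⟨a, I, ha, hI, rfl⟩ := ho.rep h
    obtain ⟨b, J, hb, hJ, rfl⟩ := ho.rep h'
    rw [pm]
    exact stb_smul (ho.stb (mul_ne_zero hI hJ)) (mul_ne_zero ha hb)
  · obtain ⟨a, I, ha, hI, rfl⟩ := ho.rep h
    obtain ⟨x, hx, x0⟩ := Submodule.exists_mem_ne_zero_of_ne_bot hI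
    obtain ⟨J, hJ⟩ : I ∣ Ideal.span {x} :=
      Ideal.dvd_iff_le.2 ((Ideal.span_singleton_le_iff_mem _).2 hx)
    have J0 : J ≠ ⊥ := by
      rintro rfl
      exact x0 (by simpa using hJ)
    have p0 : ph ι x ≠ 0 := (map_ne_zero_iff _ (ph_inj ι)).2 x0
    refine ⟨(a * ph ι x)⁻¹ • lat ι J, stb_smul (ho.stb J0) (inv_ne_zero (mul_ne_zero ha p0)), ?_⟩
    rw [pm, ← hJ, ← Ideal.top_mul (Ideal.span {x}), lat_span, smul_smul, ho.top,
      show a * (a * ph ι x)⁻¹ * ph ι x = 1 by field_simp, one_smul]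
  · refine ⟨insert 0 (insert 1 (Set.range fun i => ph j (RingOfIntegers.basis F i))),
      ((Set.finite_range _).insert _).insert _, ?_, ?_⟩
    · rintro x (rfl | rfl | ⟨i, rfl⟩)
      · exact isAlgebraic_zero
      · exact isAlgebraic_one
      · exact (Algebra.IsAlgebraic.isAlgebraic (R := ℚ)
          ((RingOfIntegers.basis F i : 𝓞 F) : F)).algHom j.toRatAlgHom
    intro l r φ a A P hl hlr hφ h1 h2 h3 h4 h5 h6
    obtain ⟨g, hg, hj⟩ := hw.res φ a hφ
    obtain ⟨Q, q1, q2⟩ := exists_Q j hl (MulSemiringAction.toRingHom _ (𝓞 F) g) A P h1 h2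
      (fun i => h3 _ (Or.inr (Or.inr ⟨i, rfl⟩))) h4
      (fun h => one_ne_zero (h6 1 (Or.inr (Or.inl rfl)) 0 (Or.inl rfl) (by rwa [sub_zero])))
      fun i => by
        have := h5 _ (Or.inr (Or.inr ⟨i, rfl⟩))
        exact (hj (RingOfIntegers.basis F i) ▸ this :)
    have q3 : (l : 𝓞 K) ∈ (below K Q).asIdeal := by
      change algebraMap (𝓞 K) (𝓞 F) l ∈ Q.asIdeal
      rwa [map_natCast]
    have key : ∀ t : ℤ, ω - t ∈ (below K Q).asIdeal →
        Ideal.absNorm (below K Q).asIdeal = l ∧ s (artin K F (below K Q).asIdeal) = a :=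
      fun t ht => by
        have h7 := (ho.prime _ hl q3 ht).2
        refine ⟨h7, ?_⟩
        rw [art_prime, ← (hFr K F).uniq hw.ab Q g (hu Q (by simp)) (by rw [h7]; exact q2), hg]
    by_cases h7 : ω - r ∈ (below K Q).asIdeal
    · left
      rw [← (ho.prime _ hl q3 h7).1, c1 (below K Q).ne_bot, (key r h7).2]
    · right
      obtain ⟨n, hn⟩ := hlr
      have h8 : (ω - r) * (ω - (1 - r : ℤ)) ∈ (below K Q).asIdeal := by
        have h9 : ((r : 𝓞 K) ^ 2 - r + ((1 - discr L) / 4 : ℤ)) = l * n := by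
          exact_mod_cast congrArg (Int.cast : ℤ → 𝓞 K) hn
        rw [show (ω - r) * (ω - (1 - r : ℤ)) = -(n : 𝓞 K) * l by
          rw [Int.cast_sub, Int.cast_one]; linear_combination ho.eq - h9]
        exact Ideal.mul_mem_left _ _ q3
      obtain ⟨k1, k2⟩ := key _ (((below K Q).isPrime.mem_or_mem h8).resolve_left h7)
      obtain ⟨p, p1, p2⟩ := ho.exists_prime hl ⟨n, hn⟩
      obtain ⟨p3, p4⟩ := ho.prime p hl p1 p2
      have l0 : (l : 𝓞 K) ≠ 0 := Nat.cast_ne_zero.2 hl.ne_zero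
      have h9 : IsCoprime p.asIdeal (below K Q).asIdeal :=
        Ideal.isCoprime_iff_sup_eq.2 (p.isMaximal.coprime_of_ne (below K Q).isMaximal
          fun e => h7 (e ▸ p2))
      obtain ⟨M, hM⟩ := h9.mul_dvd
        (Ideal.dvd_iff_le.2 ((Ideal.span_singleton_le_iff_mem _).2 p1))
        (Ideal.dvd_iff_le.2 ((Ideal.span_singleton_le_iff_mem _).2 q3))
      have h10 := congrArg Ideal.absNorm hM
      rw [map_mul, map_mul, p4, k1, Ideal.absNorm_span_natCast, RingOfIntegers.rank, hw.rK,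
        sq] at h10
      have h11 : M = ⊤ := Ideal.absNorm_eq_one_iff.1
        (mul_left_cancel₀ (mul_ne_zero hl.ne_zero hl.ne_zero) (h10.symm.trans (mul_one _).symm))
      rw [h11, Ideal.mul_top] at hM
      have h12 := congrArg s (art_span hu hr l0)
      rw [hM, RecAux.artin_mul p.ne_bot (below K Q).ne_bot, hw.mul, k2, s1] at h12
      rw [← p3, c1 p.ne_bot]
      exact eq_neg_of_add_eq_zero_left h12
  · rw [← E.summable_iff]
    refine ((EulerAux.summable_real (F := K) ht).subtype _).congr fun I => ?_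
    simp only [Function.comp, hE1, ho.idx]
  · rw [hE L K F e δ j d m s hF.1 hF.2.2.1 he hw t ht, ← E.tsum_eq, Lfun]
    refine congrArg _ (tsum_congr fun I => ?_)
    rw [hE1, ho.idx, c1 I.2.1, cm_eq hw.mul]
  · obtain ⟨h1, q, h2, h3⟩ := hS L K F e δ j d m s hF he hw
    have p17 : Nat.Prime 17 := by norm_num
    obtain ⟨r, r1, r2, r3⟩ := ho.root q p17 h2
    refine ⟨r, r1, fun h => h1 ?_, ?_⟩
    · have h4 := he.mod4
      rw [show discr L = (2 * r - 1) * (2 * r - 1) - 4 * (r ^ 2 - r + (1 - discr L) / 4) by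
        rw [mul_add, show 4 * ((1 - discr L) / 4) = 1 - discr L by omega]; ring]
      exact (h.mul_left _).sub (Dvd.dvd.mul_left r1 4)
    · have h4 := (ho.prime q p17 r2 r3).1
      rw [Nat.cast_ofNat] at h4
      rw [← h4, c1 q.ne_bot, art_prime]
      exact fun h => h3 (hw.inj _ h)
  · obtain ⟨h1, q, h2, h3⟩ := sevP hF.1 he hw hp hi
    obtain ⟨r, r1, r2, r3⟩ := ho.root q hp h2
    refine ⟨h1, r, r1, ?_⟩
    rw [← (ho.prime q hp r2 r3).1, c1 q.ne_bot, art_prime]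
    exact fun h => h3 (hw.inj _ h)

theorem unitP : UnitPSt := by
  intro L _ _ e δ h3 he
  have hd : discr L < 0 := by have := he.big; omega
  have hr := A1.rank_eq h3 hd
  have hs : Subsingleton (Fin (Units.rank L)) := by rw [hr]; infer_instance
  let i : Fin (Units.rank L) := ⟨0, by omega⟩
  have c1 : ComplexEmbedding.conjugate (e 0) = e 0 := RingHom.ext (he.cj 0)
  have c2 : ComplexEmbedding.conjugate (e 2) = e 1 := RingHom.ext (he.cj 2)
  have w0 : InfinitePlace.mk (e 0) ≠ InfinitePlace.mk (e 1) := fun k => by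
    rcases InfinitePlace.mk_eq_iff.1 k with k | k
    · exact absurd (he.inj k) (by decide)
    · exact absurd (he.inj (c1.symm.trans k)) (by decide)
  have w1 : ∀ w : {w // w ≠ InfinitePlace.mk (e 1)}, w = ⟨_, w0⟩ := fun w => by
    obtain ⟨j, hj⟩ := he.all w.1.embedding
    have h1 : w.1 = InfinitePlace.mk (e j) := by rw [← hj, InfinitePlace.mk_embedding]
    have h8 : ∀ a : ZMod 3, a = 0 ∨ a = 1 ∨ a = 2 := by decide
    rcases h8 j with rfl | rfl | rfl
    · exact Subtype.ext h1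
    · exact absurd h1 w.2
    · exact absurd (h1.trans (InfinitePlace.mk_eq_iff.2 (Or.inr c2))) w.2
  have : Subsingleton {w // w ≠ InfinitePlace.mk (e 1)} := ⟨fun a b => (w1 a).trans (w1 b).symm⟩
  let l : (𝓞 L)ˣ → ℝ := fun u => Real.log ‖e 0 ((u : 𝓞 L) : L)‖
  have n0 : ∀ u : (𝓞 L)ˣ, ‖e 0 ((u : 𝓞 L) : L)‖ ≠ 0 := fun u => by simp
  have l1 : ∀ u v, l (u * v) = l u + l v := fun u v => by
    simp only [l, Units.val_mul, map_mul, norm_mul, RingOfIntegers.coe_eq_algebraMap]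
    exact Real.log_mul (n0 u) (n0 v)
  have l2 : ∀ u (n : ℤ), l (u ^ n) = n * l u := fun u n => by
    have : (((u ^ n : (𝓞 L)ˣ) : 𝓞 L) : L) = ((u : 𝓞 L) : L) ^ n := Units.coe_zpow _ _
    simp only [l, this, map_zpow₀, norm_zpow, Real.log_zpow]
  have l3 : ∀ u, l (-u) = l u := fun u => by simp [l]
  have r1 : Units.regulator L = |l (Units.fundSystem L i)| := by
    rw [Units.regulator_eq_det L (InfinitePlace.mk (e 1))
      ⟨fun _ => i, fun _ => ⟨_, w0⟩, fun _ => Subsingleton.elim _ _, fun _ => Subsingleton.elim _ _⟩,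
      Matrix.det_eq_elem_of_subsingleton _ ⟨_, w0⟩, Matrix.of_apply,
      InfinitePlace.mult_isReal ⟨_, InfinitePlace.isReal_mk_iff.2
        (ComplexEmbedding.isReal_iff.2 c1)⟩]
    simp [l, InfinitePlace.apply]
  have r2 : ∀ u, ∃ n : ℤ, l u = n * l (Units.fundSystem L i) := fun u => by
    obtain ⟨⟨ζ, n⟩, k, -⟩ := Units.exist_unique_eq_mul_prod L u
    rw [Fintype.prod_subsingleton _ i] at k
    refine ⟨n i, ?_⟩
    rcases Units.torsion_eq_one_or_neg_one_of_odd_finrank (h3 ▸ (by decide : Odd 3)) ζ with h | h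
    · rw [k, ← l2]; simp [h]
    · rw [k, ← l2, ← l3]; simp [h]
  have re : ∀ x, e 0 x = (e 0 x).re := fun x => (Complex.conj_eq_iff_re.1 (he.cj 0 x)).symm
  obtain ⟨u, u1⟩ : ∃ u, l u = Units.regulator L := by
    rcases abs_choice (l (Units.fundSystem L i)) with k | k
    · exact ⟨_, (r1.trans k).symm⟩
    · exact ⟨Units.fundSystem L i ^ (-1 : ℤ), by rw [l2, r1, k]; simp⟩
  obtain ⟨v, v1, v2⟩ : ∃ v, l v = Units.regulator L ∧ 0 < (e 0 ((v : 𝓞 L) : L)).re := by
    have : (e 0 ((u : 𝓞 L) : L)).re ≠ 0 := fun k => n0 u (by rw [re, k]; simp)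
    rcases this.lt_or_gt with k | k
    · exact ⟨-u, (l3 u).trans u1, by simpa using k⟩
    · exact ⟨u, u1, k⟩
  refine ⟨v, ?_, ⟨_, v2, re _, ?_⟩, ?_⟩
  · rintro ⟨y, hy⟩
    have i1 : IsIntegral ℤ y := IsIntegral.of_pow two_pos (by
      rw [sq, ← hy]; exact (v : 𝓞 L).isIntegral_coe)
    obtain ⟨t, i2⟩ : ∃ t : 𝓞 L, t * t = v := ⟨⟨y, i1⟩, Subtype.ext hy.symm⟩
    obtain ⟨z, hz⟩ : IsUnit t := isUnit_of_mul_isUnit_left (by rw [i2]; exact v.isUnit)
    obtain rfl : v = z * z := Units.ext (by rw [Units.val_mul, hz, i2])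
    obtain ⟨n, hn⟩ := r2 z
    have p0 := Units.regulator_pos L
    rw [l1, hn] at v1
    have h1 : (|2 * n| : ℤ) * Units.regulator L = 1 * Units.regulator L := by
      have h0 : |Units.regulator L| = |((2 * n : ℤ) : ℝ) * l (Units.fundSystem L i)| := by
        rw [← v1]
        congr 1
        push_cast
        ring
      rw [abs_mul, ← r1, abs_of_pos p0, ← Int.cast_abs] at h0
      rw [one_mul, ← h0]
    have h2 : |2 * n| = 1 := by exact_mod_cast mul_right_cancel₀ p0.ne' h1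
    rcases abs_eq (by norm_num) |>.1 h2 with k | k <;> omega
  · rw [← v1, ← abs_of_pos v2, ← Real.norm_eq_abs, ← Complex.norm_real, ← re]
  · have h1 : ∏ j, e j ((v : 𝓞 L) : L) = (Algebra.norm ℚ ((v : 𝓞 L) : L) : ℚ) := by
      refine Eq.trans ?_ (Algebra.norm_eq_prod_embeddings ℚ ℂ _).symm
      exact Fintype.prod_bijective (fun j => (e j).toRatAlgHom) ⟨fun a b k => he.inj
        (congrArg (fun f : L →ₐ[ℚ] ℂ => (f : L →+* ℂ)) k), fun f =>
          (he.all (f : L →+* ℂ)).elim fun j k =>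
            ⟨j, AlgHom.ext fun x => (DFunLike.congr_fun k x).symm⟩⟩
        _ _ fun _ => rfl
    have h2 : |Algebra.norm ℚ ((v : 𝓞 L) : L)| = 1 := Units.norm L v
    have h4 : ∏ j, e j ((v : 𝓞 L) : L) = ((e 0 ((v : 𝓞 L) : L)).re *
        Complex.normSq (e 1 ((v : 𝓞 L) : L)) : ℝ) := by
      refine (Fin.prod_univ_three fun j : ZMod 3 => e j ((v : 𝓞 L) : L)).trans ?_
      rw [Complex.ofReal_mul, ← re, ← Complex.mul_conj, he.cj, mul_assoc]
      rfl
    rcases abs_eq zero_le_one |>.1 h2 with k | k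
    · rw [h1, k, Rat.cast_one]
    · rw [h1, k] at h4
      have h5 : (-1 : ℝ) = (e 0 ((v : 𝓞 L) : L)).re * Complex.normSq (e 1 ((v : 𝓞 L) : L)) := by
        exact_mod_cast h4
      nlinarith [Complex.normSq_nonneg (e 1 ((v : 𝓞 L) : L))]

end Pool.Agent.T17
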