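import Pool.Agent.Lib.MP_02f36d_nt.T17.St

/-! Squares modulo four descend along extensions unramified at two. -/

set_option autoImplicit false

open NumberField IsDedekindDomain

noncomputable section

namespace Pool.Agent.T17

namespace Val

section Gen

variable {K Γ : Type*} [Field K] [LinearOrderedCommGroupWithZero Γ] (w : Valuation K Γ)

theorem int_le (n : ℤ) : w (n : K) ≤ 1 := by
  induction n using Int.induction_on with
  | zero => simp
  | succ n ih => push_cast at ih ⊢; exact w.map_add_le ih w.map_one.le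
  | pred n ih => push_cast at ih ⊢; exact w.map_sub_le ih w.map_one.le

theorem four : w (4 : K) = w 2 * w 2 := by
  rw [← map_mul]; norm_num

/-- If the product of two numbers whose difference is divisible by two is not divisible by four,
then the two numbers have the same value. -/
theorem pair {a b : K} (h1 : w (a - b) ≤ w 2) (h2 : w 4 < w (a * b)) :
    w 2 < w b ∧ w a = w b := by
  have h3 : w 2 < w b := by
    refine not_le.1 fun h => h2.not_ge ?_
    have h4 : w a ≤ w 2 := by simpa using w.map_add_le h1 h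
    rw [map_mul, four]
    exact mul_le_mul' h4 h
  refine ⟨h3, ?_⟩
  have := w.map_add_eq_of_lt_right (h1.trans_lt h3)
  simpa using this

theorem sqrt_val {s : K} {D : ℤ} (hs : s ^ 2 = D) (hD : D % 4 = 1) (h2 : w 2 < 1) :
    w s = 1 ∧ w (1 + s) ≤ w 2 := by
  obtain ⟨k, hk⟩ : ∃ k : ℤ, D = 1 + 4 * k := ⟨D / 4, by omega⟩
  have h4 : w (4 * (k : K)) ≤ w 4 := by
    rw [map_mul]; exact mul_le_of_le_one_right' (int_le w k)
  have h5 : w (4 : K) < 1 := by
    rw [four]; exact (mul_le_of_le_one_right' h2.le).trans_lt h2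
  have h6 : s ^ 2 = 1 + 4 * (k : K) := by rw [hs, hk]; push_cast; ring
  have h7 : w s = 1 := by
    have : w s ^ 2 = 1 := by
      rw [← map_pow, h6]; exact w.map_one_add_of_lt (h4.trans_lt h5)
    exact (pow_eq_one_iff_of_nonneg zero_le two_ne_zero).1 this
  refine ⟨h7, not_lt.1 fun h => ?_⟩
  have h8 : w (1 - s) = w (1 + s) := by
    have := w.map_sub_eq_of_lt_right h
    rwa [show (2 : K) - (1 + s) = 1 - s by ring] at this
  have h9 : w (1 + s) * w (1 + s) ≤ w 2 * w 2 := by
    nth_rewrite 1 [← h8]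
    rw [← map_mul, ← four, show (1 - s) * (1 + s) = -(4 * (k : K)) by linear_combination -h6,
      Valuation.map_neg]
    exact h4
  exact h9.not_gt (mul_lt_mul'' h h zero_le zero_le)

/-- The value group does not grow. -/
theorem step (S : Set Γ) (hS : ∀ x ∈ S, ∀ y ∈ S, x / y ∈ S) {s : K} {D : ℤ} (hs : s ^ 2 = D)
    (hD : D % 4 = 1) (h2 : w 2 < 1) {a b : K} (ha : w (a - b) ∈ S) (hb : w (2 * b) ∈ S)
    (hn : w (a ^ 2 - D * b ^ 2) ∈ S) : w (a + b * s) ∈ S := by
  obtain ⟨h3, h4⟩ := sqrt_val w hs hD h2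
  rcases lt_trichotomy (w (a + b * s)) (w (2 * b)) with h | h | h
  · have h5 : w (2 * b * s) = w (2 * b) := by rw [map_mul, h3, mul_one]
    have h6 : w (a - b * s) = w (2 * b) := by
      have := w.map_sub_eq_of_lt_right (h.trans_eq h5.symm)
      rwa [show a + b * s - 2 * b * s = a - b * s by ring, h5] at this
    have h7 : w (a ^ 2 - D * b ^ 2) = w (a + b * s) * w (2 * b) := by
      rw [← h6, ← map_mul, ← hs]; congr 1; ring
    have := hS _ hn _ hb
    rwa [h7, mul_div_cancel_right₀ _ (zero_le.trans_lt h).ne'] at this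
  · rwa [h]
  · have h5 : w (b * (1 + s)) ≤ w (2 * b) := by
      rw [map_mul, map_mul, mul_comm]; exact mul_le_mul' h4 le_rfl
    have := w.map_sub_eq_of_lt_left (h5.trans_lt h)
    rw [show a + b * s - b * (1 + s) = a - b by ring] at this
    rwa [← this]

end Gen

variable {L : Type} [Field L] [NumberField L]

omit [NumberField L] in
theorem int_mem (e : L →+* ℂ) (O : ValuationSubring ℂ) (a : 𝓞 L) :
    O.valuation (e a) ≤ 1 := by
  have h1 : IsIntegral ℤ (e a) := a.isIntegral_coe.map e.toIntAlgHom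
  obtain ⟨y, hy⟩ := IsIntegrallyClosed.isIntegral_iff.1 (h1.tower_top (A := O))
  exact (O.valuation_le_one_iff _).2 (hy ▸ y.2)

/-- A place of the complex numbers above a given prime. -/
theorem ex_place (e : L →+* ℂ) (q : HeightOneSpectrum (𝓞 L)) : ∃ O : ValuationSubring ℂ,
    ∀ x y : L, q.valuation L x ≤ q.valuation L y ↔ O.valuation (e x) ≤ O.valuation (e y) := by
  let f : 𝓞 L →+* ℂ := e.comp (algebraMap (𝓞 L) L)
  have hf : Function.Bijective f.rangeRestrict :=
    ⟨fun a b h => (e.injective.comp RingOfIntegers.coe_injective) (congrArg Subtype.val h),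
      f.rangeRestrict_surjective⟩
  obtain ⟨O, -, h0⟩ := Ideal.image_subset_nonunits_valuationSubring (q.asIdeal.map f.rangeRestrict)
    fun h => q.isPrime.ne_top (by
      rw [← Ideal.comap_map_of_bijective f.rangeRestrict hf (I := q.asIdeal), h, Ideal.comap_top])
  have h : ∀ a ∈ q.asIdeal, O.valuation (e a) < 1 := fun a ha =>
    h0 ⟨_, Ideal.mem_map_of_mem _ ha, rfl⟩
  have unit : ∀ a ∉ q.asIdeal, O.valuation (e a) = 1 := fun a ha => by
    obtain ⟨b, c, hc, h1⟩ := q.isMaximal.exists_inv ha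
    have h2 : e b * e a + e c = 1 := by
      simpa using congrArg (e.comp (algebraMap (𝓞 L) L)) h1
    refine le_antisymm (int_mem e O a) (not_lt.1 fun h3 => ?_)
    have h4 : O.valuation (e b * e a) < 1 := by
      rw [map_mul]
      exact (mul_le_of_le_one_left' (int_mem e O b)).trans_lt h3
    have h5 := O.valuation.map_add_lt h4 (h c hc)
    rw [h2, map_one] at h5
    exact lt_irrefl _ h5
  have key : ∀ x : L, q.valuation L x ≤ 1 → ∃ n : 𝓞 L, O.valuation (e x) = O.valuation (e n) ∧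
      q.valuation L x = q.valuation L n := fun x hx => by
    obtain ⟨n, d, hd⟩ := q.exists_primeCompl_mul_eq_of_integer x hx
    have h1 : q.valuation L (d : 𝓞 L) = 1 := le_antisymm (q.valuation_le_one _)
      (not_lt.1 fun h2 => d.2 ((q.valuation_lt_one_iff_mem _).1 h2))
    have hd' : x * ((d : 𝓞 L) : L) = n := hd
    refine ⟨n, ?_, ?_⟩
    · rw [← hd', map_mul, map_mul, unit _ d.2, mul_one]
    · rw [← hd', map_mul, h1, mul_one]
  have heq : (q.valuation L).IsEquiv (O.valuation.comap e) := by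
    refine Valuation.isEquiv_iff_val_le_one.2 fun {x} => ⟨fun h1 => ?_, fun h1 => ?_⟩
    · obtain ⟨n, n1, -⟩ := key _ h1
      exact n1.trans_le (int_mem e O n)
    · refine not_lt.1 fun h2 => ?_
      have hx : x ≠ 0 := by rintro rfl; simp at h2
      have h3 : q.valuation L x⁻¹ < 1 := by
        rw [map_inv₀]
        exact inv_lt_one_of_one_lt₀ h2
      obtain ⟨n, n1, n2⟩ := key _ h3.le
      have h4 := n1.trans_lt (h n ((q.valuation_lt_one_iff_mem _).1 (n2 ▸ h3)))
      have h5 : O.valuation (e x⁻¹) * O.valuation (e x) < 1 :=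
        (mul_le_of_le_one_right' h1).trans_lt h4
      rw [← map_mul, ← map_mul, inv_mul_cancel₀ hx, map_one, map_one] at h5
      exact lt_irrefl _ h5
  exact ⟨O, fun x y => heq x y⟩

/-- Square roots in the residue field. -/
theorem res_sqrt (q : HeightOneSpectrum (𝓞 L)) (h2 : (2 : 𝓞 L) ∈ q.asIdeal) {x : L}
    (hx : q.valuation L x ≤ 1) : ∃ s : 𝓞 L, q.valuation L (x - (s : L) ^ 2) < 1 := by
  obtain ⟨a, ha⟩ := q.exists_valuation_sub_lt_of_integer hx 1
  have := q.isMaximal
  have : Finite (𝓞 L ⧸ q.asIdeal) := Ideal.finiteQuotientOfFreeOfNeBot _ q.ne_bot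
  let _ : Field (𝓞 L ⧸ q.asIdeal) := Ideal.Quotient.field _
  have h3 : ringChar (𝓞 L ⧸ q.asIdeal) = 2 := by
    refine CharP.ringChar_of_prime_eq_zero Nat.prime_two ?_
    have := Ideal.Quotient.eq_zero_iff_mem.2 h2
    simpa [map_ofNat] using this
  obtain ⟨s, hs⟩ := FiniteField.isSquare_of_char_two h3 (Ideal.Quotient.mk q.asIdeal a)
  obtain ⟨s, rfl⟩ := Ideal.Quotient.mk_surjective s
  have h4 : q.valuation L ((a - s * s : 𝓞 L) : L) < 1 :=
    (q.valuation_lt_one_iff_mem _).2 (Ideal.Quotient.eq.1 (by rw [hs, map_mul]))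
  refine ⟨s, ?_⟩
  have h5 := (q.valuation L).map_sub_lt h4 (show q.valuation L ((a : L) - x) < 1 from ha)
  convert h5 using 2
  push_cast
  ring

/-- The value group of the biquadratic extension is the value group of the base. -/
theorem val_mem (φ : L →+* ℂ) (O : ValuationSubring ℂ) {δ r : ℂ} {D d : ℤ} (hδ : δ ^ 2 = D)
    (hr : r ^ 2 = d) (hD : D % 4 = 1) (hd : d % 4 = 1) (h2 : O.valuation 2 < 1) (a b c g : L) :
    ∃ t : L, O.valuation (φ t) = O.valuation (φ a + φ b * δ + (φ c + φ g * δ) * r) := by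
  have hS : ∀ x ∈ Set.range fun t => O.valuation (φ t), ∀ y ∈ Set.range fun t => O.valuation (φ t),
      x / y ∈ Set.range fun t => O.valuation (φ t) := by
    rintro _ ⟨x, rfl⟩ _ ⟨y, rfl⟩
    exact ⟨x / y, by simp⟩
  have h1 : ∀ a b : L, O.valuation (φ a + φ b * δ) ∈ Set.range fun t => O.valuation (φ t) :=
    fun a b => step _ _ hS hδ hD h2 ⟨a - b, by simp⟩ ⟨2 * b, by simp [map_ofNat]⟩
      ⟨a ^ 2 - D * b ^ 2, by simp⟩
  refine step _ _ hS hr hd h2 ?_ ?_ ?_
  · convert h1 (a - c) (b - g) using 2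
    simp only [map_sub]; ring
  · convert h1 (2 * c) (2 * g) using 2
    simp only [map_mul, map_ofNat]; ring
  · convert h1 (a ^ 2 + D * b ^ 2 - d * (c ^ 2 + D * g ^ 2)) (2 * a * b - d * (2 * c * g)) using 2
    simp only [map_sub, map_add, map_mul, map_pow, map_intCast, map_ofNat]
    linear_combination (φ b ^ 2 - d * φ g ^ 2) * hδ

theorem main (φ : L →+* ℂ) (δ r : ℂ) (D d : ℤ) (u : 𝓞 L) (hδ : δ ^ 2 = D) (hr : r ^ 2 = d)
    (hD : D % 4 = 1) (hd : d % 4 = 1)
    (H : ∀ O : ValuationSubring ℂ, (2 : ℂ) ∈ O.nonunits → ∃ (a b c g : L) (m : ℂ),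
      φ u = (φ a + φ b * δ + (φ c + φ g * δ) * r) ^ 2 * m ∧ O.valuation (m - 1) ≤ O.valuation 4)
    (q : HeightOneSpectrum (𝓞 L)) (hq : (2 : 𝓞 L) ∈ q.asIdeal) :
    ∃ c : L, q.valuation L (c ^ 2 - (u : L)) ≤ q.valuation L 4 := by
  by_contra hne
  simp only [not_exists, not_le] at hne
  obtain ⟨O, hO⟩ := ex_place φ q
  have hlt : ∀ x y : L, q.valuation L x < q.valuation L y ↔
      O.valuation (φ x) < O.valuation (φ y) := fun x y => by
    rw [← not_le, ← not_le, hO]
  have v2 : q.valuation L 2 < 1 := by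
    have := (q.valuation_lt_one_iff_mem (K := L) _).2 hq
    simpa [map_ofNat] using this
  have w2 : O.valuation 2 < 1 := by
    have := (hlt 2 1).1 (by simpa using v2)
    simpa [map_ofNat] using this
  have w4 : O.valuation 4 < 1 := by
    rw [four]; exact (mul_le_of_le_one_right' w2.le).trans_lt w2
  obtain ⟨a, b, c, g, m, hm, hm1⟩ := H O w2
  set z := φ a + φ b * δ + (φ c + φ g * δ) * r with hz
  have m1 : O.valuation m = 1 := by
    have := O.valuation.map_one_add_of_lt (hm1.trans_lt w4)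
    simpa using this
  have hz2 : O.valuation (z ^ 2) ≤ 1 := by
    have := int_mem φ O u
    rwa [hm, map_mul, m1, mul_one] at this
  have hz4 : O.valuation (φ u - z ^ 2) ≤ O.valuation 4 := by
    rw [hm, show z ^ 2 * m - z ^ 2 = z ^ 2 * (m - 1) by ring, map_mul]
    exact (mul_le_of_le_one_left' hz2).trans hm1
  have impr : ∀ c0 : L, q.valuation L c0 ≤ 1 → ∃ c1 : L, q.valuation L c1 ≤ 1 ∧
      q.valuation L (c1 ^ 2 - (u : L)) < q.valuation L (c0 ^ 2 - (u : L)) := fun c0 h0 => by
    have w0 : O.valuation (φ c0) ≤ 1 := by simpa using (hO c0 1).1 (by simpa using h0)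
    have e1 : O.valuation 4 < O.valuation (φ (c0 ^ 2 - u)) := by
      simpa [map_ofNat] using (hlt _ _).1 (hne c0)
    have e2 : O.valuation ((z + φ c0) * (z - φ c0)) = O.valuation (φ (c0 ^ 2 - u)) := by
      have := O.valuation.map_add_eq_of_lt_right (hz4.trans_lt e1)
      rw [← this, ← Valuation.map_neg]
      congr 1
      simp only [map_sub, map_pow]; ring
    obtain ⟨e3, e4⟩ := pair O.valuation (a := z + φ c0) (b := z - φ c0) (by
      rw [show z + φ c0 - (z - φ c0) = 2 * φ c0 by ring, map_mul]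
      exact mul_le_of_le_one_right' w0) (e1.trans_eq e2.symm)
    obtain ⟨t, ht⟩ := val_mem φ O hδ hr hD hd w2 (a - c0) b c g
    rw [show φ (a - c0) + φ b * δ + (φ c + φ g * δ) * r = z - φ c0 by rw [hz, map_sub]; ring] at ht
    have e5 : O.valuation (φ (c0 ^ 2 - u)) = O.valuation (φ (t ^ 2)) := by
      rw [← e2, map_mul, e4, map_pow, map_pow, ht, sq]
    have f5 : q.valuation L (c0 ^ 2 - u) = q.valuation L (t ^ 2) :=
      le_antisymm ((hO _ _).2 e5.le) ((hO _ _).2 e5.ge)
    have f3 : q.valuation L 2 < q.valuation L t :=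
      (hlt _ _).2 (by rw [ht, map_ofNat]; exact e3)
    have tp : 0 < q.valuation L t := zero_le.trans_lt f3
    have t0 : t ≠ 0 := by rintro rfl; simp at tp
    have tp2 : 0 < q.valuation L (t ^ 2) := by rw [map_pow]; exact pow_pos tp 2
    have t1 : q.valuation L t ≤ 1 := by
      have : q.valuation L (c0 ^ 2 - u) ≤ 1 := (q.valuation L).map_sub_le
        (by rw [map_pow]; exact pow_le_one' h0 2) (q.valuation_le_one u)
      rw [f5, map_pow] at this
      exact (pow_le_one_iff two_ne_zero).1 this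
    obtain ⟨s, hs⟩ := res_sqrt q hq (x := (u - c0 ^ 2) / t ^ 2) (by
      rw [map_div₀, Valuation.map_sub_swap, f5, div_self tp2.ne'])
    have s1 : q.valuation L (s : L) ≤ 1 := q.valuation_le_one s
    refine ⟨c0 + t * s, (q.valuation L).map_add_le h0 (by
      rw [map_mul]; exact mul_le_one' t1 s1), ?_⟩
    rw [f5, show (c0 + t * s) ^ 2 - (u : L) = 2 * t * (c0 * s) -
      t ^ 2 * ((u - c0 ^ 2) / t ^ 2 - (s : L) ^ 2) by field_simp; ring]
    refine (q.valuation L).map_sub_lt ?_ ?_
    · rw [map_mul, map_mul, map_mul, map_pow, sq]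
      exact (mul_le_of_le_one_right' (mul_le_one' h0 s1)).trans_lt (mul_lt_mul_of_pos_right f3 tp)
    · rw [map_mul]
      exact mul_lt_of_lt_one_right tp2 hs
  have iter : ∀ n : ℕ, ∃ c0 : L, q.valuation L c0 ≤ 1 ∧
      q.valuation L (c0 ^ 2 - (u : L)) ≤ WithZero.exp (-(n : ℤ)) := fun n => by
    induction n with
    | zero => exact ⟨0, by simp, by simpa using q.valuation_le_one u⟩
    | succ n ih =>
      obtain ⟨c0, h0, h1⟩ := ih
      obtain ⟨c1, h2, h3⟩ := impr c0 h0
      refine ⟨c1, h2, ?_⟩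
      have h4 := h3.trans_le h1
      have h5 : q.valuation L (c1 ^ 2 - (u : L)) ≠ 0 := (zero_le.trans_lt (hne c1)).ne'
      rw [← WithZero.exp_log h5, WithZero.exp_lt_exp] at h4
      rw [← WithZero.exp_log h5, WithZero.exp_le_exp]
      push_cast
      omega
  have h4 : q.valuation L 4 ≠ 0 := by simp
  obtain ⟨c0, -, h1⟩ := iter (WithZero.log (q.valuation L 4)).natAbs
  refine (hne c0).not_ge (h1.trans ?_)
  conv_rhs => rw [← WithZero.exp_log h4]
  rw [WithZero.exp_le_exp]
  omega

end Val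

theorem val : ValSt := fun _ _ _ φ δ r D d u hδ hr hD hd H q hq =>
  Val.main φ δ r D d u hδ hr hD hd (fun O hO => by
    obtain ⟨_, ⟨a, b, c, g, rfl⟩, m, h1, h2⟩ := H O hO
    exact ⟨a, b, c, g, m, h1, h2⟩) q hq

end Pool.Agent.T17
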