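import Pool.Agent.Lib.MP_02f36d_nt.C17.Main
import Pool.Agent.Lib.MP_02f36d_nt.T17.Rank
import Pool.Agent.Lib.MP_02f36d_nt.T17.TrP
import Pool.Agent.Lib.MP_02f36d_nt.T17.Hk
import Pool.Agent.Lib.MP_02f36d_nt.T17.Step
import Pool.Agent.Lib.MP_02f36d_nt.T17.HeegC
import Pool.Agent.Lib.MP_02f36d_nt.T17.NtC
import Pool.Agent.Lib.MP_02f36d_nt.T17.Val
import Pool.Agent.Lib.MP_02f36d_nt.T17.BadB
import Pool.Agent.Lib.MP_02f36d_nt.T17.Low
import Pool.Agent.Lib.MP_02f36d_nt.T17.Isog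
import Pool.Agent.Lib.MP_02f36d_nt.T17.Norm
import Pool.Agent.Lib.MP_02f36d_nt.T17.Cls
import Pool.Agent.Lib.MP_02f36d_nt.T17.New
import Pool.Agent.Lib.MP_02f36d_nt.T17.Root

/-! The rank grows by one. -/

namespace Pool.Agent.T17

open Pool.Agent.C17

theorem rankAll : RankSt :=
  rankOf gal unitP trP cmS kron idS hk step heegC four tor ntC val bad mapS isog low normS cls newS

end Pool.Agent.T17
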