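import Pool.Agent.Lib.MP_02f36d_nt.C17.Defs

/-! Quadratic twists of `17a2` over cubic fields: definitions. -/

set_option autoImplicit false

noncomputable section

namespace Pool.Agent.T17

open NumberField IsDedekindDomain WeierstrassCurve
open scoped Classical

/-- The curve `y ^ 2 = x (x + d) (x - 16 d)` over `K`. -/
def Ed (d : ℤ) (K : Type) [Field K] : WeierstrassCurve K := ⟨0, -15 * d, 0, -16 * d ^ 2, 0⟩

variable {K : Type} [Field K] [NumberField K]

/-- A minimal model over the valuation ring of `v`. -/
def mdl (W : WeierstrassCurve K) (v : HeightOneSpectrum (𝓞 K)) : WeierstrassCurve K :=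
  W.minimal (v.valuation K).valuationSubring

/-- The quadratic character of the residue field of `v`. -/
def chi (v : HeightOneSpectrum (𝓞 K)) (a : ℤ) : ℤ :=
  if IsSquare (a : 𝓞 K ⧸ v.asIdeal) then 1 else -1

/-- The local root number at `v` by the formulas of Rohrlich, which are valid when the reduction is
not additive or the residue characteristic is at least `5`. -/
def locRoot (W : WeierstrassCurve K) (v : HeightOneSpectrum (𝓞 K)) : ℤ :=
  if (mdl W v).HasSplitMultiplicativeReduction (v.valuation K).valuationSubring then -1
  else if ¬ (mdl W v).HasAdditiveReduction (v.valuation K).valuationSubring then 1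
  else if v.valuation K (mdl W v).Δ < v.valuation K (mdl W v).c₄ ^ 3 then chi v (-1)
  else if (v.valuation K (mdl W v).Δ).log % 4 = 0 then chi v (-3)
  else if (v.valuation K (mdl W v).Δ).log % 2 = 1 then chi v (-2)
  else chi v (-1)

/-- The reduction above `2` and `3` is not additive, and `w` is the product of the local root
numbers, those at the infinite places being `-1`. -/
def HasRoot (W : WeierstrassCurve K) (w : ℤ) : Prop :=
  (∀ v : HeightOneSpectrum (𝓞 K), (6 : 𝓞 K) ∈ v.asIdeal →
    ¬ (mdl W v).HasAdditiveReduction (v.valuation K).valuationSubring) ∧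
  w = (-1) ^ Fintype.card (InfinitePlace K) * ∏ᶠ v, locRoot W v

variable (K) in
/-- The prime factors of `d` stay prime in `K`. -/
def Inert (d : ℤ) : Prop :=
  ∀ p : ℕ, p.Prime → (p : ℤ) ∣ d → (Ideal.span {(p : 𝓞 K)}).IsPrime

/-- The admissible twists. -/
def Adm (d : ℤ) : Prop := Squarefree d ∧ d % 4 = 1 ∧ d.natAbs.Coprime 51

end Pool.Agent.T17
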