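import Pool.Agent.Lib.MP_02f36d_nt.T17.All
import Pool.Agent.Lib.MP_02f36d_nt.CF.Gen

/-! Rank, root numbers and density in the form used by the final statements. -/

set_option autoImplicit false

namespace Pool.Agent.T17.Fin

open Filter NumberField Pool.Agent.Lib.MP_02f36d_nt

theorem inert_iff {L : Type} [Field L] [NumberField L] {d : ℤ} : Inert L d ↔
    ∀ p : ℕ, p.Prime → p ∣ d.natAbs → (Ideal.span {(p : 𝓞 L)}).IsPrime := by
  simp only [Inert, Int.natCast_dvd]

theorem inert_rat (d : ℤ) : Inert ℚ d := by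
  intro p hp _
  have h : Prime (p : 𝓞 ℚ) := by
    have := (MulEquiv.prime_iff Rat.ringOfIntegersEquiv.symm).2 (Nat.prime_iff_prime_int.1 hp)
    simpa using this
  exact (Ideal.span_singleton_prime h.ne_zero).2 h

theorem rk {d : ℤ} (hd : Adm d) (L : Type) [Field L] [NumberField L] [i : DecidableEq L]
    (h1 : Module.finrank ℚ L = 3) (h2 : discr L < 0) (h3 : Squarefree (discr L))
    (h4 : Inert L (17 * d)) (h5 : Odd (classNumber L)) :
    Module.finrank ℤ (Ed d L).toAffine.Point = Module.finrank ℤ (Ed d ℚ).toAffine.Point + 1 := by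
  obtain rfl : i = fun a b => Classical.propDecidable (a = b) := Subsingleton.elim _ _
  exact rankAll L d ⟨h1, h2, h3, by simpa using h4 17 (by norm_num) (dvd_mul_right _ _), h5⟩ hd
    fun p hp h => h4 p hp (h.mul_left _)

theorem places {L : Type} [Field L] [NumberField L] (h1 : Module.finrank ℚ L = 3)
    (h2 : discr L < 0) : Fintype.card (InfinitePlace L) = 2 := by
  have a := InfinitePlace.card_add_two_mul_card_eq_rank L
  have b := InfinitePlace.card_eq_nrRealPlaces_add_nrComplexPlaces L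
  have c := sign_discr L
  rw [Int.sign_eq_neg_one_of_neg h2] at c
  have : InfinitePlace.nrComplexPlaces L ≠ 0 := fun h => by
    rw [h] at c
    norm_num at c
  omega

theorem rootQ {d : ℤ} (hd : Adm d) :
    HasRoot (Ed d ℚ) (jacobiSym d 17 * jacobiSym (-1) d.natAbs) := by
  have := rootS ℚ d (by simp) hd (inert_rat _)
  simpa using this

theorem rootL {d : ℤ} (hd : Adm d) (L : Type) [Field L] [NumberField L]
    (h1 : Module.finrank ℚ L = 3) (h2 : discr L < 0) (h4 : Inert L (17 * d)) :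
    HasRoot (Ed d L) (-(jacobiSym d 17 * jacobiSym (-1) d.natAbs)) := by
  have := rootS L d (h1 ▸ by norm_num) hd h4
  rw [places h1 h2] at this
  simpa using this

theorem rank_one : Module.finrank ℤ (Ed 1 ℚ).toAffine.Point = 0 := by
  obtain ⟨c, hc, h⟩ := CF.densG (n := 17) (by norm_num)
  obtain ⟨X, h1, h0⟩ := (h.and (eventually_gt_atTop 0)).exists
  obtain ⟨L, i, a1, a2, -, a3, a4, a5⟩ := Set.nonempty_of_ncard_ne_zero (s := CF.Gen.OddG 17 X)
    fun e => by
      rw [e, Nat.cast_zero] at h1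
      exact absurd (mul_pos hc h0) h1.not_gt
  have k1 := rk (d := 1) (i := fun a b => Classical.propDecidable (a = b))
    ⟨squarefree_one, rfl, by norm_num⟩ L a1 a2 a3 (inert_iff.2 a4) a5
  have k2 := (Pool.Agent.C17.hstmt L ⟨a1, a2, a3, by simpa using a4 17 (by norm_num) dvd_rfl,
    a5⟩).2.2
  have e : Ed 1 L = Pool.Agent.C17.EL L := by simp [Ed, Pool.Agent.C17.EL]
  rw [e] at k1
  have k3 := k2.symm.trans k1
  omega

theorem dens {n : ℤ} (hn : n ≠ 0) (A B : ℝ → Set (IntermediateField ℚ ℝ))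
    (hA : ∀ X, A X = {L : IntermediateField ℚ ℝ | ∃ _ : NumberField L,
      Module.finrank ℚ L = 3 ∧ discr L < 0 ∧ -X ≤ discr L})
    (hB : ∀ X, B X = {L : IntermediateField ℚ ℝ | ∃ _ : NumberField L,
      Module.finrank ℚ L = 3 ∧ discr L < 0 ∧ -X ≤ discr L ∧ Squarefree (discr L) ∧
        Inert L n ∧ Odd (classNumber L)}) :
    ∃ c : ℝ, 0 < c ∧ ∀ᶠ X : ℝ in atTop,
      (A X).Finite ∧ c * X ≤ (B X).ncard ∧ c * (A X).ncard ≤ (B X).ncard := by
  obtain ⟨C, hC⟩ := CF.upAll
  obtain ⟨c, hc, h⟩ := CF.densG (n := n.natAbs) (Int.natAbs_ne_zero.2 hn)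
  have p : 0 < |C| + 1 := by positivity
  refine ⟨c / (|C| + 1), by positivity, ?_⟩
  filter_upwards [h, eventually_ge_atTop 0] with X h1 h0
  obtain ⟨h2, h3⟩ := hC X h0
  have e : B X = CF.Gen.OddG n.natAbs X := by
    rw [hB]
    simp only [inert_iff]
    rfl
  rw [show A X = CF.AllF X from hA X, e]
  refine ⟨h2, le_trans ?_ h1, le_trans ?_ h1⟩
  · rw [div_mul_eq_mul_div, div_le_iff₀ p]
    nlinarith [mul_nonneg (mul_nonneg hc.le h0) (abs_nonneg C)]
  · rw [div_mul_eq_mul_div, div_le_iff₀ p]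
    nlinarith [mul_le_mul_of_nonneg_left h3 hc.le, mul_nonneg hc.le h0,
      mul_le_mul_of_nonneg_left (le_abs_self C) (mul_nonneg hc.le h0)]

end Pool.Agent.T17.Fin
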