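import Pool.Agent.Lib.MP_02f36d_nt.T17.St

/-! The isogeny of degree two is additive. -/

set_option autoImplicit false

open WeierstrassCurve WeierstrassCurve.Affine WeierstrassCurve.Affine.Point
open Pool.Agent.Lib.MP_d6ddbd_nt.G (Pt W17)
open Pool.Agent.C17 Pool.Agent.C17.Rk

noncomputable section

namespace Pool.Agent.T17

namespace Isog

variable {K : Type} [Field K] [CharZero K] [DecidableEq K] {a b u a' b' : K}

lemma add_full {x₁ y₁ x₂ y₂ : K} (h₁ : (cv a b).toAffine.Nonsingular x₁ y₁)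
    (h₂ : (cv a b).toAffine.Nonsingular x₂ y₂) (hxy : ¬ (x₁ = x₂ ∧ y₁ = -y₂)) :
    ∃ (l x₃ : K) (h₃ : (cv a b).toAffine.Nonsingular x₃ (l * (x₃ - x₁) + y₁)),
      (some x₁ y₁ h₁ : G a b) + some x₂ y₂ h₂ = -some x₃ _ h₃ ∧ x₃ = l ^ 2 - a - x₁ - x₂ ∧
      y₁ - y₂ = l * (x₁ - x₂) ∧
      x₁ ^ 2 + x₁ * x₂ + x₂ ^ 2 - (l ^ 2 - a) * (x₁ + x₂) + b - 2 * l * (y₁ - l * x₁) = 0 := by
  have e1 := eqn h₁
  have e2 := eqn h₂
  have hxy' : ¬ (x₁ = x₂ ∧ y₁ = (cv a b).toAffine.negY x₂ y₂) := by rwa [negY_cv]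
  refine ⟨(cv a b).toAffine.slope x₁ x₂ y₁ y₂, _, nonsingular_negAdd h₁ h₂ hxy',
    add_some hxy', by simp [cv, addX], ?_⟩
  by_cases hx : x₁ = x₂
  · subst hx
    have hy : y₁ ≠ -y₂ := fun h => hxy ⟨rfl, h⟩
    have hy2 : y₁ = y₂ := by
      have : (y₁ - y₂) * (y₁ + y₂) = 0 := by linear_combination e1 - e2
      rcases mul_eq_zero.1 this with h | h
      · exact sub_eq_zero.1 h
      · exact absurd (eq_neg_of_add_eq_zero_left h) hy
    subst hy2
    have hy0 : y₁ ≠ 0 := fun h => hy (by rw [h]; simp)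
    rw [slope_of_Y_ne rfl (by rwa [negY_cv]), negY_cv]
    simp only [cv, toAffine]
    refine ⟨by simp, ?_⟩
    have : y₁ - -y₁ = 2 * y₁ := by ring
    rw [this]
    field_simp
    ring
  · rw [slope_of_X_ne hx]
    have hx0 : x₁ - x₂ ≠ 0 := sub_ne_zero.2 hx
    refine ⟨by field_simp, ?_⟩
    field_simp
    linear_combination (x₁ - x₂) * e2 - (x₁ - x₂) * e1

/-- Three points cut out by a line add up to zero. -/
lemma line_sum {x₁ y₁ x₂ y₂ x₃ y₃ l n : K} (h₁ : (cv a b).toAffine.Nonsingular x₁ y₁)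
    (h₂ : (cv a b).toAffine.Nonsingular x₂ y₂) (h₃ : (cv a b).toAffine.Nonsingular x₃ y₃)
    (e₁ : y₁ = l * x₁ + n) (e₂ : y₂ = l * x₂ + n) (e₃ : y₃ = l * x₃ + n)
    (s₁ : x₁ + x₂ + x₃ = l ^ 2 - a) (s₂ : x₁ * x₂ + x₁ * x₃ + x₂ * x₃ = b - 2 * l * n) :
    (some x₁ y₁ h₁ : G a b) + some x₂ y₂ h₂ = -some x₃ y₃ h₃ := by
  have tg : x₁ = x₂ → 3 * x₁ ^ 2 + 2 * a * x₁ + b = 2 * l * y₁ := fun hx => by
    subst hx
    linear_combination (-2 * l) * e₁ + 2 * x₁ * s₁ - s₂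
  have hxy : ¬ (x₁ = x₂ ∧ y₁ = -y₂) := by
    rintro ⟨hx, hy⟩
    have h0 : y₁ = 0 := by linear_combination (hy + e₁ - e₂ + l * hx) / 2
    have h1 := tg hx
    rcases ((nonsingular_iff' _ _).1 h₁).2 with h | h
    · refine h ?_
      simp only [cv, toAffine]
      linear_combination -h1 - 2 * l * h0
    · refine h ?_
      simp only [cv, toAffine]
      linear_combination 2 * h0
  obtain ⟨m, x, h, e, hx, hy, hr⟩ := add_full h₁ h₂ hxy
  have hm : m = l := by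
    by_cases e0 : x₁ = x₂
    · have h1 := tg e0
      subst e0
      have y0 : y₁ ≠ 0 := fun h0 => hxy ⟨rfl, by linear_combination 2 * h0 - e₁ + e₂⟩
      refine mul_right_cancel₀ y0 ?_
      linear_combination (h1 - hr) / 2
    · refine mul_right_cancel₀ (sub_ne_zero.2 e0) ?_
      linear_combination e₁ - e₂ - hy
  subst hm
  obtain rfl : x = x₃ := by linear_combination hx - s₁
  obtain rfl : y₃ = m * (x - x₁) + y₁ := by linear_combination e₃ - e₁
  exact e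

/-- The data of the isogeny. -/
structure Dat (a b u a' b' : K) : Prop where
  b0 : b ≠ 0
  d0 : a ^ 2 - 4 * b ≠ 0
  u0 : u ≠ 0
  ha : a' = -2 * a * u ^ 2
  hb : b' = (a ^ 2 - 4 * b) * u ^ 4

omit [DecidableEq K] in
lemma ns (b0 : b ≠ 0) (d0 : a ^ 2 - 4 * b ≠ 0) {x y : K} (h : y ^ 2 = x ^ 3 + a * x ^ 2 + b * x) :
    (cv a b).toAffine.Nonsingular x y := by
  have : (cv a b).Δ = 16 * b ^ 2 * (a ^ 2 - 4 * b) := by
    simp only [cv, Δ, b₂, b₄, b₆, b₈]
    ring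
  refine (equation_iff_nonsingular_of_Δ_ne_zero (W := (cv a b).toAffine) ?_).1 ?_
  · rw [this]
    exact mul_ne_zero (mul_ne_zero (by norm_num) (pow_ne_zero _ b0)) d0
  · rw [equation_iff]
    simp only [cv, toAffine]
    linear_combination h

omit [DecidableEq K] in
lemma Dat.img (D : Dat a b u a' b') {x y : K} (h : (cv a b).toAffine.Nonsingular x y)
    (hx : x ≠ 0) : (cv a' b').toAffine.Nonsingular (u ^ 2 * ((x ^ 2 + a * x + b) / x))
      (u ^ 3 * (y * (b - x ^ 2) / x ^ 2)) := by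
  have u0 := D.u0
  refine ns (D.hb ▸ mul_ne_zero D.d0 (pow_ne_zero _ u0)) ?_ ?_
  · have : a' ^ 2 - 4 * b' = 16 * b * u ^ 4 := by rw [D.ha, D.hb]; ring
    rw [this]
    exact mul_ne_zero (mul_ne_zero (by norm_num) D.b0) (pow_ne_zero _ u0)
  · rw [mul_pow, div_pow, mul_pow, eqn h, D.ha, D.hb]
    field_simp
    ring

/-- The isogeny on points. -/
def Dat.ph (D : Dat a b u a' b') : G a b → G a' b'
  | .zero => 0
  | .some x _ h => if hx : x = 0 then 0 else .some _ _ (D.img h hx)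

variable (D : Dat a b u a' b')

omit [CharZero K] in
lemma some_congr {x y x' y' : K} (h : (cv a b).toAffine.Nonsingular x y)
    (h' : (cv a b).toAffine.Nonsingular x' y') (e : x = x') (e' : y = y') :
    (some x y h : G a b) = some x' y' h' := by
  subst e e'
  rfl

lemma ph_zero : D.ph 0 = 0 := rfl

lemma ph_T {y : K} (h : (cv a b).toAffine.Nonsingular 0 y) : D.ph (some 0 y h) = 0 := dif_pos rfl

lemma ph_some {x y : K} (h : (cv a b).toAffine.Nonsingular x y) (hx : x ≠ 0) :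
    D.ph (some x y h) = some _ _ (D.img h hx) := dif_neg hx

lemma ph_neg : ∀ P : G a b, D.ph (-P) = -D.ph P
  | .zero => rfl
  | .some x y h => by
    by_cases hx : x = 0
    · subst hx
      rw [neg_some, ph_T, ph_T, _root_.neg_zero]
    · rw [neg_some, ph_some D _ hx, ph_some D _ hx, neg_some]
      refine some_congr _ _ rfl ?_
      rw [negY_cv, negY_cv]
      ring

lemma ph_add_T {y₀ : K} (h₀ : (cv a b).toAffine.Nonsingular 0 y₀) :
    ∀ P : G a b, D.ph (P + some 0 y₀ h₀) = D.ph P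
  | .zero => by rw [← zero_def, zero_add, ph_T, ph_zero]
  | .some x y h => by
    obtain rfl : y₀ = 0 := by simpa using eqn h₀
    have e := eqn h
    have b0 := D.b0
    by_cases hx : x = 0
    · subst hx
      obtain rfl : y = 0 := by simpa using e
      rw [add_self_of_Y_eq (by rw [negY_cv, _root_.neg_zero]), ph_T, ph_zero]
    · have h₃ : (cv a b).toAffine.Nonsingular (b / x) (b * y / x ^ 2) := ns b0 D.d0 (by
        rw [div_pow, mul_pow, e]
        field_simp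
        ring)
      have hb : b / x ≠ 0 := div_ne_zero b0 hx
      rw [line_sum (l := y / x) (n := 0) h h₀ h₃ (by field_simp; ring) (by ring)
        (by field_simp; ring) (by rw [div_pow, e]; field_simp; ring) (by field_simp; ring),
        ph_neg, ph_some D _ hb, ph_some D _ hx, neg_some]
      refine some_congr _ _ ?_ ?_
      · field_simp
        ring
      · rw [negY_cv]
        field_simp
        ring

omit [DecidableEq K] in
lemma alg_line {x y l n : K} (hx : x ≠ 0) (hn : n ≠ 0) (e : y = l * x + n)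
    (h : y ^ 2 = x ^ 3 + a * x ^ 2 + b * x) :
    u ^ 3 * (y * (b - x ^ 2) / x ^ 2) =
      -(u * (n * l - b) / n) * (u ^ 2 * ((x ^ 2 + a * x + b) / x)) +
        -(u ^ 3 * (n ^ 2 - a * n * l + b * l ^ 2) / n) := by
  subst e
  obtain rfl : a = ((l * x + n) ^ 2 - x ^ 3 - b * x) / x ^ 2 := by
    field_simp
    linear_combination -h
  field_simp
  ring

lemma ph_gen {x₁ y₁ x₂ y₂ x₃ y₃ l n : K} (h₁ : (cv a b).toAffine.Nonsingular x₁ y₁)
    (h₂ : (cv a b).toAffine.Nonsingular x₂ y₂) (h₃ : (cv a b).toAffine.Nonsingular x₃ y₃)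
    (n₁ : x₁ ≠ 0) (n₂ : x₂ ≠ 0) (n₃ : x₃ ≠ 0)
    (e₁ : y₁ = l * x₁ + n) (e₂ : y₂ = l * x₂ + n) (e₃ : y₃ = l * x₃ + n)
    (s₁ : x₁ + x₂ + x₃ = l ^ 2 - a) (s₂ : x₁ * x₂ + x₁ * x₃ + x₂ * x₃ = b - 2 * l * n) :
    D.ph (some x₁ y₁ h₁) + D.ph (some x₂ y₂ h₂) = -D.ph (some x₃ y₃ h₃) := by
  have s₃ : x₁ * x₂ * x₃ = n ^ 2 := by
    have := eqn h₁
    rw [e₁] at this
    linear_combination -this - x₁ ^ 2 * s₁ + x₁ * s₂
  have hn : n ≠ 0 := fun h => mul_ne_zero (mul_ne_zero n₁ n₂) n₃ (by rw [s₃, h]; ring)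
  rw [ph_some D _ n₁, ph_some D _ n₂, ph_some D _ n₃]
  have ha : a = l ^ 2 - x₁ - x₂ - x₃ := by linear_combination s₁
  have hb : b = x₁ * x₂ + x₁ * x₃ + x₂ * x₃ + 2 * l * n := by linear_combination -s₂
  have hx : x₃ = n ^ 2 / (x₁ * x₂) := by
    field_simp
    linear_combination s₃
  refine line_sum _ _ _ (alg_line n₁ hn e₁ (eqn h₁)) (alg_line n₂ hn e₂ (eqn h₂))
    (alg_line n₃ hn e₃ (eqn h₃)) ?_ ?_
  · rw [D.ha, ha, hb, hx]
    field_simp
    ring
  · rw [D.hb, ha, hb, hx]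
    field_simp
    ring

lemma ph_add : ∀ P Q : G a b, D.ph (P + Q) = D.ph P + D.ph Q
  | .zero, Q => by rw [← zero_def, zero_add, ph_zero, zero_add]
  | P, .zero => by rw [← zero_def, add_zero, ph_zero, add_zero]
  | .some x₁ y₁ h₁, .some x₂ y₂ h₂ => by
    by_cases n₁ : x₁ = 0
    · subst n₁
      rw [add_comm, ph_add_T, ph_T, zero_add]
    by_cases n₂ : x₂ = 0
    · subst n₂
      rw [ph_add_T, ph_T, add_zero]
    by_cases hxy : x₁ = x₂ ∧ y₁ = -y₂
    · have : (some x₁ y₁ h₁ : G a b) = -some x₂ y₂ h₂ :=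
        some_congr _ _ hxy.1 (by rw [negY_cv, hxy.2])
      rw [this, neg_add_cancel, ph_neg, neg_add_cancel, ph_zero]
    obtain ⟨l, x₃, h₃, e, hx, hy, hr⟩ := add_full h₁ h₂ hxy
    by_cases n₃ : x₃ = 0
    · subst n₃
      have : (some x₁ y₁ h₁ : G a b) = -(some x₂ y₂ h₂ + some 0 _ h₃) := by
        rw [neg_add', sub_eq_add_neg, ← e]
        abel
      rw [e, ph_neg, ph_T, this, ph_neg, ph_add_T, neg_add_cancel, _root_.neg_zero]
    · rw [e, ph_neg]
      exact (ph_gen D (l := l) (n := y₁ - l * x₁) h₁ h₂ h₃ n₁ n₂ n₃ (by ring)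
        (by linear_combination -hy) (by ring) (by linear_combination hx)
        (by linear_combination (x₁ + x₂) * hx - hr)).symm

include D in
lemma exists_hom (W : WeierstrassCurve.Affine K) (hW : W = (cv a b).toAffine) :
    ∃ Ψ : W.Point →+ G a' b', (∀ h, Ψ (.some 0 0 h) = 0) ∧ ∀ x y h, x ≠ 0 → ∃ h',
      Ψ (.some x y h) = .some (u ^ 2 * ((x ^ 2 + a * x + b) / x))
        (u ^ 3 * (y * (b - x ^ 2) / x ^ 2)) h' := by
  subst hW
  exact ⟨AddMonoidHom.mk' D.ph (ph_add D), fun h => ph_T D h,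
    fun x y h hx => ⟨_, ph_some D h hx⟩⟩

end Isog

open Isog in
theorem isog : IsogSt := by
  intro d r hd hr
  have r0 : r ≠ 0 := fun h => hd (by
    have : (d : ℂ) = 0 := by rw [← hr, h]; ring
    exact_mod_cast this)
  have D : Dat (30 : ℂ) 289 (r / 2) (-15 * d) (-16 * d ^ 2) :=
    ⟨by norm_num, by norm_num, div_ne_zero r0 two_ne_zero, by rw [← hr]; ring, by rw [← hr]; ring⟩
  obtain ⟨Ψ, h0, h1⟩ := exists_hom D (W17.toAffine.baseChange ℂ) (by
    ext <;> simp [W17, cv])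
  refine ⟨Ψ, h0, fun x y h hx => ?_⟩
  obtain ⟨h', e⟩ := h1 x y h hx
  have e1 : (r / 2) ^ 2 * ((x ^ 2 + 30 * x + 289) / x) =
      d * ((x ^ 2 + 30 * x + 289) / (4 * x)) := by
    rw [← hr]
    field_simp
    ring
  have e2 : (r / 2) ^ 3 * (y * (289 - x ^ 2) / x ^ 2) =
      r ^ 3 * (y * (289 - x ^ 2) / (8 * x ^ 2)) := by
    field_simp
    ring
  exact ⟨e1 ▸ e2 ▸ h', e.trans (some_congr _ _ e1 e2)⟩

end Pool.Agent.T17
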