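import Pool.Agent.Lib.MP_02f36d_nt.T17.Defs
import Pool.Agent.Lib.MP_02f36d_nt.C17.St
import Pool.Agent.Lib.MP_02f36d_nt.C17.Rk

/-! Quadratic twists of `17a2` over cubic fields: statements of the steps. -/

set_option autoImplicit false

open NumberField IsDedekindDomain WeierstrassCurve Filter UpperHalfPlane
open scoped Pointwise Classical
open Pool.Agent.Lib.MP_9177b7_ag.CM (IsLat sp jL jH up dn)
open Pool.Agent.Lib.MP_d6ddbd_nt.G (Pt act)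
open Pool.Agent.C17

noncomputable section

namespace Pool.Agent.T17

section Defs

variable {L : Type} [Field L] [NumberField L]

variable (L) in
/-- The prime `p` splits in the quadratic field and its factors have non-trivial character. -/
def Spl (δ : ℂ) (χ : Submodule ℤ ℂ → ZMod 3) (p : ℕ) : Prop :=
  ¬ (p : ℤ) ∣ discr L ∧ ∃ t : ℤ, (p : ℤ) ∣ t ^ 2 - t + (1 - discr L) / 4 ∧
    χ (sp p (om δ - t)) ≠ 0

/-- Lattices whose ring of multipliers is the order of conductor `c`. -/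
def Prim (δ : ℂ) (c : ℕ) (Λ : Submodule ℤ ℂ) : Prop :=
  IsLat Λ ∧ ((c : ℂ) * om δ) • Λ ≤ Λ ∧
    ∀ p c' : ℕ, p.Prime → c = p * c' → ¬ ((c' : ℂ) * om δ) • Λ ≤ Λ

/-- A system of representatives of their classes. -/
def RepsC (δ : ℂ) (c : ℕ) {I : Type} (z : I → ℍ) : Prop :=
  (∀ i, Prim δ c (sp (z i) 1)) ∧ (Function.Injective fun i => jH (z i)) ∧
    ∀ Λ, Prim δ c Λ → ∃ i, jH (z i) = jL Λ

variable (L) in
/-- The limit formula in conductor `c`. -/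
def LimC (δ : ℂ) (χ : Submodule ℤ ℂ → ZMod 3) (c n : ℕ) : Prop :=
  ∀ (I : Type) [Fintype I] (z : I → ℍ), RepsC δ c z → ∀ k : ZMod 3, k ≠ 0 →
    ∑ i with χ (sp 1 (om δ) * sp (z i) 1) = 0, lF (z i) -
      ∑ i with χ (sp 1 (om δ) * sp (z i) 1) = k, lF (z i) =
      -12 * (n * classNumber L) * Units.regulator L

/-- Heegner points with a cubic and a quadratic character. -/
structure HdC (e : ZMod 3 → L →+* ℂ) (r : ℂ) (n : ℕ) {I : Type} [Fintype I] (y : I → Pt)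
    (ψ : I → ZMod 3) (w : I → ℤ) : Prop where
  sg : ∀ i, w i = 1 ∨ w i = -1
  gal : ∀ σ a, Sh e σ a → ∃ π : I ≃ I, ∀ i, act σ (y i) = y (π i) ∧ ψ (π i) = ψ i + a ∧
    (w (π i) : ℂ) * r = w i * σ r
  comm : ∀ σ σ' a a', Sh e σ a → Sh e σ' a' → ∀ i, act σ (act σ' (y i)) = act σ' (act σ (y i))
  abs : ∃ (u v : ZMod 3) (κ : ℝ), u ≠ v ∧ ∀ k, Real.log ‖∏ i with ψ i = k, tt (y i)‖ =
    κ + 3 * (n * classNumber L) * Units.regulator L *
      ((if k = u then 1 else 0) - (if k = v then 1 else 0))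

/-- A point of infinite order and trace zero on the twist. -/
def NtD (e : ZMod 3 → L →+* ℂ) (r : ℂ) : Prop :=
  ∃ P : Pt, ¬ IsOfFinAddOrder P ∧
    (∀ (σ : ℂ ≃+* ℂ) (b : ℤ), (∀ y, σ (e 0 y) = e 0 y) → σ r = b * r → act σ P = b • P) ∧
    ∀ σ, Sh e σ 1 → σ r = r → P + act σ P + act σ (act σ P) = 0

/-- The unit is a descent class over the Galois closure with `r` adjoined. -/
def Bad (e : ZMod 3 → L →+* ℂ) (r : ℂ) (ε : L) : Prop :=
  ∃ (R : Pt) (x : ℂ), (∀ σ, Sh e σ 0 → σ r = r → act σ R = R ∧ σ x = x) ∧ e 0 ε * tt R = x ^ 2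

/-- The points of the twist. -/
abbrev Pd (d : ℤ) (K : Type) [Field K] : Type := Rk.G (-15 * d : K) (-16 * d ^ 2)

/-- `m` is the map on points induced by `f`. -/
def IsMap {d : ℤ} {K K' : Type} [Field K] [Field K'] [DecidableEq K] [DecidableEq K']
    (f : K →+* K') (m : Pd d K →+ Pd d K') : Prop :=
  ∀ x y h, ∃ h', m (.some x y h) = .some (f x) (f y) h'

/-- The span of `1, δ, r, δ r` over the image of `φ`. -/
def Bq (φ : L →+* ℂ) (δ r : ℂ) : Set ℂ :=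
  {x | ∃ a b c g : L, x = φ a + φ b * δ + (φ c + φ g * δ) * r}

end Defs

/-- The character, with its values at all inert primes. -/
def TrPSt : Prop := ∀ (L : Type) [Field L] [NumberField L] (e : ZMod 3 → L →+* ℂ) (δ : ℂ),
  Fam L → Emb e δ → ∃ χ, Lc e δ χ ∧
    ∀ p : ℕ, p.Prime → (Ideal.span {(p : 𝓞 L)}).IsPrime → Spl L δ χ p

/-- The fundamental unit is a unit. -/
def UnitPSt : Prop := ∀ (L : Type) [Field L] [NumberField L] (e : ZMod 3 → L →+* ℂ) (δ : ℂ),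
  Module.finrank ℚ L = 3 → Emb e δ → ∃ u : (𝓞 L)ˣ, Fu e ((u : 𝓞 L) : L)

/-- The Hecke relation for the discriminant function. -/
def HkSt : Prop := ∀ p : ℕ, p.Prime → ∃ C : ℝ, ∀ τ : ℍ,
  lF (up p τ) + ∑ j ∈ Finset.range p, lF (dn p j τ) = (p + 1) * lF τ + C

/-- One step in the conductor. -/
def StepSt : Prop := HkSt → ∀ (L : Type) [Field L] [NumberField L] (e : ZMod 3 → L →+* ℂ) (δ : ℂ)
  (χ : Submodule ℤ ℂ → ZMod 3) (c p n : ℕ), Emb e δ → Lc e δ χ → c ≠ 0 → p.Prime → ¬ p ∣ c →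
    Spl L δ χ p → LimC L δ χ c n → LimC L δ χ (p * c) ((p + 2) * n)

/-- Heegner points of conductor `|d|`. -/
def HeegCSt : Prop := ∀ (L : Type) [Field L] [NumberField L] (e : ZMod 3 → L →+* ℂ) (δ : ℂ)
  (χ : Submodule ℤ ℂ → ZMod 3) (d : ℤ) (n : ℕ), Squarefree (discr L) → Emb e δ → Lc e δ χ →
    Cm e δ χ → Adm d → LimC L δ χ d.natAbs n →
    ∃ r : ℂ, r ^ 2 = d ∧ ∃ (I : Type) (_ : Fintype I) (y : I → Pt) (ψ : I → ZMod 3) (w : I → ℤ),
      HdC e r n y ψ w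

/-- The twisted point has infinite order unless the unit is a descent class. -/
def NtCSt : Prop := FourSt → TorSt → ∀ (L : Type) [Field L] [NumberField L]
  (e : ZMod 3 → L →+* ℂ) (δ r : ℂ) (d : ℤ) (ε : L) (n : ℕ) (I : Type) [Fintype I] (y : I → Pt)
  (ψ : I → ZMod 3) (w : I → ℤ), Odd (classNumber L) → Odd n → d ≠ 0 → r ^ 2 = d → Emb e δ →
    Fu e ε → HdC e r n y ψ w → NtD e r ∨ Bad e r ε

/-- Squares modulo four descend along extensions unramified at two. -/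
def ValSt : Prop := ∀ (L : Type) [Field L] [NumberField L] (φ : L →+* ℂ) (δ r : ℂ) (D d : ℤ)
  (u : (𝓞 L)ˣ), δ ^ 2 = D → r ^ 2 = d → D % 4 = 1 → d % 4 = 1 →
    (∀ O : ValuationSubring ℂ, (2 : ℂ) ∈ O.nonunits → ∃ c ∈ Bq φ δ r, ∃ m : ℂ,
      φ ((u : 𝓞 L) : L) = c ^ 2 * m ∧ O.valuation (m - 1) ≤ O.valuation 4) →
    ∀ q : HeightOneSpectrum (𝓞 L), (2 : 𝓞 L) ∈ q.asIdeal →
      ∃ c : L, q.valuation L (c ^ 2 - ((u : 𝓞 L) : L)) ≤ q.valuation L 4

/-- The unit is not a descent class. -/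
def BadSt : Prop := FourSt → ValSt → ∀ (L : Type) [Field L] [NumberField L]
  (e : ZMod 3 → L →+* ℂ) (δ r : ℂ) (d : ℤ) (u : (𝓞 L)ˣ), Odd (classNumber L) → Emb e δ →
    Fu e ((u : 𝓞 L) : L) → r ^ 2 = d → d % 4 = 1 → ¬ Bad e r ((u : 𝓞 L) : L)

/-- Maps on points. -/
def MapSt : Prop := ∀ (d : ℤ) (K K' : Type) [Field K] [Field K'] [DecidableEq K] [DecidableEq K']
  (f : K →+* K'), ∃ m : Pd d K →+ Pd d K', IsMap f m

/-- The isogeny of degree two followed by the twist is additive. -/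
def IsogSt : Prop := ∀ (d : ℤ) (r : ℂ), d ≠ 0 → r ^ 2 = d → ∃ Ψ : Pt →+ Pd d ℂ,
  (∀ h, Ψ (.some 0 0 h) = 0) ∧ ∀ x y h, x ≠ 0 → ∃ h', Ψ (.some x y h) =
    .some (d * ((x ^ 2 + 30 * x + 289) / (4 * x))) (r ^ 3 * (y * (289 - x ^ 2) / (8 * x ^ 2))) h'

/-- A point independent of the rational points. -/
def LowSt : Prop := MapSt → IsogSt → ∀ (L : Type) [Field L] [NumberField L]
  (e : ZMod 3 → L →+* ℂ) (δ r : ℂ) (d : ℤ), d ≠ 0 → r ^ 2 = d → Emb e δ → NtD e r →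
    ∀ m : Pd d ℚ →+ Pd d L, IsMap (algebraMap ℚ L) m →
      ∃ P : Pd d L, ∀ N : ℕ, N ≠ 0 → N • P ∉ m.range

/-- The norm of a descent class is the descent class of a rational point. -/
def NormSt : Prop := ∀ (L : Type) [Field L] [NumberField L] (d : ℤ), Module.finrank ℚ L = 3 →
  d ≠ 0 → ∀ P : Pd d L, ∃ T : Pd d ℚ,
    IsSquare (Algebra.norm ℚ (Rk.al (0 : L) P) * Rk.al (0 : ℚ) T) ∧
    IsSquare (Algebra.norm ℚ (Rk.al (-d : L) P) * Rk.al (-d : ℚ) T)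

/-- The descent classes. -/
def ClsSt : Prop := ∀ (L : Type) [Field L] [NumberField L] (d : ℤ), Odd (classNumber L) →
  Adm d → Inert L (17 * d) → ∀ x y : L, y ≠ 0 → y ^ 2 = x * (x + d) * (x - 16 * d) →
    (∃ (u : (𝓞 L)ˣ) (ρ : ℕ) (z : L), (ρ : ℤ) ∣ 17 * d ∧ x = ((u : 𝓞 L) : L) * ρ * z ^ 2) ∧
    (∃ (u : (𝓞 L)ˣ) (ρ : ℕ) (z : L), (ρ : ℤ) ∣ 17 * d ∧ x + d = ((u : 𝓞 L) : L) * ρ * z ^ 2) ∧
    ∀ q : HeightOneSpectrum (𝓞 L), (2 : 𝓞 L) ∈ q.asIdeal → ∃ c m : L, x + d = c ^ 2 * m ∧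
      q.valuation L (m - 1) ≤ q.valuation L 4

/-- The new part of the Selmer group has order at most two. -/
def NewSt : Prop := NormSt → ClsSt → ∀ (L : Type) [Field L] [NumberField L] (d : ℤ),
  Module.finrank ℚ L = 3 → discr L < 0 → Odd (classNumber L) → Adm d → Inert L (17 * d) →
    ∀ m : Pd d ℚ →+ Pd d L, IsMap (algebraMap ℚ L) m →
      Module.Finite ℤ (Pd d L) ∧ ∃ g : Pd d L, ∀ P : Pd d L, ∃ (T : Pd d ℚ) (Q : Pd d L),
        P = m T + 2 • Q ∨ P = g + m T + 2 • Q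

/-- The root number. -/
def RootSt : Prop := ∀ (K : Type) [Field K] [NumberField K] (d : ℤ), Odd (Module.finrank ℚ K) →
  Adm d → Inert K (17 * d) → HasRoot (Ed d K)
    ((-1) ^ Fintype.card (InfinitePlace K) * (-jacobiSym d 17 * jacobiSym (-1) d.natAbs))

/-- The rank grows by one. -/
def RankSt : Prop := ∀ (L : Type) [Field L] [NumberField L] (d : ℤ), Fam L → Adm d → Inert L d →
  Module.finrank ℤ (Pd d L) = Module.finrank ℤ (Pd d ℚ) + 1

/-- The density theorem with more inert primes. -/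
def DensSt : Prop := ∀ d : ℤ, d ≠ 0 → ∃ c : ℝ, 0 < c ∧ ∀ᶠ X : ℝ in atTop,
  c * X ≤ ({L : RF | Fam L.1 ∧ Inert L.1 d ∧ -X ≤ discr L.1}.ncard : ℝ)

end Pool.Agent.T17
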