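import Pool.Agent.Lib.MP_02f36d_nt.T17.Fin
import Pool.Agent.Lib.MP_d6ddbd_nt.G.All
import Pool.Agent.Lib.MP_02f36d_nt.TW.Rank

set_option autoImplicit false

namespace Pool.Agent.T17.Two

open Filter NumberField Pool.Agent.T17 Pool.Agent.Lib.MP_02f36d_nt Pool.Agent.Lib.MP_d6ddbd_nt

theorem sign {n : ℕ} (h4 : n % 4 = 3) (hj : jacobiSym 17 n = 1) :
    -(jacobiSym (-n) 17 * jacobiSym (-1) (-n : ℤ).natAbs) = 1 := by
  have ho : Odd n := Nat.odd_iff.2 (by omega)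
  have a1 : jacobiSym (n : ℤ) 17 = 1 := by
    have := jacobiSym.quadratic_reciprocity_one_mod_four (a := 17) (b := n) (by norm_num) ho
    rw [← this]
    exact hj
  rw [jacobiSym.neg _ (by decide), a1, Int.natAbs_neg, Int.natAbs_natCast,
    jacobiSym.at_neg_one ho, ZMod.χ₄_nat_three_mod_four h4,
    ZMod.χ₄_nat_one_mod_four (by norm_num)]
  rfl

theorem result (F : ℕ → Set ℕ) (A : ℝ → Set (IntermediateField ℚ ℝ))
    (B : ℕ → ℝ → Set (IntermediateField ℚ ℝ))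
    (hF : ∀ X, F X = {n : ℕ | n ≤ X ∧ Squarefree n ∧ n % 4 = 3 ∧ n.Coprime 51 ∧
      jacobiSym 17 n = 1})
    (hA : ∀ X, A X = {L : IntermediateField ℚ ℝ | ∃ _ : NumberField L,
      Module.finrank ℚ L = 3 ∧ discr L < 0 ∧ -X ≤ discr L})
    (hB : ∀ n X, B n X = {L : IntermediateField ℚ ℝ | ∃ _ : NumberField L,
      Module.finrank ℚ L = 3 ∧ discr L < 0 ∧ -X ≤ discr L ∧ Squarefree (discr L) ∧
        Inert L (17 * n) ∧ Odd (classNumber L)}) :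
    ∃ c : ℝ, 0 < c ∧ ∀ ε : ℝ, 0 < ε → ∀ᶠ X : ℕ in atTop,
      c * X ≤ (F X).ncard ∧ (5 / 6 - ε) * (F X).ncard ≤ {n ∈ F X |
        (∀ (L : Type) [Field L] [NumberField L] [DecidableEq L], Module.finrank ℚ L = 3 →
          discr L < 0 → Squarefree (discr L) → Inert L (17 * n) → Odd (classNumber L) →
          HasRoot (Ed (-n) L) 1 ∧ Module.finrank ℤ (Ed (-n) L).toAffine.Point = 2) ∧
        ∃ k : ℝ, 0 < k ∧ ∀ᶠ Y : ℝ in atTop,
          (A Y).Finite ∧ k * Y ≤ (B n Y).ncard ∧ k * (A Y).ncard ≤ (B n Y).ncard}.ncard := by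
  classical
  obtain ⟨c, hc, h⟩ := G.cl
  have s1 : ∀ X : ℕ, F X = (G.Cl 1 X : Set ℕ) := fun X => by
    rw [hF]
    ext n
    exact (G.FinalAux.mem_cl' (Or.inr ⟨rfl, rfl⟩)).symm
  refine ⟨c, hc, fun ε hε => ?_⟩
  filter_upwards [h 1, G.FinalAux.count (G.par G.recip) G.cl G.momAll ε hε] with X h1 h2
  rw [s1, Set.ncard_coe_finset]
  refine ⟨h1, h2.1.trans ?_⟩
  rw [← Set.ncard_coe_finset, Nat.cast_le]
  refine Set.ncard_le_ncard (fun n hn => ?_) ((Finset.finite_toSet _).subset fun n hn => hn.1)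
  obtain ⟨a, g⟩ := Finset.mem_filter.1 hn
  obtain ⟨-, b2, b3, b4, b5⟩ := (G.FinalAux.mem_cl' (Or.inr ⟨rfl, rfl⟩)).1 a
  obtain ⟨-, -, c1, c2, c3⟩ := G.FinalAux.mem_cl.1 a
  have d : G.dsc n.primeFactors = -n := by
    rcases G.FinalAux.dsc_cases (G.FinalAux.odd_of c1) with k | k
    · rw [c2] at k
      exact absurd k.1 one_ne_zero
    · rw [k.2.1, Nat.prod_primeFactors_of_squarefree b2]
  have r : Module.finrank ℤ (Ed (-n) ℚ).toAffine.Point = 1 := by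
    rw [← d]
    exact TW.rank (G.desc G.recip) _ c1 g.1 (G.indAll G.geomAll _ ⟨c1, c2, c3⟩ g)
  have hd : Adm (-n) := ⟨Int.squarefree_natAbs.1 (by simpa using b2), by omega, by simpa using b4⟩
  refine ⟨a, fun L _ _ _ l1 l2 l3 l4 l5 => ?_, Fin.dens
    (mul_ne_zero (by norm_num) (Int.natCast_ne_zero.2 b2.ne_zero)) A (B n) hA (hB n)⟩
  have l6 : Inert L (17 * -n) := fun p hp k => l4 p hp (by simpa using k)
  exact ⟨sign b3 b5 ▸ Fin.rootL hd L l1 l2 l6, (Fin.rk hd L l1 l2 l3 l6 l5).trans (by rw [r])⟩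

end Pool.Agent.T17.Two
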